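import Pool.Agent.Helper62.GP.StZ
import Pool.Agent.Helper13.GP.Comb

/-!
# COR-Z ADD: one more positive triangle on a side
-/

set_option autoImplicit false

namespace Pool.Agent.Helper62.GP

open Pool.Agent.Helper18.GP Pool.Agent.Helper13.GP Relation Classical Finset

variable {N : ℕ}

/-- the graph with the new vertex `z` joined to `a` and `q` -/
def gAdd_ADD (V : Finset (Fin N)) (G : SimpleGraph (Fin N)) (z a q : Fin N) :
    SimpleGraph (Fin N) :=
  SimpleGraph.fromRel fun x y => (x ∈ V ∧ y ∈ V ∧ G.Adj x y) ∨ (x = z ∧ (y = a ∨ y = q))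

theorem adj_ADD {V : Finset (Fin N)} {G : SimpleGraph (Fin N)} {z a q : Fin N} (ha : a ≠ z)
    (hq : q ≠ z) {x y : Fin N} : (gAdd_ADD V G z a q).Adj x y ↔
      (x ∈ V ∧ y ∈ V ∧ G.Adj x y) ∨ (x = z ∧ (y = a ∨ y = q)) ∨ (y = z ∧ (x = a ∨ x = q)) := by
  unfold gAdd_ADD
  rw [SimpleGraph.fromRel_adj]
  constructor
  · rintro ⟨-, (h | h) | (h | h)⟩
    · exact Or.inl h
    · exact Or.inr (Or.inl h)
    · exact Or.inl ⟨h.2.1, h.1, h.2.2.symm⟩
    · exact Or.inr (Or.inr h)
  · rintro (h | h | h)
    · exact ⟨h.2.2.ne, Or.inl (Or.inl h)⟩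
    · refine ⟨?_, Or.inl (Or.inr h)⟩
      rintro rfl
      rcases h.2 with h2 | h2
      · exact ha (h2.symm.trans h.1)
      · exact hq (h2.symm.trans h.1)
    · refine ⟨?_, Or.inr (Or.inr h)⟩
      rintro rfl
      rcases h.2 with h2 | h2
      · exact ha (h2.symm.trans h.1)
      · exact hq (h2.symm.trans h.1)

theorem far_ADD {V : Finset (Fin N)} {a q : Fin N}
    (h : ∀ v ∈ V, ¬ Ccw q v a) {v : Fin N} (hv : v ∈ V) :
    v = q ∨ v = a ∨ (cyc q a < cyc q v) := by
  by_cases h1 : v = q
  · exact Or.inl h1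
  by_cases h2 : v = a
  · exact Or.inr (Or.inl h2)
  right; right
  have h3 := h v hv
  have h4 := cyc_pos.2 h1
  have h5 : cyc q v ≠ cyc q a := fun hh => h2 (cyc_inj hh)
  unfold Ccw at h3
  omega

theorem nCrs_ADD {V : Finset (Fin N)} {z a q : Fin N} (hz : Ccw q z a)
    (h : ∀ v ∈ V, ¬ Ccw q v a) {x c d : Fin N} (hx : x = a ∨ x = q) (hc : c ∈ V) (hd : d ∈ V) :
    ¬ Crs z x c d := by
  have h1 := h c hc
  have h2 := h d hd
  rw [Crs_iff]
  rw [Ccw_iff] at h1 h2 hz
  rcases hx with rfl | rfl <;> omega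

theorem isTri_ADD {V : Finset (Fin N)} {G : SimpleGraph (Fin N)} {z a q : Fin N}
    (hT : IsTri V G) (hz : z ∉ V) (ha : a ∈ V) (hq : q ∈ V) (hc : Ccw q z a)
    (h : ∀ v ∈ V, ¬ Ccw q v a) : IsTri (insert z V) (gAdd_ADD V G z a q) := by
  have haz : a ≠ z := fun hh => hz (hh ▸ ha)
  have hqz : q ≠ z := fun hh => hz (hh ▸ hq)
  have hqa : G.Adj q a := bdAdj N V G hT q a ⟨hq, ha, Ccw_ne13 hc, Or.inl h⟩
  constructor
  · intro x hx y hy c hcc d hd h1 h2 hcr
    obtain ⟨n1, n2, n3, n4, n5, n6⟩ := Crs_ne hcr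
    rw [adj_ADD haz hqz] at h1 h2
    have key : ∀ x y c d : Fin N, c ∈ insert z V → d ∈ insert z V → (x = z ∧ (y = a ∨ y = q)) →
        Crs x y c d → False := by
      intro x y c d hcc hd h1 hcr
      obtain ⟨rfl, hy'⟩ := h1
      have hne := Crs_ne hcr
      have hcV : c ∈ V := by
        rcases Finset.mem_insert.1 hcc with h3 | h3
        · exfalso; subst h3; simp_all
        · exact h3
      have hdV : d ∈ V := by
        rcases Finset.mem_insert.1 hd with h3 | h3
        · exfalso; subst h3; simp_all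
        · exact h3
      exact nCrs_ADD hc h hy' hcV hdV hcr
    rcases h1 with h1 | h1 | h1
    · rcases h2 with h2 | h2 | h2
      · exact hT.nc x h1.1 y h1.2.1 c h2.1 d h2.2.1 h1.2.2 h2.2.2 hcr
      · exact key c d x y hx hy h2 (Crs_symm hcr)
      · exact key d c x y hx hy h2 (Crs_swap12 (Crs_symm hcr))
    · exact key x y c d hcc hd h1 hcr
    · exact key y x c d hcc hd h1 (Crs_swap12 hcr)
  · intro x hx y hy hxy hn
    have key : ∀ y ∈ V, ¬ (gAdd_ADD V G z a q).Adj z y → Crs z y q a := by
      intro y hy hn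
      rw [adj_ADD haz hqz] at hn
      push Not at hn
      have h3 := hn.2.1 rfl
      rcases far_ADD h hy with h4 | h4 | h4
      · exact absurd h4 h3.2
      · exact absurd h4 h3.1
      · rw [Crs_base q, cyc_self]
        have := hc.1
        have := hc.2
        omega
    have e0 : (gAdd_ADD V G z a q).Adj q a := (adj_ADD haz hqz).2 (Or.inl ⟨hq, ha, hqa⟩)
    by_cases hxz : x = z
    · have hy' : y ∈ V := Finset.mem_of_mem_insert_of_ne hy (fun hh => hxy (hxz.trans hh.symm))
      rw [hxz] at hn ⊢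
      exact ⟨q, Finset.mem_insert_of_mem hq, a, Finset.mem_insert_of_mem ha, e0, key y hy' hn⟩
    have hx' : x ∈ V := Finset.mem_of_mem_insert_of_ne hx hxz
    by_cases hyz : y = z
    · rw [hyz] at hn ⊢
      exact ⟨q, Finset.mem_insert_of_mem hq, a, Finset.mem_insert_of_mem ha, e0,
        Crs_swap12 (key x hx' fun hh => hn hh.symm)⟩
    have hy' : y ∈ V := Finset.mem_of_mem_insert_of_ne hy hyz
    have hn' : ¬ G.Adj x y := fun hh => hn ((adj_ADD haz hqz).2 (Or.inl ⟨hx', hy', hh⟩))
    obtain ⟨c, hc', d, hd, hcd, hcr⟩ := hT.mx x hx' y hy' hxy hn'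
    exact ⟨c, Finset.mem_insert_of_mem hc', d, Finset.mem_insert_of_mem hd,
      (adj_ADD haz hqz).2 (Or.inl ⟨hc', hd, hcd⟩), hcr⟩

theorem St_ADD {V : Finset (Fin N)} {G : SimpleGraph (Fin N)} {P : Fin N → ℂ} {z a q : Fin N}
    (hS : St V G P) (hz : z ∉ V) (ha : a ∈ V) (hq : q ∈ V) (hc : Ccw q z a)
    (hp : 0 < crs (P z - P q) (P a - P q)) : St (insert z V) (gAdd_ADD V G z a q) P := by
  have haz : a ≠ z := fun hh => hz (hh ▸ ha)
  have hqz : q ≠ z := fun hh => hz (hh ▸ hq)
  -- triangles with the first vertex `z`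
  have key : ∀ x ∈ insert z V, ∀ y ∈ insert z V, Ccw z x y → (gAdd_ADD V G z a q).Adj z x →
      (gAdd_ADD V G z a q).Adj z y → x = a ∧ y = q := by
    intro x hx y hy hxy h1 h2
    have e1 := Ccw_ne12 hxy
    have e2 := Ccw_ne13 hxy
    have e3 := Ccw_ne23 hxy
    rw [adj_ADD haz hqz] at h1 h2
    rcases h1 with h1 | h1 | h1
    · exact absurd h1.1 hz
    · rcases h2 with h2 | h2 | h2
      · exact absurd h2.1 hz
      · obtain ⟨-, rfl | rfl⟩ := h1
        · obtain ⟨-, rfl | rfl⟩ := h2
          · exact absurd rfl e3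
          · exact ⟨rfl, rfl⟩
        · obtain ⟨-, rfl | rfl⟩ := h2
          · exfalso
            exact Ccw_asymm hxy (Ccw_rot hc)
          · exact absurd rfl e3
      · exact absurd h2.1.symm e2
    · exact absurd h1.1.symm e1
  intro x hx y hy w hw hc3 h1 h2 h3
  by_cases xz : x = z
  · subst xz
    obtain ⟨rfl, rfl⟩ := key y hy w hw hc3 h1 h3
    unfold crs at hp ⊢
    simp only [Complex.sub_re, Complex.sub_im] at hp ⊢
    linarith
  by_cases yz : y = z
  · subst yz
    obtain ⟨rfl, rfl⟩ := key w hw x hx (Ccw_rot hc3) h2 h1.symm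
    unfold crs at hp ⊢
    simp only [Complex.sub_re, Complex.sub_im] at hp ⊢
    linarith
  by_cases wz : w = z
  · subst wz
    obtain ⟨rfl, rfl⟩ := key x hx y hy (Ccw_rot' hc3) h3.symm h2.symm
    unfold crs at hp ⊢
    simp only [Complex.sub_re, Complex.sub_im] at hp ⊢
    linarith
  rw [adj_ADD haz hqz] at h1 h2 h3
  have hx' := Finset.mem_of_mem_insert_of_ne hx xz
  have hy' := Finset.mem_of_mem_insert_of_ne hy yz
  have hw' := Finset.mem_of_mem_insert_of_ne hw wz
  refine hS x hx' y hy' w hw' hc3 ?_ ?_ ?_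
  · rcases h1 with h1 | h1 | h1
    · exact h1.2.2
    · exact absurd h1.1 xz
    · exact absurd h1.1 yz
  · rcases h2 with h2 | h2 | h2
    · exact h2.2.2
    · exact absurd h2.1 yz
    · exact absurd h2.1 wz
  · rcases h3 with h3 | h3 | h3
    · exact h3.2.2
    · exact absurd h3.1 xz
    · exact absurd h3.1 wz

theorem mono_ADD {V : Finset (Fin N)} {G : SimpleGraph (Fin N)} {P : Fin N → ℂ} {z a q : Fin N}
    (hLn : stLnP) (hMet : stMet) (hT : IsTri V G) (hT' : IsTri (insert z V) (gAdd_ADD V G z a q))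
    (haz : a ≠ z) (hqz : q ≠ z) (B : Finset (Fin N)) (hB : B ⊆ V) :
    Ln (insert z V) (gAdd_ADD V G z a q) P B ≤ Ln V G P B := by
  have m := hMet N V G P hT
  have m' := hMet N _ _ P hT'
  have hP : Pts V G ⊆ Pts (insert z V) (gAdd_ADD V G z a q) := by
    intro x hx
    refine ⟨hx.1, hx.2.1, fun v hv => Finset.mem_insert_of_mem (hx.2.2.1 v hv), ?_⟩
    intro u v hu hv huv
    exact (adj_ADD haz hqz).2 (Or.inl ⟨hx.2.2.1 u hu, hx.2.2.1 v hv, hx.2.2.2 u v hu hv huv⟩)
  have left : ∀ {x y : Fin N → ℝ} {c : ℝ}, Ch V G P x y c → x ∈ Pts V G := by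
    intro x y c hc
    cases hc with
    | nil _ hx => exact hx
    | cons _ _ _ _ hx _ _ => exact hx
  have hCh : ∀ {x y : Fin N → ℝ} {c : ℝ}, Ch V G P x y c →
      Ch (insert z V) (gAdd_ADD V G z a q) P x y c := by
    intro x y c hc
    induction hc with
    | nil x hx => exact Ch.nil x (hP hx)
    | cons x w y c hx hs h ih =>
      refine Ch.cons x w y c (hP hx) ?_ ih
      have hw := left h
      intro u v hu hv huv
      refine (adj_ADD haz hqz).2 (Or.inl ⟨?_, ?_, hs u v hu hv huv⟩)
      · rcases hu with hu | hu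
        · exact hx.2.2.1 u hu
        · exact hw.2.2.1 u hu
      · rcases hv with hv | hv
        · exact hx.2.2.1 v hv
        · exact hw.2.2.1 v hv
  have nn : ∀ {x y : Fin N → ℝ} {c : ℝ}, Ch (insert z V) (gAdd_ADD V G z a q) P x y c → 0 ≤ c := by
    intro x y c hc
    induction hc with
    | nil x hx => exact le_rfl
    | cons _ _ _ _ _ _ _ ih => positivity
  have hdK : ∀ x ∈ Pts V G, ∀ y ∈ Pts V G,
      dK (insert z V) (gAdd_ADD V G z a q) P x y ≤ dK V G P x y := by
    intro x hx y hy
    exact csInf_le ⟨0, fun c hc => nn hc⟩ (hCh (m.att x hx y hy))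
  obtain ⟨E, hE, hconn, hlen⟩ := (hLn N V G P hT).att B hB
  rw [hlen]
  calc Ln (insert z V) (gAdd_ADD V G z a q) P B
      ≤ nlen (dK (insert z V) (gAdd_ADD V G z a q) P) E := by
        refine csInf_le ⟨0, ?_⟩ ⟨E, fun e he => ⟨hP (hE e he).1, hP (hE e he).2⟩, hconn, rfl⟩
        rintro c ⟨E', hE', -, rfl⟩
        refine List.sum_nonneg ?_
        intro r hr
        obtain ⟨e, he, rfl⟩ := List.mem_map.1 hr
        exact m'.nonneg _ (hE' e he).1 _ (hE' e he).2
    _ ≤ nlen (dK V G P) E := by
        unfold nlen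
        refine List.sum_le_sum ?_
        intro e he
        exact hdK _ (hE e he).1 _ (hE e he).2

theorem t_Add (hLn : stLnP) (hMet : stMet) : stAdd := by
  intro N V G P z a q hT hS hz ha hq hc h hp
  have haz : a ≠ z := fun hh => hz (hh ▸ ha)
  have hqz : q ≠ z := fun hh => hz (hh ▸ hq)
  have hqa : G.Adj q a := bdAdj N V G hT q a ⟨hq, ha, Ccw_ne13 hc, Or.inl h⟩
  have hT' := isTri_ADD hT hz ha hq hc h
  have hVz : ∀ {x : Fin N}, x ∈ V → x ≠ z := fun hx hh => hz (hh ▸ hx)
  have old : ∀ {x y : Fin N}, x ∈ V → y ∈ V → ((gAdd_ADD V G z a q).Adj x y ↔ G.Adj x y) := by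
    intro x y hx hy
    rw [adj_ADD haz hqz]
    constructor
    · rintro (h1 | h1 | h1)
      · exact h1.2.2
      · exact absurd h1.1 (hVz hx)
      · exact absurd h1.1 (hVz hy)
    · exact fun h1 => Or.inl ⟨hx, hy, h1⟩
  have new : ∀ {x : Fin N}, x ∈ V → ((gAdd_ADD V G z a q).Adj z x ↔ x = a ∨ x = q) := by
    intro x hx
    rw [adj_ADD haz hqz]
    constructor
    · rintro (h1 | h1 | h1)
      · exact absurd h1.1 hz
      · exact h1.2
      · exact absurd h1.1 (hVz hx)
    · exact fun h1 => Or.inr (Or.inl ⟨rfl, h1⟩)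
  have mem_tris : ∀ (V : Finset (Fin N)) (G : SimpleGraph (Fin N)) (v : Fin N)
      (e : Fin N × Fin N), e ∈ tris V G v ↔ (e.1 ∈ V ∧ e.2 ∈ V) ∧ Ccw v e.1 e.2 ∧
        G.Adj v e.1 ∧ G.Adj v e.2 ∧ G.Adj e.1 e.2 := by
    intro V G v e
    unfold tris
    rw [Finset.mem_filter, Finset.mem_product]
  -- old triangles
  have told : ∀ v ∈ V, ∀ e : Fin N × Fin N, e.1 ≠ z → e.2 ≠ z →
      (e ∈ tris (insert z V) (gAdd_ADD V G z a q) v ↔ e ∈ tris V G v) := by
    intro v hv e h1 h2
    rw [mem_tris, mem_tris, Finset.mem_insert, Finset.mem_insert]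
    constructor
    · rintro ⟨⟨h3, h4⟩, h5, h6, h7, h8⟩
      have h3 := h3.resolve_left h1
      have h4 := h4.resolve_left h2
      exact ⟨⟨h3, h4⟩, h5, (old hv h3).1 h6, (old hv h4).1 h7, (old h3 h4).1 h8⟩
    · rintro ⟨⟨h3, h4⟩, h5, h6, h7, h8⟩
      exact ⟨⟨Or.inr h3, Or.inr h4⟩, h5, (old hv h3).2 h6, (old hv h4).2 h7, (old h3 h4).2 h8⟩
  have tnz : ∀ v ∈ V, ∀ e ∈ tris V G v, e.1 ≠ z ∧ e.2 ≠ z := by
    intro v hv e he
    rw [mem_tris] at he
    exact ⟨hVz he.1.1, hVz he.1.2⟩
  refine ⟨gAdd_ADD V G z a q, hT', St_ADD hS hz ha hq hc hp, fun x hx y hy => old hx hy,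
    fun x hx => new hx, ?_, ?_, ?_, ?_, fun B hB => mono_ADD hLn hMet hT hT' haz hqz B hB⟩
  · intro v hv hva hvq
    unfold ang
    congr 1
    ext e
    have hvz : ¬ (gAdd_ADD V G z a q).Adj v z := by
      intro hh
      rcases (new hv).1 hh.symm with h1 | h1
      · exact hva h1
      · exact hvq h1
    by_cases h1 : e.1 = z
    · constructor
      · intro he
        rw [mem_tris] at he
        exact absurd (h1 ▸ he.2.2.1) hvz
      · intro he
        exact absurd h1 (tnz v hv e he).1
    by_cases h2 : e.2 = z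
    · constructor
      · intro he
        rw [mem_tris] at he
        exact absurd (h2 ▸ he.2.2.2.1) hvz
      · intro he
        exact absurd h2 (tnz v hv e he).2
    exact told v hv e h1 h2
  · have hset : tris (insert z V) (gAdd_ADD V G z a q) a = insert (q, z) (tris V G a) := by
      ext e
      rw [Finset.mem_insert]
      by_cases h1 : e.1 = z
      · constructor
        · intro he
          exfalso
          rw [mem_tris] at he
          obtain ⟨⟨-, h3⟩, h4, h5, h6, h7⟩ := he
          rw [h1] at h4 h7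
          have h8 : e.2 ∈ V := by
            rcases Finset.mem_insert.1 h3 with h9 | h9
            · exact absurd h9.symm (Ccw_ne23 h4)
            · exact h9
          rcases (new h8).1 h7 with h9 | h9
          · exact Ccw_ne13 h4 h9.symm
          · rw [h9] at h4
            exact Ccw_asymm h4 (Ccw_rot' hc)
        · rintro (he | he)
          · exfalso
            rw [he] at h1
            exact hqz h1
          · exact absurd h1 (tnz a ha e he).1
      by_cases h2 : e.2 = z
      · constructor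
        · intro he
          left
          rw [mem_tris] at he
          obtain ⟨⟨h3, -⟩, h4, h5, h6, h7⟩ := he
          have h8 : e.1 ∈ V := (Finset.mem_insert.1 h3).resolve_left h1
          rw [h2] at h7
          rcases (new h8).1 h7.symm with h9 | h9
          · exact absurd h9.symm (Ccw_ne12 h4)
          · exact Prod.ext h9 h2
        · rintro (he | he)
          · rw [he, mem_tris]
            exact ⟨⟨Finset.mem_insert_of_mem hq, Finset.mem_insert_self _ _⟩, Ccw_rot' hc,
              (old ha hq).2 hqa.symm, ((new ha).2 (Or.inl rfl)).symm,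
              ((new hq).2 (Or.inr rfl)).symm⟩
          · exact absurd h2 (tnz a ha e he).2
      rw [told a ha e h1 h2]
      constructor
      · exact fun he => Or.inr he
      · rintro (he | he)
        · exfalso
          rw [he] at h2
          exact h2 rfl
        · exact he
    unfold ang
    rw [hset, Finset.sum_insert (fun hh => (tnz a ha _ hh).2 rfl), add_comm]
  · have hset : tris (insert z V) (gAdd_ADD V G z a q) q = insert (z, a) (tris V G q) := by
      ext e
      rw [Finset.mem_insert]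
      by_cases h2 : e.2 = z
      · constructor
        · intro he
          exfalso
          rw [mem_tris] at he
          obtain ⟨⟨h3, -⟩, h4, h5, h6, h7⟩ := he
          rw [h2] at h4 h7
          have h8 : e.1 ∈ V := by
            rcases Finset.mem_insert.1 h3 with h9 | h9
            · exact absurd h9 (Ccw_ne23 h4)
            · exact h9
          rcases (new h8).1 h7.symm with h9 | h9
          · rw [h9] at h4
            exact Ccw_asymm h4 hc
          · exact Ccw_ne12 h4 h9.symm
        · rintro (he | he)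
          · exfalso
            rw [he] at h2
            exact haz h2
          · exact absurd h2 (tnz q hq e he).2
      by_cases h1 : e.1 = z
      · constructor
        · intro he
          left
          rw [mem_tris] at he
          obtain ⟨⟨-, h3⟩, h4, h5, h6, h7⟩ := he
          have h8 : e.2 ∈ V := (Finset.mem_insert.1 h3).resolve_left h2
          rw [h1] at h7
          rcases (new h8).1 h7 with h9 | h9
          · exact Prod.ext h1 h9
          · exact absurd h9.symm (Ccw_ne13 h4)
        · rintro (he | he)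
          · rw [he, mem_tris]
            exact ⟨⟨Finset.mem_insert_self _ _, Finset.mem_insert_of_mem ha⟩, hc,
              ((new hq).2 (Or.inr rfl)).symm, (old hq ha).2 hqa, (new ha).2 (Or.inl rfl)⟩
          · exact absurd h1 (tnz q hq e he).1
      rw [told q hq e h1 h2]
      constructor
      · exact fun he => Or.inr he
      · rintro (he | he)
        · exfalso
          rw [he] at h1
          exact h1 rfl
        · exact he
    unfold ang
    rw [hset, Finset.sum_insert (fun hh => (tnz q hq _ hh).1 rfl), add_comm]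
  · have hset : tris (insert z V) (gAdd_ADD V G z a q) z = {(a, q)} := by
      ext e
      rw [Finset.mem_singleton]
      constructor
      · intro he
        rw [mem_tris] at he
        obtain ⟨⟨h2, h3⟩, h4, h5, h6, h7⟩ := he
        have g1 : e.1 ∈ V := (Finset.mem_insert.1 h2).resolve_left (Ccw_ne12 h4).symm
        have g2 : e.2 ∈ V := (Finset.mem_insert.1 h3).resolve_left (Ccw_ne13 h4).symm
        rcases (new g1).1 h5 with h8 | h8
        · rcases (new g2).1 h6 with h9 | h9
          · exact absurd (h8.trans h9.symm) (Ccw_ne23 h4)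
          · exact Prod.ext h8 h9
        · rcases (new g2).1 h6 with h9 | h9
          · exfalso
            rw [h8, h9] at h4
            exact Ccw_asymm h4 (Ccw_rot hc)
          · exact absurd (h8.trans h9.symm) (Ccw_ne23 h4)
      · intro he
        rw [he, mem_tris]
        exact ⟨⟨Finset.mem_insert_of_mem ha, Finset.mem_insert_of_mem hq⟩, Ccw_rot hc,
          (new ha).2 (Or.inl rfl), (new hq).2 (Or.inr rfl), (old ha hq).2 hqa.symm⟩
    unfold ang
    rw [hset, Finset.sum_singleton]

end Pool.Agent.Helper62.GP
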