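import Pool.Agent.Helper62.GP.StZ

/-!
# Gilbert-Pollak, chapter COR, part ZIP, module AN: three small facts on angles
-/

set_option autoImplicit false

namespace Pool.Agent.Helper62.GP

open Pool.Agent.Helper18.GP Pool.Agent.Helper13.GP Relation Classical Finset

theorem mul_AN {x y1 y2 y3 : ℂ} (h2 : y2 ≠ x) :
    (y3 - x) / (y1 - x) = ((y2 - x) / (y1 - x)) * ((y3 - x) / (y2 - x)) := by
  have h2' : y2 - x ≠ 0 := sub_ne_zero.2 h2
  rw [div_mul_div_comm, mul_comm (y1 - x) (y2 - x), mul_div_mul_left _ _ h2']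

theorem ex_AN {x y1 y2 y3 : ℂ} (h1 : y1 ≠ x) (h2 : y2 ≠ x) (h3 : y3 ≠ x) :
    ∃ k : ℤ, an x y1 y3 - (an x y1 y2 + an x y2 y3) = 2 * Real.pi * k := by
  have e1 : (y2 - x) / (y1 - x) ≠ 0 := div_ne_zero (sub_ne_zero.2 h2) (sub_ne_zero.2 h1)
  have e2 : (y3 - x) / (y2 - x) ≠ 0 := div_ne_zero (sub_ne_zero.2 h3) (sub_ne_zero.2 h2)
  have h := Complex.arg_mul_coe_angle e1 e2
  rw [← mul_AN h2, ← Real.Angle.coe_add] at h
  exact Real.Angle.angle_eq_iff_two_pi_dvd_sub.1 h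

theorem uniq_AN {a b : ℝ} {k : ℤ} (ha : -Real.pi < a) (ha' : a ≤ Real.pi) (hb : 0 ≤ b)
    (hb' : b < 2 * Real.pi) (h0 : 0 ≤ a ∨ b ≤ Real.pi) (hk : a - b = 2 * Real.pi * k) : a = b := by
  have hpi := Real.pi_pos
  have h1 : k < 1 := by
    by_contra hc
    have h2 : (1 : ℤ) ≤ k := not_lt.1 hc
    have h3 : (1 : ℝ) ≤ k := by exact_mod_cast h2
    nlinarith
  have h2 : -1 < k := by
    by_contra hc
    have h2 : k ≤ -1 := not_lt.1 hc
    have h3 : (k : ℝ) ≤ -1 := by exact_mod_cast h2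
    rcases h0 with h0 | h0 <;> nlinarith
  have h3 : k = 0 := by omega
  rw [h3] at hk
  simp only [Int.cast_zero, mul_zero] at hk
  linarith

theorem t_AnAdd : stAnAdd := by
  intro x y1 y2 y3 h1 h2 h3 h12 h23 hs
  obtain ⟨k, hk⟩ := ex_AN h1 h2 h3
  exact uniq_AN (Complex.neg_pi_lt_arg _) (Complex.arg_le_pi _) (add_nonneg h12 h23)
    (by linarith [Real.pi_pos]) (Or.inr hs) hk

theorem t_AnAdd2 : stAnAdd2 := by
  intro x y1 y2 y3 h1 h2 h3 h12 h12' h23 h23' h13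
  obtain ⟨k, hk⟩ := ex_AN h1 h2 h3
  exact uniq_AN (Complex.neg_pi_lt_arg _) (Complex.arg_le_pi _) (add_nonneg h12 h23)
    (by linarith [Real.pi_pos]) (Or.inl h13) hk

theorem im_AN {x y z : ℂ} :
    ((z - x) / (y - x)).im = crs (y - x) (z - x) / Complex.normSq (y - x) := by
  rw [Complex.div_im]
  unfold crs
  ring

theorem t_AnSign : stAnSign := by
  intro x y z hy hz
  have hn : 0 < Complex.normSq (y - x) := Complex.normSq_pos.2 (sub_ne_zero.2 hy)
  set w : ℂ := (z - x) / (y - x) with hw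
  have hw0 : w ≠ 0 := div_ne_zero (sub_ne_zero.2 hz) (sub_ne_zero.2 hy)
  have him : w.im = crs (y - x) (z - x) / Complex.normSq (y - x) := im_AN
  have han : an x y z = Complex.arg w := rfl
  have e1 : 0 ≤ w.im ↔ 0 ≤ crs (y - x) (z - x) := by
    rw [him]
    exact ⟨fun h => by
      have := mul_nonneg h hn.le
      rwa [div_mul_cancel₀ _ hn.ne'] at this, fun h => div_nonneg h hn.le⟩
  have e2 : 0 < w.im ↔ 0 < crs (y - x) (z - x) := by
    rw [him]
    exact ⟨fun h => by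
      have := mul_pos h hn
      rwa [div_mul_cancel₀ _ hn.ne'] at this, fun h => div_pos h hn⟩
  rw [han, ← e1, ← e2]
  refine ⟨Complex.arg_nonneg_iff, ?_, ?_⟩
  · rintro ⟨h1, h2⟩
    have h3 : ‖w‖ * Real.sin (Complex.arg w) = w.im := Complex.norm_mul_sin_arg w
    rw [← h3]
    exact mul_pos (norm_pos_iff.2 hw0) (Real.sin_pos_of_pos_of_lt_pi h1 h2)
  · intro h
    refine ⟨lt_of_le_of_ne (Complex.arg_nonneg_iff.2 h.le) ?_,
      lt_of_le_of_ne (Complex.arg_le_pi _) ?_⟩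
    · intro h0
      have := (Complex.arg_eq_zero_iff.1 h0.symm).2
      linarith
    · intro h0
      have := (Complex.arg_eq_pi_iff.1 h0).2
      linarith

end Pool.Agent.Helper62.GP
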