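import Pool.Agent.Helper62.GP.StZ
import Pool.Agent.Helper13.GP.Comb

/-!
# GP, COR-Z, module FAN (helper33): the sorted neighbours of a vertex
-/

set_option autoImplicit false

namespace Pool.Agent.Helper62.GP

open Pool.Agent.Helper18.GP Pool.Agent.Helper13.GP Relation Classical Finset

/-- enumeration of a set of labels by the distance from `s` -/
private theorem enum_FAN {N : ℕ} (s : Fin N) (A : Finset (Fin N)) :
    ∃ c : ℕ → Fin N, (∀ i < A.card, c i ∈ A) ∧
      (∀ i j, i < j → j < A.card → cyc s (c i) < cyc s (c j)) ∧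
      ∀ v ∈ A, ∃ i < A.card, v = c i := by
  have hinj : Function.Injective (fun v : Fin N => cyc s v) := fun u v h => cyc_inj h
  set S : Finset ℕ := A.image (fun v => cyc s v) with hS
  have hcard : S.card = A.card := card_image_of_injective A hinj
  have hmem : ∀ i : Fin A.card, ∃ a ∈ A, cyc s a = S.orderEmbOfFin hcard i := by
    intro i
    exact mem_image.1 (orderEmbOfFin_mem S hcard i)
  choose a ha1 ha2 using hmem
  refine ⟨fun i => if h : i < A.card then a ⟨i, h⟩ else s, ?_, ?_, ?_⟩
  · intro i hi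
    simp only [dif_pos hi]
    exact ha1 _
  · intro i j hij hj
    have hi : i < A.card := by omega
    simp only [dif_pos hi, dif_pos hj]
    rw [ha2, ha2]
    exact (S.orderEmbOfFin hcard).strictMono (show (⟨i, hi⟩ : Fin A.card) < ⟨j, hj⟩ from hij)
  · intro v hv
    have h1 : cyc s v ∈ (S : Set ℕ) := by
      rw [mem_coe, hS]
      exact mem_image_of_mem _ hv
    rw [← range_orderEmbOfFin S hcard] at h1
    obtain ⟨i, hi⟩ := h1
    refine ⟨i, i.2, ?_⟩
    simp only [dif_pos i.2]
    apply cyc_inj (a := s)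
    rw [ha2, ← hi]

theorem t_Fan : stFan := by
  intro N V G s hT hs hV
  set A : Finset (Fin N) := V.filter fun v => G.Adj s v with hA
  obtain ⟨c, hc1, hc2, hc3⟩ := enum_FAN s A
  have hcs : cyc s s = 0 := cyc_self s
  have hex : ∃ v ∈ V, v ≠ s := by
    have : (V.erase s).Nonempty := Finset.card_pos.1 (by rw [Finset.card_erase_of_mem hs]; omega)
    obtain ⟨v, hv⟩ := this
    exact ⟨v, (mem_erase.1 hv).2, (mem_erase.1 hv).1⟩
  obtain ⟨u, hu, hus, humin⟩ := exists_next hex
  obtain ⟨w, hw, hws, hwmax⟩ := exists_prev hex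
  have huA : u ∈ A := mem_filter.2 ⟨hu, bdAdj N V G hT s u (Bd_next hs hu hus humin)⟩
  have hwA : w ∈ A := mem_filter.2 ⟨hw, bdAdj N V G hT s w (Bd_prev hs hw hws hwmax)⟩
  have huw : u ≠ w := by
    rintro rfl
    have hsub : V ⊆ {s, u} := by
      intro v hv
      by_cases hvs : v = s
      · rw [hvs]; simp
      · have h1 := humin v hv hvs
        have h2 := hwmax v hv
        have h3 : v = u := cyc_inj (a := s) (le_antisymm h2 h1)
        rw [h3]; simp
    have := (card_le_card hsub).trans card_le_two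
    omega
  have hK : 2 ≤ A.card := by
    have hsub : ({u, w} : Finset (Fin N)) ⊆ A := by
      intro v hv
      simp only [mem_insert, mem_singleton] at hv
      rcases hv with rfl | rfl <;> assumption
    have := card_le_card hsub
    rwa [card_pair huw] at this
  obtain ⟨M, hM⟩ : ∃ M, A.card = M + 1 := ⟨A.card - 1, by omega⟩
  have hM1 : 1 ≤ M := by omega
  have memA : ∀ i ≤ M, c i ∈ V ∧ G.Adj s (c i) := fun i hi =>
    mem_filter.1 (hc1 i (by omega))
  have mono : ∀ i j, i < j → j ≤ M → cyc s (c i) < cyc s (c j) := fun i j hij hj =>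
    hc2 i j hij (by omega)
  have monole : ∀ i j, i ≤ j → j ≤ M → cyc s (c i) ≤ cyc s (c j) := fun i j hij hj => by
    rcases Nat.lt_or_ge i j with h | h
    · exact (mono i j h hj).le
    · have : i = j := le_antisymm hij h
      rw [this]
  have all : ∀ v ∈ V, G.Adj s v → ∃ i ≤ M, v = c i := fun v hv hvs => by
    obtain ⟨i, hi, h⟩ := hc3 v (mem_filter.2 ⟨hv, hvs⟩)
    exact ⟨i, by omega, h⟩
  have pos : ∀ i ≤ M, 0 < cyc s (c i) := fun i hi => cyc_pos.2 (memA i hi).2.ne.symm
  have first : ∀ v ∈ V, v ≠ s → cyc s (c 0) ≤ cyc s v := by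
    intro v hv hvs
    obtain ⟨i, hi, h⟩ := all u hu (mem_filter.1 huA).2
    have h1 := monole 0 i (by omega) hi
    rw [← h] at h1
    exact h1.trans (humin v hv hvs)
  have last : ∀ v ∈ V, v ≠ s → cyc s v ≤ cyc s (c M) := by
    intro v hv _
    obtain ⟨i, hi, h⟩ := all w hw (mem_filter.1 hwA).2
    have h1 := monole i M hi le_rfl
    rw [← h] at h1
    exact (hwmax v hv).trans h1
  -- no edge passes over a neighbour of `s`
  have nocross : ∀ x ∈ V, ∀ y ∈ V, G.Adj x y → x ≠ s → ∀ i ≤ M, cyc s x < cyc s (c i) →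
      cyc s (c i) < cyc s y → False := by
    intro x hx y hy hxy hxs i hi h1 h2
    have hx0 : 0 < cyc s x := cyc_pos.2 hxs
    refine hT.nc s hs (c i) (memA i hi).1 x hx y hy (memA i hi).2 hxy ?_
    rw [Crs_base s]
    omega
  -- consecutive neighbours are adjacent
  have cons : ∀ i < M, G.Adj (c i) (c (i + 1)) := by
    intro i hi
    have h0 := pos i (by omega)
    have h1 := mono i (i + 1) (by omega) (by omega)
    obtain ⟨x, ⟨hx, hx1, hx2, hx3⟩, _⟩ := apex N V G hT s hs (c (i + 1)) (memA (i + 1) (by omega)).1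
      (memA (i + 1) (by omega)).2 ⟨c i, (memA i (by omega)).1, by
        rw [Ccw_base s]; omega⟩
    obtain ⟨j, hj, rfl⟩ := all x hx hx2
    rw [Ccw_base s] at hx1
    have hj0 := pos j hj
    have hlt : cyc s (c j) < cyc s (c (i + 1)) := by omega
    have hji : j < i + 1 := by
      by_contra hcon
      have := monole (i + 1) j (by omega) hj
      omega
    rcases Nat.lt_or_ge j i with h | h
    · exfalso
      exact nocross (c j) hx (c (i + 1)) (memA (i + 1) (by omega)).1 hx3 hx2.ne.symm i (by omega)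
        (mono j i h (by omega)) h1
    · have : j = i := by omega
      rw [this] at hx3
      exact hx3
  have tri : tris V G s = (range M).image fun i => (c i, c (i + 1)) := by
    ext ⟨x, y⟩
    unfold tris
    simp only [mem_filter, mem_product, mem_image, mem_range, Prod.mk.injEq]
    constructor
    · rintro ⟨⟨hx, hy⟩, h1, h2, h3, h4⟩
      obtain ⟨i, hi, rfl⟩ := all x hx h2
      obtain ⟨j, hj, rfl⟩ := all y hy h3
      rw [Ccw_base s] at h1
      have h5 := pos i hi
      have h6 := pos j hj
      have h7 : cyc s (c i) < cyc s (c j) := by omega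
      have hij : i < j := by
        by_contra hcon
        have := monole j i (by omega) hi
        omega
      refine ⟨i, by omega, rfl, ?_⟩
      rcases Nat.lt_or_ge (i + 1) j with h | h
      · exfalso
        exact nocross (c i) hx (c j) hy h4 h2.ne.symm (i + 1) (by omega) (mono i (i + 1) (by omega)
          (by omega)) (mono (i + 1) j h hj)
      · have : j = i + 1 := by omega
        rw [this]
    · rintro ⟨i, hi, rfl, rfl⟩
      refine ⟨⟨(memA i (by omega)).1, (memA (i + 1) (by omega)).1⟩, ?_, (memA i (by omega)).2,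
        (memA (i + 1) (by omega)).2, cons i hi⟩
      rw [Ccw_base s]
      have h0 := pos i (by omega)
      have h1 := mono i (i + 1) (by omega) (by omega)
      omega
  -- pockets
  have pocket0 : ∀ x ∈ V, ∀ y ∈ V, x ≠ s → y ≠ s → G.Adj x y → cyc s x ≤ cyc s y → ∃ i < M,
      (cyc s (c i) ≤ cyc s x ∧ cyc s x ≤ cyc s (c (i + 1))) ∧
      (cyc s (c i) ≤ cyc s y ∧ cyc s y ≤ cyc s (c (i + 1))) := by
    intro x hx y hy hxs hys hxy hle
    have hne : ((range M).filter fun i => cyc s (c i) ≤ cyc s x).Nonempty :=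
      ⟨0, mem_filter.2 ⟨mem_range.2 (by omega), first x hx hxs⟩⟩
    obtain ⟨i, hi, hmax⟩ := exists_max_image _ (fun i : ℕ => i) hne
    obtain ⟨hi1, hi2⟩ := mem_filter.1 hi
    have hiM := mem_range.1 hi1
    have hx2 : cyc s x ≤ cyc s (c (i + 1)) ∧ (i + 1 < M → cyc s x < cyc s (c (i + 1))) := by
      rcases Nat.lt_or_ge (i + 1) M with h | h
      · have h3 : cyc s x < cyc s (c (i + 1)) := by
          by_contra hcon
          have := hmax (i + 1) (mem_filter.2 ⟨mem_range.2 h, not_lt.1 hcon⟩)
          omega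
        exact ⟨h3.le, fun _ => h3⟩
      · have h3 : i + 1 = M := by omega
        rw [h3]
        exact ⟨last x hx hxs, fun h => absurd h (lt_irrefl _)⟩
    refine ⟨i, hiM, ⟨hi2, hx2.1⟩, hi2.trans hle, ?_⟩
    by_contra hcon
    rw [not_le] at hcon
    rcases Nat.lt_or_ge (i + 1) M with h | h
    · exact nocross x hx y hy hxy hxs (i + 1) (by omega) (hx2.2 h) hcon
    · have h3 : i + 1 = M := by omega
      rw [h3] at hcon
      have := last y hy hys
      omega
  refine ⟨M, c, hM1, ?_⟩
  refine ⟨fun i hi => (memA i hi).1, fun i hi => (memA i hi).2, mono, pos 0 (by omega), all, cons,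
    tri, first, last, ?_⟩
  intro x hx y hy hxs hys hxy
  rcases le_total (cyc s x) (cyc s y) with h | h
  · exact pocket0 x hx y hy hxs hys hxy h
  · obtain ⟨i, hi, h1, h2⟩ := pocket0 y hy x hx hys hxs hxy.symm h
    exact ⟨i, hi, h2, h1⟩

end Pool.Agent.Helper62.GP
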