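import Pool.Agent.Helper62.GP.StZ

/-!
# Gilbert-Pollak, chapter COR, part ZIP: a good vertex of a star polygon
-/

set_option autoImplicit false

namespace Pool.Agent.Helper62.GP

open Pool.Agent.Helper18.GP Pool.Agent.Helper13.GP Relation Classical Finset

/-- swept angle -/
private noncomputable def th_GOOD (p : ℕ → ℂ) (i : ℕ) : ℝ :=
  ∑ t ∈ range i, Complex.arg (p (t + 1) / p t)

private theorem th_succ_GOOD (p : ℕ → ℂ) (i : ℕ) :
    th_GOOD p (i + 1) = th_GOOD p i + Complex.arg (p (i + 1) / p i) := by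
  unfold th_GOOD
  rw [sum_range_succ]

private theorem pol_GOOD (p : ℕ → ℂ) (h0 : ∀ i, p i ≠ 0) (i : ℕ) :
    p i * ‖p 0‖ = ‖p i‖ * Complex.exp (th_GOOD p i * Complex.I) * p 0 := by
  induction i with
  | zero => simp [th_GOOD]; ring
  | succ i ih =>
    have hi : (‖p i‖ : ℂ) ≠ 0 := by exact_mod_cast norm_ne_zero_iff.2 (h0 i)
    have h1 : (‖p (i + 1) / p i‖ : ℂ) *
        Complex.exp (Complex.arg (p (i + 1) / p i) * Complex.I) = p (i + 1) / p i :=
      Complex.norm_mul_exp_arg_mul_I _
    have h2 : p (i + 1) = (‖p (i + 1)‖ / ‖p i‖ : ℂ) *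
        Complex.exp (Complex.arg (p (i + 1) / p i) * Complex.I) * p i := by
      rw [norm_div] at h1
      push_cast at h1
      rw [h1, div_mul_cancel₀ _ (h0 i)]
    rw [th_succ_GOOD]
    push_cast
    rw [add_mul, Complex.exp_add]
    calc p (i + 1) * ‖p 0‖
        = (‖p (i + 1)‖ / ‖p i‖ : ℂ) *
          Complex.exp (Complex.arg (p (i + 1) / p i) * Complex.I) * (p i * ‖p 0‖) := by
          conv_lhs => rw [h2]
          ring
      _ = ‖p (i + 1)‖ * (Complex.exp (th_GOOD p i * Complex.I) *
          Complex.exp (Complex.arg (p (i + 1) / p i) * Complex.I)) * p 0 := by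
          rw [ih]
          field_simp

private theorem crs_im_GOOD (z w : ℂ) : crs z w = ((starRingEnd ℂ z) * w).im := by
  simp [crs]
  ring

private theorem crs_sin_GOOD (p : ℕ → ℂ) (h0 : ∀ i, p i ≠ 0) (i j : ℕ) :
    crs (p i) (p j) = ‖p i‖ * ‖p j‖ * Real.sin (th_GOOD p j - th_GOOD p i) := by
  have hn : ‖p 0‖ ≠ 0 := norm_ne_zero_iff.2 (h0 0)
  have hnc : (‖p 0‖ : ℂ) ≠ 0 := by exact_mod_cast hn
  have h1 : ∀ i, p i = (‖p i‖ : ℂ) * Complex.exp (th_GOOD p i * Complex.I) * (p 0 / ‖p 0‖) := by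
    intro i
    have := pol_GOOD p h0 i
    field_simp
    rw [this]
  have h2 : (starRingEnd ℂ (p 0 / ‖p 0‖)) * (p 0 / ‖p 0‖) = 1 := by
    rw [map_div₀, Complex.conj_ofReal, div_mul_div_comm, ← Complex.normSq_eq_conj_mul_self,
      Complex.normSq_eq_norm_sq]
    push_cast
    field_simp
  have h3 : starRingEnd ℂ (Complex.exp (th_GOOD p i * Complex.I)) =
      Complex.exp (-(th_GOOD p i * Complex.I)) := by
    rw [← Complex.exp_conj, map_mul, Complex.conj_ofReal, Complex.conj_I, mul_neg]
  have h4 : (starRingEnd ℂ (p i)) * p j =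
      ((‖p i‖ * ‖p j‖ : ℝ) : ℂ) * Complex.exp (((th_GOOD p j - th_GOOD p i : ℝ) : ℂ) *
        Complex.I) := by
    conv_lhs => rw [h1 i, h1 j]
    rw [map_mul, map_mul, Complex.conj_ofReal, h3]
    have h5 : Complex.exp (((th_GOOD p j - th_GOOD p i : ℝ) : ℂ) * Complex.I) =
        Complex.exp (-(th_GOOD p i * Complex.I)) * Complex.exp (th_GOOD p j * Complex.I) := by
      rw [← Complex.exp_add]
      congr 1
      push_cast
      ring
    rw [h5]
    push_cast
    calc (‖p i‖ : ℂ) * Complex.exp (-(th_GOOD p i * Complex.I)) *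
          (starRingEnd ℂ (p 0 / ‖p 0‖)) *
          ((‖p j‖ : ℂ) * Complex.exp (th_GOOD p j * Complex.I) * (p 0 / ‖p 0‖))
        = (‖p i‖ : ℂ) * ‖p j‖ * (Complex.exp (-(th_GOOD p i * Complex.I)) *
          Complex.exp (th_GOOD p j * Complex.I)) *
          ((starRingEnd ℂ (p 0 / ‖p 0‖)) * (p 0 / ‖p 0‖)) := by ring
      _ = _ := by rw [h2, mul_one]
  rw [crs_im_GOOD, h4, Complex.im_ofReal_mul, Complex.exp_ofReal_mul_I_im]

private theorem turn_GOOD (x y z : ℂ) :
    crs (y - x) (z - y) = crs x y + crs y z - crs x z := by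
  simp [crs]
  ring

/-- the sweep -/
private theorem sweep_GOOD (p : ℕ → ℂ) (h0 : ∀ i, p i ≠ 0)
    (ha : ∀ i, 0 < Complex.arg (p (i + 1) / p i)) (hb : ∀ i, Complex.arg (p (i + 1) / p i) < Real.pi)
    (s r : ℕ) (ht : ∀ i, i + 2 ≤ r →
      crs (p (s + i + 1) - p (s + i)) (p (s + i + 2) - p (s + i + 1)) ≤ 0) :
    ∀ i, i + 1 ≤ r → th_GOOD p (s + i + 1) - th_GOOD p s < Real.pi ∧
      0 < crs (p s) (p (s + i + 1) - p (s + i)) ∧ 0 < crs (p s) (p (s + i + 1)) := by
  have hpos : ∀ i, 0 < crs (p i) (p (i + 1)) := by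
    intro i
    rw [crs_sin_GOOD p h0, th_succ_GOOD]
    have h1 : 0 < Real.sin (th_GOOD p i + Complex.arg (p (i + 1) / p i) - th_GOOD p i) := by
      rw [add_sub_cancel_left]
      exact Real.sin_pos_of_pos_of_lt_pi (ha i) (hb i)
    have h2 := norm_pos_iff.2 (h0 i)
    have h3 := norm_pos_iff.2 (h0 (i + 1))
    positivity
  intro i
  induction i with
  | zero =>
    intro _
    have h1 := hpos s
    refine ⟨?_, ?_, ?_⟩
    · rw [Nat.add_zero, th_succ_GOOD, add_sub_cancel_left]
      exact hb s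
    · have h7 : crs (p s) (p (s + 0 + 1) - p (s + 0)) = crs (p s) (p (s + 1)) := by
        simp only [Nat.add_zero, crs, Complex.sub_re, Complex.sub_im]; ring
      rw [h7]
      exact h1
    · exact h1
  | succ i ih =>
    intro hi
    obtain ⟨h1, h2, h3⟩ := ih (by omega)
    have h4 := ht i (by omega)
    have h5 := hpos (s + i)
    have h6 := hpos (s + i + 1)
    have e1 : s + (i + 1) + 1 = s + i + 2 := by ring
    have e2 : s + (i + 1) = s + i + 1 := by ring
    have e3 : s + i + 1 + 1 = s + i + 2 := by ring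
    rw [e1, e2]
    rw [e3] at h6
    -- the identity
    have h7 : crs (p (s + i)) (p (s + i + 1)) * crs (p s) (p (s + i + 2) - p (s + i + 1)) =
        -(crs (p (s + i + 1) - p (s + i)) (p (s + i + 2) - p (s + i + 1))) *
          crs (p s) (p (s + i + 1)) +
        crs (p (s + i + 1)) (p (s + i + 2)) * crs (p s) (p (s + i + 1) - p (s + i)) := by
      simp only [crs, Complex.sub_re, Complex.sub_im]
      ring
    have h8 : 0 < crs (p (s + i)) (p (s + i + 1)) *
        crs (p s) (p (s + i + 2) - p (s + i + 1)) := by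
      rw [h7]
      have h9 : 0 ≤ -(crs (p (s + i + 1) - p (s + i)) (p (s + i + 2) - p (s + i + 1))) *
          crs (p s) (p (s + i + 1)) := mul_nonneg (by linarith) h3.le
      have h10 := mul_pos h6 h2
      linarith
    have h9 : 0 < crs (p s) (p (s + i + 2) - p (s + i + 1)) := (pos_iff_pos_of_mul_pos h8).1 h5
    have h10 : 0 < crs (p s) (p (s + i + 2)) := by
      have : crs (p s) (p (s + i + 2)) =
          crs (p s) (p (s + i + 1)) + crs (p s) (p (s + i + 2) - p (s + i + 1)) := by
        simp only [crs, Complex.sub_re, Complex.sub_im]; ring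
      linarith
    refine ⟨?_, h9, h10⟩
    by_contra hcon
    push Not at hcon
    have h11 : th_GOOD p (s + i + 2) - th_GOOD p s < 2 * Real.pi := by
      have := th_succ_GOOD p (s + i + 1)
      rw [e3] at this
      have h12 := hb (s + i + 1)
      rw [e3] at h12
      linarith
    rw [crs_sin_GOOD p h0] at h10
    have h12 : Real.sin (th_GOOD p (s + i + 2) - th_GOOD p s) ≤ 0 := by
      have h13 : 0 ≤ Real.sin (th_GOOD p (s + i + 2) - th_GOOD p s - Real.pi) :=
        Real.sin_nonneg_of_nonneg_of_le_pi (by linarith) (by linarith)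
      rw [Real.sin_sub_pi] at h13
      linarith
    have h13 : ‖p s‖ * ‖p (s + i + 2)‖ * Real.sin (th_GOOD p (s + i + 2) - th_GOOD p s) ≤ 0 :=
      mul_nonpos_of_nonneg_of_nonpos (by positivity) h12
    linarith

theorem t_Good : stGood := by
  intro m p hm hper h0 ha hb hsum
  have hadv : ∀ i, th_GOOD p (i + 1) = th_GOOD p i + Complex.arg (p (i + 1) / p i) :=
    th_succ_GOOD p
  have hperiod : ∀ j, th_GOOD p (j + m) - th_GOOD p j = 2 * Real.pi := by
    intro j
    induction j with
    | zero =>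
      rw [Nat.zero_add]
      have : th_GOOD p 0 = 0 := by simp [th_GOOD]
      rw [this, sub_zero]
      exact hsum
    | succ j ih =>
      have e1 : j + 1 + m = j + m + 1 := by ring
      rw [e1, hadv, hadv]
      have e2 : Complex.arg (p (j + m + 1) / p (j + m)) = Complex.arg (p (j + 1) / p j) := by
        have e3 : j + m + 1 = (j + 1) + m := by ring
        rw [e3, hper, hper]
      rw [e2]
      linarith
  have hmono : StrictMono (th_GOOD p) := by
    apply strictMono_nat_of_lt_succ
    intro i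
    rw [hadv]
    have := ha i
    linarith
  by_contra hno
  push Not at hno
  -- bad windows
  set Bad : ℕ → Prop := fun j =>
    ¬ (Complex.arg (p (j + 1) / p j) + Complex.arg (p (j + 2) / p (j + 1)) < Real.pi ∨
      (m = 4 ∧ Complex.arg (p (j + 1) / p j) + Complex.arg (p (j + 2) / p (j + 1)) ≤ Real.pi))
    with hBad
  have hturn : ∀ j, ¬ Bad j → crs (p (j + 1) - p j) (p (j + 2) - p (j + 1)) ≤ 0 := by
    intro j hj
    by_contra hcon
    push Not at hcon
    have h1 := hno j hcon
    apply hj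
    intro h2
    rcases h2 with h2 | ⟨h2, h3⟩
    · linarith [h1.1]
    · linarith [h1.2 h2]
  have htwo : ∀ j, th_GOOD p (j + 2) - th_GOOD p j =
      Complex.arg (p (j + 1) / p j) + Complex.arg (p (j + 2) / p (j + 1)) := by
    intro j
    have h1 := hadv j
    have h2 := hadv (j + 1)
    have e : j + 1 + 1 = j + 2 := rfl
    rw [e] at h2
    linarith
  have hdis : ∀ j j', Bad j → Bad j' → j + 2 ≤ j' → j' ≤ j + m - 2 → False := by
    intro j j' hj hj' h1 h2
    have hj1 := hj
    have hj2 := hj'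
    simp only [hBad, not_or, not_and, not_lt, not_le] at hj1 hj2
    rw [← htwo] at hj1 hj2
    have h3 := hperiod j
    have h4 : th_GOOD p (j + 2) ≤ th_GOOD p j' := hmono.monotone h1
    have h5 : th_GOOD p (j' + 2) ≤ th_GOOD p (j + m) := hmono.monotone (by omega)
    by_cases hm4 : m = 4
    · have h6 := hj1.2 hm4
      have h7 := hj2.2 hm4
      linarith
    · rcases Nat.lt_or_ge (j + 2) j' with h6 | h6
      · have h7 : th_GOOD p (j + 2) < th_GOOD p j' := hmono h6
        linarith [hj1.1, hj2.1]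
      · have h7 : th_GOOD p (j' + 2) < th_GOOD p (j + m) := hmono (by omega)
        linarith [hj1.1, hj2.1]
  -- the start
  obtain ⟨s, hs⟩ : ∃ s, ∀ i, i + 3 ≤ m → ¬ Bad (s + i) := by
    by_cases hex : ∃ j, Bad j
    · obtain ⟨j, hj⟩ := hex
      by_cases hj1 : Bad (j + 1)
      · refine ⟨j + 2, fun i hi hbad => ?_⟩
        rcases Nat.lt_or_ge (j + 2 + i) (j + m - 1) with h1 | h1
        · exact hdis j (j + 2 + i) hj hbad (by omega) (by omega)
        · exact hdis (j + 1) (j + 2 + i) hj1 hbad (by omega) (by omega)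
      · refine ⟨j + 1, fun i hi hbad => ?_⟩
        rcases Nat.eq_zero_or_pos i with h1 | h1
        · subst h1
          exact hj1 hbad
        · exact hdis j (j + 1 + i) hj hbad (by omega) (by omega)
    · push Not at hex
      exact ⟨0, fun i _ => hex _⟩
  have hsw := sweep_GOOD p h0 ha hb s (m - 1) (fun i hi => hturn (s + i) (hs i (by omega)))
    (m - 2) (by omega)
  have h1 := hsw.1
  have e1 : s + (m - 2) + 1 = s + (m - 1) := by omega
  rw [e1] at h1
  have h2 := hperiod s
  have h3 := hadv (s + (m - 1))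
  have e2 : s + (m - 1) + 1 = s + m := by omega
  rw [e2] at h3
  have h4 := hb (s + (m - 1))
  rw [e2] at h4
  linarith

end Pool.Agent.Helper62.GP
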