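import Pool.Agent.Helper62.GP.StZ

/-!
# GP, COR-Z, module ROT (helper33): rotation of the indices of a star polygon
-/

set_option autoImplicit false

namespace Pool.Agent.Helper62.GP

open Pool.Agent.Helper18.GP Pool.Agent.Helper13.GP Relation Classical Finset

private theorem mod_ROT {m i r : ℕ} (hi : i < m) :
    (i + r) % m = if i + r % m < m then i + r % m else i + r % m - m := by
  have hm : 0 < m := by omega
  have hr : r % m < m := Nat.mod_lt _ hm
  rw [Nat.add_mod, Nat.mod_eq_of_lt hi]
  split_ifs with h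
  · exact Nat.mod_eq_of_lt h
  · rw [Nat.mod_eq_sub_mod (by omega), Nat.mod_eq_of_lt (by omega)]

private theorem nx_lt_ROT {m i : ℕ} (hi : i < m) : nx m i < m := by
  unfold nx; split_ifs <;> omega

private theorem pv_lt_ROT {m i : ℕ} (hi : i < m) : pv m i < m := by
  unfold pv; split_ifs <;> omega

private theorem nx_ROT {m i r : ℕ} (hi : i < m) : (nx m i + r) % m = nx m ((i + r) % m) := by
  have hm : 0 < m := by omega
  have hr : r % m < m := Nat.mod_lt _ hm
  rw [mod_ROT (nx_lt_ROT hi), mod_ROT hi]
  generalize r % m = t at *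
  unfold nx
  split_ifs <;> omega

private theorem pv_ROT {m i r : ℕ} (hi : i < m) : (pv m i + r) % m = pv m ((i + r) % m) := by
  have hm : 0 < m := by omega
  have hr : r % m < m := Nat.mod_lt _ hm
  rw [mod_ROT (pv_lt_ROT hi), mod_ROT hi]
  generalize r % m = t at *
  unfold pv
  split_ifs <;> omega

private theorem surj_ROT {m j : ℕ} (r : ℕ) (hj : j < m) : ∃ i, i < m ∧ (i + r) % m = j := by
  have hm : 0 < m := by omega
  have hr : r % m < m := Nat.mod_lt _ hm
  by_cases h : r % m ≤ j
  · refine ⟨j - r % m, by omega, ?_⟩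
    rw [mod_ROT (by omega)]
    split_ifs <;> omega
  · refine ⟨j + m - r % m, by omega, ?_⟩
    rw [mod_ROT (by omega)]
    split_ifs <;> omega

private theorem inj_ROT {m i j : ℕ} (r : ℕ) (hi : i < m) (hj : j < m)
    (h : (i + r) % m = (j + r) % m) : i = j := by
  have hm : 0 < m := by omega
  have hr : r % m < m := Nat.mod_lt _ hm
  rw [mod_ROT hi, mod_ROT hj] at h
  split_ifs at h <;> omega

private theorem image_ROT {m : ℕ} (r : ℕ) (hm : 3 ≤ m) :
    (range m).image (fun i => (i + r) % m) = range m := by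
  ext j
  rw [mem_image]
  constructor
  · rintro ⟨i, hi, rfl⟩
    exact mem_range.2 (Nat.mod_lt _ (by omega))
  · intro hj
    obtain ⟨i, hi, h⟩ := surj_ROT r (mem_range.1 hj)
    exact ⟨i, mem_range.2 hi, h⟩

private theorem Cs_ROT {N m : ℕ} (r : ℕ) (hm : 3 ≤ m) (c : ℕ → Fin N) :
    Cs m (fun i => c ((i + r) % m)) = Cs m c := by
  unfold Cs
  conv_rhs => rw [← image_ROT r hm]
  rw [image_image]
  rfl

private theorem sum_ROT {m : ℕ} (r : ℕ) (hm : 3 ≤ m) (F : ℕ → ℝ) :
    ∑ i ∈ range m, F ((i + r) % m) = ∑ i ∈ range m, F i := by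
  conv_rhs => rw [← image_ROT r hm]
  rw [sum_image]
  intro i hi j hj h
  exact inj_ROT r (mem_range.1 hi) (mem_range.1 hj) h

private theorem rot_ROT {N : ℕ} {a b c : Fin N} (h : Ccw a b c) : Ccw b c a := by
  have ha := a.isLt; have hb := b.isLt; have hc := c.isLt
  unfold Ccw cyc at *
  split_ifs at * <;> omega

theorem t_StarRot : stStarRot := by
  intro N P z m c r hm
  constructor
  · intro hS
    refine ⟨hS.three, ?_, ?_, ?_, ?_, ?_, ?_⟩
    · intro i j k hij hjk hk
      have hr : r % m < m := Nat.mod_lt _ (by omega)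
      show Ccw (c ((i + r) % m)) (c ((j + r) % m)) (c ((k + r) % m))
      rw [mod_ROT (show i < m by omega), mod_ROT (show j < m by omega), mod_ROT hk]
      generalize r % m = t at *
      by_cases h1 : k + t < m
      · rw [if_pos (by omega), if_pos (by omega), if_pos h1]
        exact hS.ord _ _ _ (by omega) (by omega) h1
      · by_cases h2 : j + t < m
        · rw [if_pos (by omega), if_pos h2, if_neg h1]
          exact rot_ROT (hS.ord (k + t - m) (i + t) (j + t) (by omega) (by omega) h2)
        · by_cases h3 : i + t < m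
          · rw [if_pos h3, if_neg h2, if_neg h1]
            exact rot_ROT (rot_ROT (hS.ord (j + t - m) (k + t - m) (i + t) (by omega) (by omega) h3))
          · rw [if_neg h3, if_neg h2, if_neg h1]
            exact hS.ord _ _ _ (by omega) (by omega) (by omega)
    · intro i hi
      exact hS.ne _ (Nat.mod_lt _ (by omega))
    · intro i hi
      show 0 < an z (P (c ((i + r) % m))) (P (c ((nx m i + r) % m)))
      rw [nx_ROT hi]
      exact hS.pos _ (Nat.mod_lt _ (by omega))
    · intro i hi
      show an z (P (c ((i + r) % m))) (P (c ((nx m i + r) % m))) ≤ Real.pi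
      rw [nx_ROT hi]
      exact hS.le _ (Nat.mod_lt _ (by omega))
    · intro h4 i hi
      show an z (P (c ((i + r) % m))) (P (c ((nx m i + r) % m))) < Real.pi
      rw [nx_ROT hi]
      exact hS.lt h4 _ (Nat.mod_lt _ (by omega))
    · have e : ∀ i ∈ range m, an z (P (c ((i + r) % m))) (P (c ((nx m i + r) % m))) =
          (fun j => an z (P (c j)) (P (c (nx m j)))) ((i + r) % m) := by
        intro i hi
        rw [nx_ROT (mem_range.1 hi)]
      rw [sum_congr rfl e]
      exact (sum_ROT r hm (fun j => an z (P (c j)) (P (c (nx m j))))).trans hS.sum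
  · intro H g hF
    unfold Fill at hF ⊢
    rw [Cs_ROT r hm] at hF
    obtain ⟨f1, f2, f3, f4, f5, f6⟩ := hF
    have hT : ∀ i, i < m → T3 P z m (fun i => c ((i + r) % m)) i = T3 P z m c ((i + r) % m) := by
      intro i hi
      unfold T3
      beta_reduce
      rw [nx_ROT hi]
    refine ⟨f1, f2, ?_, ?_, ?_, ?_⟩
    · intro j hj
      obtain ⟨i, hi, rfl⟩ := surj_ROT r hj
      have := f3 i hi
      beta_reduce at this
      rw [nx_ROT hi, pv_ROT hi] at this
      exact this
    · intro j hj w hw
      obtain ⟨i, hi, rfl⟩ := surj_ROT r hj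
      exact f4 i hi w (by rw [hT i hi]; exact hw)
    · intro j hj w hw w' hw'
      obtain ⟨i, hi, rfl⟩ := surj_ROT r hj
      exact f5 i hi w (by rw [hT i hi]; exact hw) w' (by rw [hT i hi]; exact hw')
    · intro j hj τ hτ
      obtain ⟨i, hi, rfl⟩ := surj_ROT r hj
      have := f6 i hi τ hτ
      beta_reduce at this
      rw [nx_ROT hi] at this
      exact this

end Pool.Agent.Helper62.GP
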