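import Pool.Agent.Helper62.GP.LJ

/-!
# Lemma J for hex chains: geometry
-/

set_option autoImplicit false

namespace Pool.Agent.Helper62.GP

open Pool.Agent.Helper18.GP

/-- the unit vector of angle 60 degrees -/
noncomputable def om : ℂ := ⟨1 / 2, Real.sqrt 3 / 2⟩

lemma sq3 : Real.sqrt 3 * Real.sqrt 3 = 3 := Real.mul_self_sqrt (by norm_num)

lemma om_sq : om ^ 2 = om - 1 := by
  have h := sq3
  apply Complex.ext
  · simp only [sq, om, Complex.mul_re, Complex.sub_re, Complex.one_re]
    nlinarith
  · simp only [sq, om, Complex.mul_im, Complex.sub_im, Complex.one_im]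
    ring

lemma om_cube : om ^ 3 = -1 := by
  calc om ^ 3 = om ^ 2 * om := by ring
    _ = (om - 1) * om := by rw [om_sq]
    _ = om ^ 2 - om := by ring
    _ = -1 := by rw [om_sq]; ring

lemma om_six : om ^ 6 = 1 := by
  calc om ^ 6 = (om ^ 3) ^ 2 := by ring
    _ = 1 := by rw [om_cube]; ring

lemma om_ne : om ≠ 0 := by
  intro h
  have := om_cube
  rw [h] at this
  norm_num at this

lemma om_mul_conj : om * (starRingEnd ℂ) om = 1 := by
  have h := sq3
  apply Complex.ext
  · simp only [om, Complex.mul_re, Complex.conj_re, Complex.conj_im, Complex.one_re]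
    nlinarith
  · simp only [om, Complex.mul_im, Complex.conj_re, Complex.conj_im, Complex.one_im]
    ring

lemma normSq_om : Complex.normSq om = 1 := by
  have h := sq3
  simp only [Complex.normSq_apply, om]
  nlinarith

lemma norm_om : ‖om‖ = 1 := by
  have h := normSq_om
  rw [Complex.normSq_eq_norm_sq] at h
  have := norm_nonneg om
  nlinarith

lemma om_pow_add_three (n : ℕ) : om ^ (n + 3) = - om ^ n := by
  rw [pow_add, om_cube]; ring

/-- the cross product is real bilinear -/
lemma crs_add_left (a b c : ℂ) : crs (a + b) c = crs a c + crs b c := by simp [crs]; ring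
lemma crs_add_right (a b c : ℂ) : crs a (b + c) = crs a b + crs a c := by simp [crs]; ring
lemma crs_smul_left (x : ℝ) (a b : ℂ) : crs (x * a) b = x * crs a b := by simp [crs]; ring
lemma crs_smul_right (x : ℝ) (a b : ℂ) : crs a (x * b) = x * crs a b := by simp [crs]; ring
lemma crs_neg_left (a b : ℂ) : crs (-a) b = - crs a b := by simp [crs]; ring
lemma crs_neg_right (a b : ℂ) : crs a (-b) = - crs a b := by simp [crs]; ring
lemma crs_swap (a b : ℂ) : crs a b = - crs b a := by simp only [crs]; ring
lemma crs_self (a : ℂ) : crs a a = 0 := by simp [crs]; ring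
lemma crs_sub_left (a b c : ℂ) : crs (a - b) c = crs a c - crs b c := by simp [crs]; ring
lemma crs_sub_right (a b c : ℂ) : crs a (b - c) = crs a b - crs a c := by simp [crs]; ring

lemma crs_mul (d a b : ℂ) : crs (d * a) (d * b) = Complex.normSq d * crs a b := by
  simp [crs, Complex.normSq_apply]; ring

/-- unit of the cross products -/
noncomputable def cc (d : ℂ) : ℝ := Complex.normSq d * (Real.sqrt 3 / 2)

lemma cc_pos {d : ℂ} (hd : d ≠ 0) : 0 < cc d := by
  have := Complex.normSq_pos.2 hd
  have h3 : 0 < Real.sqrt 3 := Real.sqrt_pos.2 (by norm_num)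
  unfold cc; positivity

lemma crs_one_om : crs 1 om = Real.sqrt 3 / 2 := by simp [crs, om]

lemma crs_pow (d : ℂ) (n j : ℕ) : crs (d * om ^ n) (d * om ^ (n + j)) =
    Complex.normSq d * crs 1 (om ^ j) := by
  rw [crs_mul, pow_add]
  have : crs (om ^ n) (om ^ n * om ^ j) = crs 1 (om ^ j) := by
    have h := crs_mul (om ^ n) 1 (om ^ j)
    rw [mul_one] at h
    rw [h, map_pow, normSq_om, one_pow, one_mul]
  rw [this]

lemma crs_pow1 (d : ℂ) (n : ℕ) : crs (d * om ^ n) (d * om ^ (n + 1)) = cc d := by
  rw [crs_pow, pow_one, crs_one_om, cc]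

lemma crs_pow2 (d : ℂ) (n : ℕ) : crs (d * om ^ n) (d * om ^ (n + 2)) = cc d := by
  rw [crs_pow, om_sq, crs_sub_right, crs_one_om, cc]; simp [crs]

/-- sextant decomposition -/
lemma sextant (u : ℂ) (hu : u ≠ 0) (n : ℕ) : ∃ j, n ≤ j ∧ j < n + 6 ∧ ∃ α β : ℝ, 0 < α ∧ 0 ≤ β ∧
    u = α * om ^ j + β * om ^ (j + 1) := by
  -- first for n = 0
  have key : ∀ v : ℂ, v ≠ 0 → ∃ j, j < 6 ∧ ∃ α β : ℝ, 0 < α ∧ 0 ≤ β ∧
      v = α * om ^ j + β * om ^ (j + 1) := by
    intro v hv
    obtain ⟨x, y, hxy⟩ : ∃ x y : ℝ, v = x + y * om := by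
      have h3 : Real.sqrt 3 ≠ 0 := (Real.sqrt_pos.2 (by norm_num)).ne'
      refine ⟨v.re - v.im / Real.sqrt 3, v.im * 2 / Real.sqrt 3, ?_⟩
      apply Complex.ext
      · simp [om]; field_simp; ring
      · simp [om]; field_simp
    have e2 : (om ^ 2 : ℂ) = om - 1 := om_sq
    have e3 : (om ^ 3 : ℂ) = -1 := om_cube
    have e4 : (om ^ 4 : ℂ) = -om := by rw [show 4 = 1 + 3 from rfl, om_pow_add_three, pow_one]
    have e5 : (om ^ 5 : ℂ) = 1 - om := by
      rw [show 5 = 2 + 3 from rfl, om_pow_add_three, om_sq]; ring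
    have e6 : (om ^ 6 : ℂ) = 1 := om_six
    have hne : ¬ (x = 0 ∧ y = 0) := by
      rintro ⟨rfl, rfl⟩
      apply hv; rw [hxy]; simp
    rcases lt_trichotomy y 0 with hy | hy | hy
    · rcases lt_or_ge x 0 with hx | hx
      · refine ⟨3, by norm_num, -x, -y, by linarith, by linarith, ?_⟩
        rw [hxy, e3, e4]; push_cast; ring
      · rcases lt_or_ge (x + y) 0 with hs | hs
        · refine ⟨4, by norm_num, -x - y, x, by linarith, hx, ?_⟩
          rw [hxy, e4, e5]; push_cast; ring
        · refine ⟨5, by norm_num, -y, x + y, by linarith, hs, ?_⟩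
          rw [hxy, e5, e6]; push_cast; ring
    · rcases lt_or_ge 0 x with hx | hx
      · refine ⟨0, by norm_num, x, y, hx, hy.ge, ?_⟩
        rw [hxy]; simp
      · have hx' : x < 0 := lt_of_le_of_ne hx fun h => hne ⟨h, hy⟩
        refine ⟨3, by norm_num, -x, -y, by linarith, by linarith, ?_⟩
        rw [hxy, e3, e4]; push_cast; ring
    · rcases lt_or_ge 0 x with hx | hx
      · refine ⟨0, by norm_num, x, y, hx, hy.le, ?_⟩
        rw [hxy]; simp
      · rcases lt_or_ge 0 (x + y) with hs | hs
        · refine ⟨1, by norm_num, x + y, -x, hs, by linarith, ?_⟩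
          rw [hxy, e2]; push_cast; ring
        · refine ⟨2, by norm_num, y, -x - y, hy, by linarith, ?_⟩
          rw [hxy, e2, e3]; push_cast; ring
  obtain ⟨j, hj, α, β, hα, hβ, h⟩ := key (u / om ^ n) (div_ne_zero hu (pow_ne_zero _ om_ne))
  refine ⟨n + j, by omega, by omega, α, β, hα, hβ, ?_⟩
  have h2 : u = u / om ^ n * om ^ n := by field_simp [pow_ne_zero n om_ne]
  rw [h2, h, pow_add, pow_add, pow_succ]
  ring

section chain

variable {k : ℕ} {l : ℕ → ℝ} {w : ℕ → ℂ} {d : ℂ}

lemma crs_front (hw : ∀ i ≤ k, w (i + 1) = w i + l i * (d * om ^ i)) :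
    ∀ s ≤ k, crs (w s - w 0) (d * om ^ s) = cc d * HH l s := by
  intro s
  induction s using Nat.strong_induction_on with
  | _ s ih =>
    intro hs
    rcases s with _ | _ | _ | s
    · simp [HH, crs]
    · rw [hw 0 (by omega), HH]
      have := crs_pow1 d 0
      rw [add_sub_cancel_left, crs_smul_left, zero_add, this]; ring
    · rw [hw 1 (by omega), hw 0 (by omega), HH]
      have e : w 0 + ↑(l 0) * (d * om ^ 0) + ↑(l 1) * (d * om ^ 1) - w 0 =
        ↑(l 0) * (d * om ^ 0) + ↑(l 1) * (d * om ^ 1) := by ring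
      have h1 := crs_pow1 d 1
      have h2 := crs_pow2 d 0
      norm_num at h1 h2 ⊢
      have e' : w 0 + ↑(l 0) * d + ↑(l 1) * (d * om) - w 0 =
        ↑(l 0) * d + ↑(l 1) * (d * om) := by ring
      rw [e', crs_add_left, crs_smul_left, crs_smul_left, h1, h2]; ring
    · have h0 := ih s (by omega) (by omega)
      have e1 := hw s (by omega)
      have e2 := hw (s + 1) (by omega)
      have e3 := hw (s + 2) (by omega)
      have hval : w (s + 3) - w 0 = (w s - w 0) + l s * (d * om ^ s) +
          l (s + 1) * (d * om ^ (s + 1)) + l (s + 2) * (d * om ^ (s + 2)) := by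
        rw [show s + 3 = s + 2 + 1 from rfl, e3, show s + 2 = s + 1 + 1 from rfl, e2, e1]; ring
      rw [show s + 1 + 1 + 1 = s + 3 from rfl, hval, om_pow_add_three, mul_neg, crs_neg_right,
        crs_add_left, crs_add_left, crs_add_left, crs_smul_left, crs_smul_left, crs_smul_left,
        crs_self, crs_swap (d * om ^ (s + 1)), crs_pow1, crs_swap (d * om ^ (s + 2)), crs_pow2, h0,
        HH]
      ring

lemma crs_back (hw : ∀ i ≤ k, w (i + 1) = w i + l i * (d * om ^ i)) :
    ∀ s ≤ k, crs (d * om ^ (k - s)) (w (k + 1) - w (k - s)) =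
      cc d * HH (fun i => l (k - i)) s := by
  intro s
  induction s using Nat.strong_induction_on with
  | _ s ih =>
    intro hs
    rcases s with _ | _ | _ | s
    · rw [Nat.sub_zero, hw k le_rfl, add_sub_cancel_left, crs_smul_right, crs_self, HH]; ring
    · obtain ⟨j, rfl⟩ : ∃ j, k = j + 1 := ⟨k - 1, by omega⟩
      rw [HH]
      have e : j + 1 - (0 + 1) = j := by omega
      rw [e, hw (j + 1) le_rfl, hw j (by omega)]
      have e2 : w j + ↑(l j) * (d * om ^ j) + ↑(l (j + 1)) * (d * om ^ (j + 1)) - w j =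
        ↑(l j) * (d * om ^ j) + ↑(l (j + 1)) * (d * om ^ (j + 1)) := by ring
      rw [e2, crs_add_right, crs_smul_right, crs_smul_right, crs_self, crs_pow1, Nat.sub_zero]
      ring
    · obtain ⟨j, rfl⟩ : ∃ j, k = j + 2 := ⟨k - 2, by omega⟩
      rw [HH]
      have e : j + 2 - (0 + 1 + 1) = j := by omega
      rw [e, hw (j + 2) le_rfl, hw (j + 1) (by omega), hw j (by omega)]
      have e2 : w j + ↑(l j) * (d * om ^ j) + ↑(l (j + 1)) * (d * om ^ (j + 1)) +
          ↑(l (j + 2)) * (d * om ^ (j + 2)) - w j =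
        ↑(l j) * (d * om ^ j) + ↑(l (j + 1)) * (d * om ^ (j + 1)) +
          ↑(l (j + 2)) * (d * om ^ (j + 2)) := by ring
      rw [e2, crs_add_right, crs_add_right, crs_smul_right, crs_smul_right, crs_smul_right,
        crs_self, crs_pow1, crs_pow2, Nat.sub_zero, show j + 2 - 1 = j + 1 from rfl]
      ring
    · obtain ⟨j, rfl⟩ : ∃ j, k = j + (s + 3) := ⟨k - (s + 3), by omega⟩
      have h0 := ih s (by omega) (by omega)
      have e0 : j + (s + 3) - s = j + 3 := by omega
      have e1 : j + (s + 3) - (s + 1 + 1 + 1) = j := by omega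
      rw [e0] at h0
      rw [e1]
      have w1 := hw j (by omega)
      have w2 := hw (j + 1) (by omega)
      have w3 := hw (j + 2) (by omega)
      have hval : w (j + (s + 3) + 1) - w j = (w (j + (s + 3) + 1) - w (j + 3)) +
          (l j * (d * om ^ j) + l (j + 1) * (d * om ^ (j + 1)) +
            l (j + 2) * (d * om ^ (j + 2))) := by
        rw [show j + 3 = j + 2 + 1 from rfl, w3, show j + 2 = j + 1 + 1 from rfl, w2, w1]; ring
      have hneg : crs (d * om ^ j) (w (j + (s + 3) + 1) - w (j + 3)) =
          - crs (d * om ^ (j + 3)) (w (j + (s + 3) + 1) - w (j + 3)) := by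
        rw [om_pow_add_three, mul_neg, crs_neg_left, neg_neg]
      rw [hval, crs_add_right, hneg, h0, crs_add_right, crs_add_right, crs_smul_right,
        crs_smul_right, crs_smul_right, crs_self, crs_pow1, crs_pow2,
        show s + 1 + 1 + 1 = s + 3 from rfl, HH]
      have e3 : j + (s + 3) - (s + 1) = j + 2 := by omega
      have e4 : j + (s + 3) - (s + 2) = j + 1 := by omega
      simp only [e3, e4]
      ring

lemma mem_edge (hl : ∀ i ≤ k, 0 < l i) (hw : ∀ i ≤ k, w (i + 1) = w i + l i * (d * om ^ i))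
    {i : ℕ} (hi : i ≤ k) {x : ℝ} (hx0 : 0 ≤ x) (hx : x ≤ l i) :
    w i + x * (d * om ^ i) ∈ segment ℝ (w i) (w (i + 1)) := by
  rw [segment_eq_image']
  refine ⟨x / l i, ⟨div_nonneg hx0 (hl i hi).le, (div_le_one (hl i hi)).2 hx⟩, ?_⟩
  have h1 : (l i : ℂ) ≠ 0 := by exact_mod_cast (hl i hi).ne'
  simp only [hw i hi, add_sub_cancel_left, Complex.real_smul]
  push_cast
  field_simp

lemma HC_of_disjoint (hl : ∀ i ≤ k, 0 < l i)
    (hw : ∀ i ≤ k, w (i + 1) = w i + l i * (d * om ^ i))
    (hnc : ∀ i j, i + 2 ≤ j → j ≤ k →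
      Disjoint (segment ℝ (w i) (w (i + 1))) (segment ℝ (w j) (w (j + 1)))) : HC l k := by
  have e2 : (om ^ 2 : ℂ) = om - 1 := om_sq
  have e3 : (om ^ 3 : ℂ) = -1 := om_cube
  have e4 : (om ^ 4 : ℂ) = -om := by rw [show 4 = 1 + 3 from rfl, om_pow_add_three, pow_one]
  have e5 : (om ^ 5 : ℂ) = 1 - om := by
    rw [show 5 = 2 + 3 from rfl, om_pow_add_three, om_sq]; ring
  refine ⟨hl, fun i hi => ?_, fun i hi => ?_⟩
  · by_contra hcon
    rw [not_or, not_lt, not_lt] at hcon
    obtain ⟨h1, h2⟩ := hcon
    have p2 := hl (i + 2) (by omega)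
    have p3 := hl (i + 3) (by omega)
    have p1 := hl (i + 1) (by omega)
    have m1 := mem_edge hl hw (i := i) (by omega) (x := l i - l (i + 2) - l (i + 3)) (by linarith)
      (by linarith)
    have m2 := mem_edge hl hw (i := i + 4) (by omega) (x := l (i + 1) + l (i + 2)) (by linarith) h2
    have heq : w i + ((l i - l (i + 2) - l (i + 3) : ℝ) : ℂ) * (d * om ^ i) =
        w (i + 4) + ((l (i + 1) + l (i + 2) : ℝ) : ℂ) * (d * om ^ (i + 4)) := by
      rw [show i + 4 = i + 3 + 1 from rfl, hw (i + 3) (by omega), show i + 3 = i + 2 + 1 from rfl,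
        hw (i + 2) (by omega), show i + 2 = i + 1 + 1 from rfl, hw (i + 1) (by omega),
        hw i (by omega)]
      simp only [show i + 1 + 1 = i + 2 from rfl, show i + 2 + 1 = i + 3 from rfl,
        show i + 3 + 1 = i + 4 from rfl, pow_add, pow_one, e2, e3, e4]
      push_cast
      ring
    rw [heq] at m1
    exact (hnc i (i + 4) (by omega) hi).le_bot ⟨m1, m2⟩
  · rintro ⟨h1, h2, h3, h4⟩
    have p0 := hl i (by omega)
    have p1 := hl (i + 1) (by omega)
    have p2 := hl (i + 2) (by omega)
    have m1 := mem_edge hl hw (i := i) (by omega)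
      (x := l i + l (i + 1) - l (i + 3) - l (i + 4)) (by linarith) (by linarith)
    have m2 := mem_edge hl hw (i := i + 5) (by omega) (x := l (i + 1) + l (i + 2) - l (i + 4))
      (by linarith) (by linarith)
    have heq : w i + ((l i + l (i + 1) - l (i + 3) - l (i + 4) : ℝ) : ℂ) * (d * om ^ i) =
        w (i + 5) + ((l (i + 1) + l (i + 2) - l (i + 4) : ℝ) : ℂ) * (d * om ^ (i + 5)) := by
      rw [show i + 5 = i + 4 + 1 from rfl, hw (i + 4) (by omega),
        show i + 4 = i + 3 + 1 from rfl, hw (i + 3) (by omega), show i + 3 = i + 2 + 1 from rfl,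
        hw (i + 2) (by omega), show i + 2 = i + 1 + 1 from rfl, hw (i + 1) (by omega),
        hw i (by omega)]
      simp only [show i + 1 + 1 = i + 2 from rfl, show i + 2 + 1 = i + 3 from rfl,
        show i + 3 + 1 = i + 4 from rfl, show i + 4 + 1 = i + 5 from rfl, pow_add, pow_one, e2,
        e3, e4, e5]
      push_cast
      ring
    rw [heq] at m1
    exact (hnc i (i + 5) (by omega) hi).le_bot ⟨m1, m2⟩

/-- **Lemma J for hex chains.** -/
theorem LJ (hk : 1 ≤ k) (hd : d ≠ 0) (hl : ∀ i ≤ k, 0 < l i)
    (hw : ∀ i ≤ k, w (i + 1) = w i + l i * (d * om ^ i))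
    (hnc : ∀ i j, i + 2 ≤ j → j ≤ k →
      Disjoint (segment ℝ (w i) (w (i + 1))) (segment ℝ (w j) (w (j + 1)))) :
    ∃ t, 1 ≤ t ∧ t ≤ k ∧ (∀ s, 1 ≤ s → s ≤ t → 0 < crs (w s - w 0) (d * om ^ s)) ∧
      (∀ s, t ≤ s + 1 → s + 1 ≤ k → 0 < crs (d * om ^ s) (w (k + 1) - w s)) ∧
      0 < crs (w t - w 0) (w (k + 1) - w 0) := by
  have hHC := HC_of_disjoint hl hw hnc
  have hc := cc_pos hd
  have hF := crs_front hw
  have hB : ∀ s ≤ k, crs (d * om ^ s) (w (k + 1) - w s) =
      cc d * HH (fun i => l (k - i)) (k - s) := by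
    intro s hs
    have := crs_back hw (k - s) (Nat.sub_le _ _)
    rwa [show k - (k - s) = s by omega] at this
  rcases hHC.main with h | h | ⟨i, hi, hik, h1, h2⟩
  · -- fan at the first end
    refine ⟨k, hk, le_rfl, fun s hs1 hs => ?_, fun s hs1 hs => ?_, ?_⟩
    · rw [hF s hs]; exact mul_pos hc (h s hs1 hs)
    · have hsk : s = k - 1 := by omega
      rw [hB s (by omega)]
      apply mul_pos hc
      have : k - s = 1 := by omega
      rw [this, HH]
      exact hl _ (by omega)
    · have e : w (k + 1) - w 0 = (w k - w 0) + l k * (d * om ^ k) := by rw [hw k le_rfl]; ring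
      rw [e, crs_add_right, crs_self, crs_smul_right, hF k le_rfl, zero_add]
      exact mul_pos (hl k le_rfl) (mul_pos hc (h k hk le_rfl))
  · refine ⟨1, le_rfl, hk, fun s hs1 hs => ?_, fun s hs1 hs => ?_, ?_⟩
    · have : s = 1 := by omega
      subst this
      rw [hF 1 (by omega)]
      apply mul_pos hc
      rw [HH]
      exact hl _ (by omega)
    · rw [hB s (by omega)]
      exact mul_pos hc (h _ (by omega) (by omega))
    · have e : w 1 - w 0 = l 0 * (d * om ^ 0) := by
        have := hw 0 (by omega)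
        rw [zero_add] at this
        rw [this]; ring
      rw [e, crs_smul_left, hB 0 (by omega)]
      exact mul_pos (hl 0 (by omega)) (mul_pos hc (h _ (by omega) (by omega)))
  · -- mixed case
    set v := w (k + 1) - w 0 with hv
    have hk2 : 6 ≤ k := by omega
    have hv0 : v ≠ 0 := by
      intro h0
      have hw0 : w (k + 1) = w 0 := by rwa [hv, sub_eq_zero] at h0
      apply (hnc 0 k (by omega) le_rfl).le_bot
      refine ⟨left_mem_segment ℝ _ _, ?_⟩
      rw [← hw0]
      exact right_mem_segment ℝ _ _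
    have hfin : ∀ j α β, 1 ≤ j → j ≤ i + 5 → i ≤ j → (0 : ℝ) < α → (0 : ℝ) ≤ β →
        v = α * (d * om ^ j) + β * (d * om ^ (j + 1)) →
        ∃ t, 1 ≤ t ∧ t ≤ k ∧ (∀ s, 1 ≤ s → s ≤ t → 0 < crs (w s - w 0) (d * om ^ s)) ∧
          (∀ s, t ≤ s + 1 → s + 1 ≤ k → 0 < crs (d * om ^ s) (w (k + 1) - w s)) ∧
          0 < crs (w t - w 0) (w (k + 1) - w 0) := by
      intro j α β hj1 hj5 hij hα hβ hvj
      have hjH := mul_pos hc (h1 j hj1 hj5)
      rw [← hF j (by omega)] at hjH
      have hback : ∀ s, crs (d * om ^ s) (w (k + 1) - w s) =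
          crs (d * om ^ s) v + crs (w s - w 0) (d * om ^ s) := by
        intro s
        rw [hv, crs_swap (w s - w 0)]
        simp only [crs_sub_right]
        ring
      have hj1' : 0 < crs (w (j + 1) - w 0) (d * om ^ (j + 1)) := by
        have h3 := hback (j + 1)
        have h4 : 0 ≤ crs (d * om ^ (j + 1)) (w (k + 1) - w (j + 1)) := by
          rw [hB (j + 1) (by omega)]
          apply mul_nonneg hc.le
          rcases Nat.eq_zero_or_pos (k - (j + 1)) with h0 | h0
          · rw [h0, HH]
          · exact (h2 _ h0 (by omega)).le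
        have h5 : crs (d * om ^ (j + 1)) v = - α * cc d := by
          rw [hvj, crs_add_right, crs_smul_right, crs_smul_right, crs_self,
            crs_swap (d * om ^ (j + 1)), crs_pow1]
          ring
        have h6 := mul_pos hα hc
        linarith
      have hj' : 0 < crs (d * om ^ j) (w (k + 1) - w j) := by
        rw [hback j]
        have h5 : crs (d * om ^ j) v = β * cc d := by
          rw [hvj, crs_add_right, crs_smul_right, crs_smul_right, crs_self, crs_pow1]
          ring
        have h6 := mul_nonneg hβ hc.le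
        linarith
      refine ⟨j + 1, by omega, by omega, fun s hs1 hs => ?_, fun s hs1 hs => ?_, ?_⟩
      · rcases Nat.lt_or_ge s (j + 1) with hsj | hsj
        · rw [hF s (by omega)]
          exact mul_pos hc (h1 s hs1 (by omega))
        · have : s = j + 1 := by omega
          rw [this]; exact hj1'
      · rcases Nat.lt_or_ge j s with hsj | hsj
        · rw [hB s (by omega)]
          exact mul_pos hc (h2 _ (by omega) (by omega))
        · have : s = j := by omega
          rw [this]; exact hj'
      · rw [← hv, hvj, crs_add_right, crs_smul_right, crs_smul_right]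
        have e : w (j + 1) - w 0 = (w j - w 0) + l j * (d * om ^ j) := by
          rw [hw j (by omega)]; ring
        have h7 : crs (w (j + 1) - w 0) (d * om ^ j) = crs (w j - w 0) (d * om ^ j) := by
          rw [e, crs_add_left, crs_smul_left, crs_self]; ring
        rw [h7]
        have := mul_pos hα hjH
        have := mul_nonneg hβ hj1'.le
        linarith
    rcases hi with hi | ⟨hk6, hH6⟩
    · obtain ⟨j, hj1, hj2, α, β, hα, hβ, hu⟩ := sextant (v / d) (div_ne_zero hv0 hd) i
      refine hfin j α β (by omega) (by omega) hj1 hα hβ ?_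
      have : v = d * (v / d) := by field_simp
      rw [this, hu]; ring
    · subst hk6
      obtain ⟨j, hj1, hj2, α, β, hα, hβ, hu⟩ := sextant (v / d) (div_ne_zero hv0 hd) i
      rcases Nat.eq_zero_or_pos i with h0 | h0
      swap
      · omega
      subst h0
      rcases Nat.eq_zero_or_pos j with hj0 | hj0
      swap
      · refine hfin j α β hj0 (by omega) (by omega) hα hβ ?_
        have : v = d * (v / d) := by field_simp
        rw [this, hu]; ring
      -- the collinear case
      exfalso
      subst hj0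
      have hvd : v = α * d + β * (d * om) := by
        have : v = d * (v / d) := by field_simp
        rw [this, hu]; ring
      have hw7 : w 7 = w 6 + l 6 * d := by
        have := hw 6 le_rfl
        rw [om_six] at this
        simpa using this
      have hH6' : crs (w 6 - w 0) d = 0 := by
        have := hF 6 le_rfl
        rw [om_six, mul_one, hH6, mul_zero] at this
        exact this
      have hβ0 : β = 0 := by
        have h3 : crs v d = 0 := by
          rw [hv, hw7]
          have : w 6 + ↑(l 6) * d - w 0 = (w 6 - w 0) + l 6 * d := by ring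
          rw [this, crs_add_left, hH6', crs_smul_left, crs_self]; ring
        have h4 : crs v d = - β * cc d := by
          rw [hvd, crs_add_left, crs_smul_left, crs_smul_left, crs_self, crs_swap (d * om)]
          have := crs_pow1 d 0
          norm_num at this
          rw [this]; ring
        have h5 : β * cc d = 0 := by linarith
        rcases mul_eq_zero.1 h5 with h6 | h6
        · exact h6
        · exact absurd h6 hc.ne'
      have hv7 : w 7 - w 0 = α * d := by
        have : v = α * d := by rw [hvd, hβ0]; simp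
        rw [← this, hv]
      have h6v : w 6 - w 0 = ((α - l 6 : ℝ) : ℂ) * d := by
        have : w 6 - w 0 = (w 7 - w 0) - l 6 * d := by rw [hw7]; ring
        rw [this, hv7]; push_cast; ring
      have h5pos : 0 < crs (w 5 - w 0) (d * om ^ 5) := by
        rw [hF 5 (by omega)]
        exact mul_pos hc (h1 5 (by omega) (by omega))
      have h65 : crs (w 6 - w 0) (d * om ^ 5) = crs (w 5 - w 0) (d * om ^ 5) := by
        have : w 6 - w 0 = (w 5 - w 0) + l 5 * (d * om ^ 5) := by
          have := hw 5 (by omega)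
          rw [this]; ring
        rw [this, crs_add_left, crs_smul_left, crs_self]; ring
      have hx : (α - l 6) * (- cc d) = crs (w 6 - w 0) (d * om ^ 5) := by
        rw [h6v, crs_smul_left]
        congr 1
        have := crs_pow1 d 5
        rw [om_six, mul_one] at this
        rw [crs_swap, this]
      have hneg : α - l 6 < 0 := by
        rw [← h65, ← hx] at h5pos
        by_contra hcon
        rw [not_lt] at hcon
        nlinarith
      -- w 0 lies on the last edge
      have hmem : w 0 ∈ segment ℝ (w 6) (w 7) := by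
        have h6e : w 0 = w 6 + ((l 6 - α : ℝ) : ℂ) * (d * om ^ 6) := by
          have : w 0 = w 6 - (w 6 - w 0) := by ring
          rw [this, h6v, om_six]; push_cast; ring
        rw [h6e]
        exact mem_edge hl hw le_rfl (by linarith) (by linarith)
      exact (hnc 0 6 (by omega) le_rfl).le_bot ⟨left_mem_segment ℝ _ _, hmem⟩

end chain

end Pool.Agent.Helper62.GP
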