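import Pool.Agent.Helper62.GP.StZ
import Pool.Agent.Helper62.GP.LJ2

/-!
# Gilbert-Pollak, chapter COR, part ZIP: base case of the star lemma (`stStar3`)
-/

set_option autoImplicit false

namespace Pool.Agent.Helper62.GP

open Pool.Agent.Helper18.GP Pool.Agent.Helper13.GP Relation Classical Finset

variable {N : ℕ}

private lemma sum_STAR3 (A B D w : ℂ) :
    crs (B - w) (D - w) + crs (D - w) (A - w) + crs (A - w) (B - w) = crs (B - A) (D - A) := by
  simp only [crs, Complex.sub_re, Complex.sub_im]; ring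

private lemma conv_STAR3 (B D x y : ℂ) (a b : ℝ) (hab : a + b = 1) :
    crs (B - (a • x + b • y)) (D - (a • x + b • y)) =
      a * crs (B - x) (D - x) + b * crs (B - y) (D - y) := by
  obtain rfl : b = 1 - a := by linarith
  simp only [crs, Complex.sub_re, Complex.sub_im, Complex.add_re, Complex.add_im,
    Complex.real_smul, Complex.mul_re, Complex.mul_im, Complex.ofReal_re, Complex.ofReal_im]
  ring

/-- the closed triangle as a set of points with nonnegative areas -/
private def K_STAR3 (A B D : ℂ) : Set ℂ :=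
  {w | 0 ≤ crs (B - w) (D - w) ∧ 0 ≤ crs (D - w) (A - w) ∧ 0 ≤ crs (A - w) (B - w)}

private lemma K_convex_STAR3 (A B D : ℂ) : Convex ℝ (K_STAR3 A B D) := by
  intro x hx y hy a b ha hb hab
  simp only [K_STAR3, Set.mem_setOf_eq] at hx hy ⊢
  rw [conv_STAR3 _ _ _ _ _ _ hab, conv_STAR3 _ _ _ _ _ _ hab, conv_STAR3 _ _ _ _ _ _ hab]
  refine ⟨?_, ?_, ?_⟩
  · have := mul_nonneg ha hx.1; have := mul_nonneg hb hy.1; linarith
  · have := mul_nonneg ha hx.2.1; have := mul_nonneg hb hy.2.1; linarith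
  · have := mul_nonneg ha hx.2.2; have := mul_nonneg hb hy.2.2; linarith

private lemma K_hull_STAR3 {A B D u v w x : ℂ} (hu : u ∈ K_STAR3 A B D) (hv : v ∈ K_STAR3 A B D)
    (hw : w ∈ K_STAR3 A B D) (hx : x ∈ convexHull ℝ {u, v, w}) : x ∈ K_STAR3 A B D := by
  refine convexHull_min ?_ (K_convex_STAR3 A B D) hx
  intro t ht
  rcases ht with rfl | rfl | rfl
  · exact hu
  · exact hv
  · exact hw

private lemma crs_zero_left_STAR3 (a : ℂ) : crs 0 a = 0 := by simp [crs]

private lemma crs_zero_right_STAR3 (a : ℂ) : crs a 0 = 0 := by simp [crs]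

/-- if `z` lies strictly between `A` and `B` then the angle at `A` vanishes -/
private lemma an_pi_STAR3 {z A B : ℂ} (hA : A ≠ z) (h : an z A B = Real.pi) : an A B z = 0 := by
  have h1 := Complex.arg_eq_pi_iff.1 h
  set t := (B - z) / (A - z) with ht
  have hAz : A - z ≠ 0 := sub_ne_zero.2 hA
  have h2 : B - z = t * (A - z) := by rw [ht]; field_simp
  have h3 : t = (t.re : ℂ) := by
    apply Complex.ext
    · simp
    · simp [h1.2]
  have h4 : B - A = ((t.re - 1 : ℝ) : ℂ) * (A - z) := by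
    have : B - A = (B - z) - (A - z) := by ring
    rw [this, h2]
    nth_rewrite 1 [h3]
    push_cast; ring
  have h5 : (t.re - 1 : ℝ) < 0 := by linarith [h1.1]
  have h6 : (z - A) / (B - A) = (((1 - t.re)⁻¹ : ℝ) : ℂ) := by
    rw [h4]
    have h7 : ((t.re - 1 : ℝ) : ℂ) ≠ 0 := by
      exact_mod_cast h5.ne
    have h8 : ((1 - t.re : ℝ) : ℂ) ≠ 0 := by
      have : (1 - t.re : ℝ) ≠ 0 := by linarith
      exact_mod_cast this
    push_cast at h7 h8 ⊢
    field_simp
    ring
  unfold an
  rw [h6]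
  apply Complex.arg_ofReal_of_nonneg
  have : 0 < 1 - t.re := by linarith
  positivity

/-- the same, the other order -/
private lemma an_pi'_STAR3 {z A D : ℂ} (hA : A ≠ z) (h : an z D A = Real.pi) : an A z D = 0 := by
  have h1 := Complex.arg_eq_pi_iff.1 h
  set t := (A - z) / (D - z) with ht
  have hAz : A - z ≠ 0 := sub_ne_zero.2 hA
  have hDz : D - z ≠ 0 := by
    intro h0
    rw [ht, h0, div_zero] at h1
    simp at h1
  have h2 : A - z = t * (D - z) := by rw [ht]; field_simp
  have h3 : t = (t.re : ℂ) := by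
    apply Complex.ext
    · simp
    · simp [h1.2]
  have h5 : t.re < 0 := h1.1
  have h7 : ((t.re : ℝ) : ℂ) ≠ 0 := by exact_mod_cast h5.ne
  have h6 : (D - A) / (z - A) = ((1 - (t.re)⁻¹ : ℝ) : ℂ) := by
    have e1 : D - A = (D - z) - (A - z) := by ring
    have e2 : z - A = - (A - z) := by ring
    rw [e1, e2, h2]
    nth_rewrite 1 [h3]
    nth_rewrite 2 [h3]
    push_cast
    field_simp
    ring
  unfold an
  rw [h6]
  apply Complex.arg_ofReal_of_nonneg
  have : (t.re)⁻¹ < 0 := inv_lt_zero.2 h5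
  linarith

/-- the angle of the triangle at `A` is the sum of the two parts -/
private lemma ang_STAR3 (h1 : stAnAdd2) (h2 : stAnSign) {z A B D : ℂ} (hA : A ≠ z)
    (hr : 0 ≤ crs (A - z) (B - z)) (hq : 0 ≤ crs (D - z) (A - z))
    (hS : 0 < crs (B - A) (D - A))
    (hr0 : crs (A - z) (B - z) = 0 → an z A B = Real.pi)
    (hq0 : crs (D - z) (A - z) = 0 → an z D A = Real.pi) :
    an A B D = an A B z + an A z D := by
  have hBA : B ≠ A := by
    rintro rfl; rw [sub_self, crs_zero_left_STAR3] at hS; exact lt_irrefl _ hS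
  have hDA : D ≠ A := by
    rintro rfl; rw [sub_self, crs_zero_right_STAR3] at hS; exact lt_irrefl _ hS
  have e1 : crs (B - A) (z - A) = crs (A - z) (B - z) := by
    simp only [crs, Complex.sub_re, Complex.sub_im]; ring
  have e2 : crs (z - A) (D - A) = crs (D - z) (A - z) := by
    simp only [crs, Complex.sub_re, Complex.sub_im]; ring
  refine h1 A B z D hBA hA.symm hDA ?_ ?_ ?_ ?_ ?_
  · rw [(h2 A B z hBA hA.symm).1, e1]; exact hr
  · rcases hr.eq_or_lt with h | h
    · rw [an_pi_STAR3 hA (hr0 h.symm)]; exact Real.pi_pos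
    · rw [← e1] at h
      exact ((h2 A B z hBA hA.symm).2.2 h).2
  · rw [(h2 A z D hA.symm hDA).1, e2]; exact hq
  · rcases hq.eq_or_lt with h | h
    · rw [an_pi'_STAR3 hA (hq0 h.symm)]; exact Real.pi_pos
    · rw [← e2] at h
      exact ((h2 A z D hA.symm hDA).2.2 h).2
  · exact ((h2 A B D hBA hDA).2.2 hS).1.le

private lemma tris_STAR3 {V : Finset (Fin N)} {a b d : Fin N}
    (hV : ∀ v, v ∈ V ↔ v = a ∨ v = b ∨ v = d) (h : Ccw a b d) :
    tris V ⊤ a = {(b, d)} := by
  ext ⟨x, y⟩
  simp only [tris, Finset.mem_filter, Finset.mem_product, SimpleGraph.top_adj,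
    Finset.mem_singleton, Prod.mk.injEq, hV]
  constructor
  · rintro ⟨⟨hx, hy⟩, hc, h1, h2, h3⟩
    rcases hx with rfl | rfl | rfl
    · exact absurd rfl h1
    · rcases hy with rfl | rfl | rfl
      · exact absurd rfl h2
      · exact absurd rfl h3
      · exact ⟨rfl, rfl⟩
    · rcases hy with rfl | rfl | rfl
      · exact absurd rfl h2
      · exact absurd hc (Ccw_asymm h)
      · exact absurd rfl h3
  · rintro ⟨rfl, rfl⟩
    exact ⟨⟨Or.inr (Or.inl rfl), Or.inr (Or.inr rfl)⟩, h, Ccw_ne12 h, Ccw_ne13 h, Ccw_ne23 h⟩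

private lemma tri_STAR3 {V : Finset (Fin N)} {a b d : Fin N}
    (hV : ∀ v, v ∈ V ↔ v = a ∨ v = b ∨ v = d) : IsTri V (⊤ : SimpleGraph (Fin N)) := by
  refine ⟨?_, ?_⟩
  · intro x hx y hy u hu v hv _ _ hc
    obtain ⟨h1, h2, h3, h4, h5, h6⟩ := Crs_ne hc
    have hcard : ({x, y, u, v} : Finset (Fin N)).card = 4 := by
      rw [Finset.card_insert_of_notMem, Finset.card_insert_of_notMem,
        Finset.card_insert_of_notMem, Finset.card_singleton]
      · simpa using h6
      · simp only [Finset.mem_insert, Finset.mem_singleton, not_or]; exact ⟨h4, h5⟩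
      · simp only [Finset.mem_insert, Finset.mem_singleton, not_or]; exact ⟨h1, h2, h3⟩
    have hsub : ({x, y, u, v} : Finset (Fin N)) ⊆ {a, b, d} := by
      intro t ht
      simp only [Finset.mem_insert, Finset.mem_singleton] at ht ⊢
      rcases ht with rfl | rfl | rfl | rfl
      · exact (hV _).1 hx
      · exact (hV _).1 hy
      · exact (hV _).1 hu
      · exact (hV _).1 hv
    have h7 := Finset.card_le_card hsub
    have h8 : ({a, b, d} : Finset (Fin N)).card ≤ 3 := Finset.card_le_three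
    omega
  · intro x _ y _ hxy hn
    exact absurd (by simpa using hxy) hn

private lemma st_STAR3 {V : Finset (Fin N)} {a b d : Fin N} {P : Fin N → ℂ}
    (hV : ∀ v, v ∈ V ↔ v = a ∨ v = b ∨ v = d) (h : Ccw a b d)
    (hS : 0 < crs (P b - P a) (P d - P a)) : St V (⊤ : SimpleGraph (Fin N)) P := by
  intro x hx y hy u hu hc _ _ _
  have e1 : crs (P d - P b) (P a - P b) = crs (P b - P a) (P d - P a) := by
    simp only [crs, Complex.sub_re, Complex.sub_im]; ring
  have e2 : crs (P a - P d) (P b - P d) = crs (P b - P a) (P d - P a) := by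
    simp only [crs, Complex.sub_re, Complex.sub_im]; ring
  have n12 := Ccw_ne12 hc
  have n23 := Ccw_ne23 hc
  have n13 := Ccw_ne13 hc
  rw [hV] at hx hy hu
  rcases hx with rfl | rfl | rfl <;> rcases hy with rfl | rfl | rfl <;>
    rcases hu with rfl | rfl | rfl <;>
    first
    | exact absurd rfl n12
    | exact absurd rfl n23
    | exact absurd rfl n13
    | exact hS
    | (rw [e1]; exact hS)
    | (rw [e2]; exact hS)
    | exact absurd hc (Ccw_asymm h)
    | exact absurd hc (Ccw_asymm (Ccw_rot h))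
    | exact absurd hc (Ccw_asymm (Ccw_rot' h))

/-- barycentric coordinates -/
private noncomputable def g_STAR3 (P : Fin N → ℂ) (a b d : Fin N) (w : ℂ) : Fin N → ℝ := fun v =>
  crs (P b - w) (P d - w) / crs (P b - P a) (P d - P a) * dl a v +
    crs (P d - w) (P a - w) / crs (P b - P a) (P d - P a) * dl b v +
    crs (P a - w) (P b - w) / crs (P b - P a) (P d - P a) * dl d v

private lemma dl_nonneg_STAR3 (a v : Fin N) : 0 ≤ dl a v := by
  unfold dl
  by_cases h : v = a
  · subst h; simp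
  · simp [h]

private lemma dl_sum_STAR3 (a : Fin N) : ∑ v, dl a v = 1 := by
  unfold dl
  simp

private lemma dl_zero_STAR3 {a v : Fin N} (h : v ≠ a) : dl a v = 0 := by
  unfold dl
  simp [h]

private lemma g_mem_STAR3 {V : Finset (Fin N)} {a b d : Fin N} {P : Fin N → ℂ}
    (hV : ∀ v, v ∈ V ↔ v = a ∨ v = b ∨ v = d)
    (hS : 0 < crs (P b - P a) (P d - P a)) {w : ℂ} (hw : w ∈ K_STAR3 (P a) (P b) (P d)) :
    g_STAR3 P a b d w ∈ Pts V (⊤ : SimpleGraph (Fin N)) := by
  obtain ⟨h1, h2, h3⟩ := hw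
  refine ⟨?_, ?_, ?_, ?_⟩
  · intro v
    unfold g_STAR3
    have := dl_nonneg_STAR3 a v
    have := dl_nonneg_STAR3 b v
    have := dl_nonneg_STAR3 d v
    positivity
  · unfold g_STAR3
    rw [Finset.sum_add_distrib, Finset.sum_add_distrib, ← Finset.mul_sum, ← Finset.mul_sum,
      ← Finset.mul_sum, dl_sum_STAR3, dl_sum_STAR3, dl_sum_STAR3]
    rw [mul_one, mul_one, mul_one, ← add_div, ← add_div, sum_STAR3]
    exact div_self hS.ne'
  · intro v hv
    by_contra hn
    rw [hV] at hn
    push Not at hn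
    apply hv
    unfold g_STAR3
    rw [dl_zero_STAR3 hn.1, dl_zero_STAR3 hn.2.1, dl_zero_STAR3 hn.2.2]
    ring
  · intro x y _ _ hxy
    simpa using hxy

private lemma g_dev_STAR3 {a b d : Fin N} {P : Fin N → ℂ}
    (hS : 0 < crs (P b - P a) (P d - P a)) (w : ℂ) :
    dev P (g_STAR3 P a b d w) = w := by
  have e : dev P (g_STAR3 P a b d w) =
      ((crs (P b - w) (P d - w) / crs (P b - P a) (P d - P a) : ℝ) : ℂ) * dev P (dl a) +
      ((crs (P d - w) (P a - w) / crs (P b - P a) (P d - P a) : ℝ) : ℂ) * dev P (dl b) +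
      ((crs (P a - w) (P b - w) / crs (P b - P a) (P d - P a) : ℝ) : ℂ) * dev P (dl d) := by
    unfold dev g_STAR3
    rw [Finset.mul_sum, Finset.mul_sum, Finset.mul_sum, ← Finset.sum_add_distrib,
      ← Finset.sum_add_distrib]
    refine Finset.sum_congr rfl fun v _ => ?_
    push_cast
    ring
  rw [e, dev_dl, dev_dl, dev_dl]
  set S := crs (P b - P a) (P d - P a) with hSd
  have hS0 : (S : ℂ) ≠ 0 := by exact_mod_cast hS.ne'
  have key : ((crs (P b - w) (P d - w) : ℝ) : ℂ) * P a + ((crs (P d - w) (P a - w) : ℝ) : ℂ) * P b +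
      ((crs (P a - w) (P b - w) : ℝ) : ℂ) * P d = (S : ℂ) * w := by
    rw [hSd]
    apply Complex.ext
    · simp only [crs, Complex.add_re, Complex.mul_re, Complex.ofReal_re, Complex.ofReal_im,
        Complex.sub_re, Complex.sub_im]
      ring
    · simp only [crs, Complex.add_im, Complex.mul_im, Complex.ofReal_re, Complex.ofReal_im,
        Complex.sub_re, Complex.sub_im]
      ring
  push_cast
  field_simp
  linear_combination key

theorem t_Star3 (hMet : stMet) (h1 : stAnAdd2) (h2 : stAnSign) : stStar3 := by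
  intro N P z c hst
  -- names
  have n0 : nx 3 0 = 1 := rfl
  have n1 : nx 3 1 = 2 := rfl
  have n2 : nx 3 2 = 0 := rfl
  have p0 : pv 3 0 = 2 := rfl
  have p1 : pv 3 1 = 0 := rfl
  have p2 : pv 3 2 = 1 := rfl
  have hc : Ccw (c 0) (c 1) (c 2) := hst.ord 0 1 2 (by norm_num) (by norm_num) (by norm_num)
  have a0 := hst.ne 0 (by norm_num)
  have a1 := hst.ne 1 (by norm_num)
  have a2 := hst.ne 2 (by norm_num)
  have s0 := hst.pos 0 (by norm_num)
  have s1 := hst.pos 1 (by norm_num)
  have s2 := hst.pos 2 (by norm_num)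
  have l0 := hst.le 0 (by norm_num)
  have l1 := hst.le 1 (by norm_num)
  have l2 := hst.le 2 (by norm_num)
  have hsum := hst.sum
  rw [Finset.sum_range_succ, Finset.sum_range_succ, Finset.sum_range_succ,
    Finset.sum_range_zero] at hsum
  rw [n0] at s0 l0
  rw [n1] at s1 l1
  rw [n2] at s2 l2
  rw [n0, n1, n2] at hsum
  set A := P (c 0) with hA
  set B := P (c 1) with hB
  set D := P (c 2) with hD
  -- areas
  have r0 : 0 ≤ crs (A - z) (B - z) := (h2 z A B a0 a1).1.1 s0.le
  have r1 : 0 ≤ crs (B - z) (D - z) := (h2 z B D a1 a2).1.1 s1.le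
  have r2 : 0 ≤ crs (D - z) (A - z) := (h2 z D A a2 a0).1.1 s2.le
  have q0 : crs (A - z) (B - z) = 0 → an z A B = Real.pi := by
    intro h
    by_contra hn
    have := (h2 z A B a0 a1).2.1 ⟨s0, lt_of_le_of_ne l0 hn⟩
    linarith
  have q1 : crs (B - z) (D - z) = 0 → an z B D = Real.pi := by
    intro h
    by_contra hn
    have := (h2 z B D a1 a2).2.1 ⟨s1, lt_of_le_of_ne l1 hn⟩
    linarith
  have q2 : crs (D - z) (A - z) = 0 → an z D A = Real.pi := by
    intro h
    by_contra hn
    have := (h2 z D A a2 a0).2.1 ⟨s2, lt_of_le_of_ne l2 hn⟩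
    linarith
  have hS : 0 < crs (B - A) (D - A) := by
    rw [← sum_STAR3 A B D z]
    by_contra hn
    have e0 : crs (A - z) (B - z) = 0 := by linarith
    have e1 : crs (B - z) (D - z) = 0 := by linarith
    have := q0 e0
    have := q1 e1
    linarith
  have hS1 : 0 < crs (D - B) (A - B) := by
    have e1 : crs (D - B) (A - B) = crs (B - A) (D - A) := by
      simp only [crs, Complex.sub_re, Complex.sub_im]; ring
    rw [e1]; exact hS
  have hS2 : 0 < crs (A - D) (B - D) := by
    have e2 : crs (A - D) (B - D) = crs (B - A) (D - A) := by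
      simp only [crs, Complex.sub_re, Complex.sub_im]; ring
    rw [e2]; exact hS
  have hV : ∀ v, v ∈ Cs 3 c ↔ v = c 0 ∨ v = c 1 ∨ v = c 2 := by
    intro v
    unfold Cs
    simp only [Finset.mem_image, Finset.mem_range]
    constructor
    · rintro ⟨i, hi, rfl⟩
      interval_cases i
      · exact Or.inl rfl
      · exact Or.inr (Or.inl rfl)
      · exact Or.inr (Or.inr rfl)
    · rintro (rfl | rfl | rfl)
      · exact ⟨0, by norm_num, rfl⟩
      · exact ⟨1, by norm_num, rfl⟩
      · exact ⟨2, by norm_num, rfl⟩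
  have hV1 : ∀ v, v ∈ Cs 3 c ↔ v = c 1 ∨ v = c 2 ∨ v = c 0 := by
    intro v; rw [hV]; tauto
  have hV2 : ∀ v, v ∈ Cs 3 c ↔ v = c 2 ∨ v = c 0 ∨ v = c 1 := by
    intro v; rw [hV]; tauto
  have hT := tri_STAR3 hV
  have M := hMet N (Cs 3 c) ⊤ P hT
  -- membership in the closed triangle
  have kz : z ∈ K_STAR3 A B D := ⟨r1, r2, r0⟩
  have kA : A ∈ K_STAR3 A B D := by
    refine ⟨hS.le, ?_, ?_⟩
    · rw [sub_self, crs_zero_right_STAR3]
    · rw [sub_self, crs_zero_left_STAR3]
  have kB : B ∈ K_STAR3 A B D := by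
    refine ⟨?_, hS1.le, ?_⟩
    · rw [sub_self, crs_zero_left_STAR3]
    · rw [sub_self, crs_zero_right_STAR3]
  have kD : D ∈ K_STAR3 A B D := by
    refine ⟨?_, ?_, hS2.le⟩
    · rw [sub_self, crs_zero_right_STAR3]
    · rw [sub_self, crs_zero_left_STAR3]
  have hK : ∀ i < 3, ∀ w ∈ T3 P z 3 c i, w ∈ K_STAR3 A B D := by
    intro i hi w hw
    unfold T3 at hw
    interval_cases i
    · rw [n0] at hw; exact K_hull_STAR3 kz kA kB hw
    · rw [n1] at hw; exact K_hull_STAR3 kz kB kD hw
    · rw [n2] at hw; exact K_hull_STAR3 kz kD kA hw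
  refine ⟨⊤, g_STAR3 P (c 0) (c 1) (c 2), hT, st_STAR3 hV hc hS, ?_, ?_, ?_, ?_⟩
  · intro i hi
    interval_cases i
    · rw [n0, p0, ang, tris_STAR3 hV hc, Finset.sum_singleton]
      exact ang_STAR3 h1 h2 a0 r0 r2 hS q0 q2
    · rw [n1, p1, ang, tris_STAR3 hV1 (Ccw_rot hc), Finset.sum_singleton]
      exact ang_STAR3 h1 h2 a1 r1 r0 hS1 q1 q0
    · rw [n2, p2, ang, tris_STAR3 hV2 (Ccw_rot' hc), Finset.sum_singleton]
      exact ang_STAR3 h1 h2 a2 r2 r1 hS2 q2 q1
  · intro i hi w hw
    exact ⟨g_mem_STAR3 hV hS (hK i hi w hw), g_dev_STAR3 hS w⟩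
  · intro i hi w hw w' hw'
    rw [M.sh _ (g_mem_STAR3 hV hS (hK i hi w hw)) _ (g_mem_STAR3 hV hS (hK i hi w' hw'))
      (fun x y _ _ hxy => by simpa using hxy), g_dev_STAR3 hS, g_dev_STAR3 hS]
  · intro i hi τ hτ
    have hS0 : crs (B - A) (D - A) ≠ 0 := hS.ne'
    interval_cases i
    · rw [n0]
      have e1 : crs (B - ((1 - τ : ℝ) * A + (τ : ℝ) * B)) (D - ((1 - τ : ℝ) * A + (τ : ℝ) * B)) =
          (1 - τ) * crs (B - A) (D - A) := by
        simp only [crs, Complex.sub_re, Complex.sub_im, Complex.add_re, Complex.add_im,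
          Complex.mul_re, Complex.mul_im, Complex.ofReal_re, Complex.ofReal_im]
        ring
      have e2 : crs (D - ((1 - τ : ℝ) * A + (τ : ℝ) * B)) (A - ((1 - τ : ℝ) * A + (τ : ℝ) * B)) =
          τ * crs (B - A) (D - A) := by
        simp only [crs, Complex.sub_re, Complex.sub_im, Complex.add_re, Complex.add_im,
          Complex.mul_re, Complex.mul_im, Complex.ofReal_re, Complex.ofReal_im]
        ring
      have e3 : crs (A - ((1 - τ : ℝ) * A + (τ : ℝ) * B)) (B - ((1 - τ : ℝ) * A + (τ : ℝ) * B)) =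
          0 := by
        simp only [crs, Complex.sub_re, Complex.sub_im, Complex.add_re, Complex.add_im,
          Complex.mul_re, Complex.mul_im, Complex.ofReal_re, Complex.ofReal_im]
        ring
      funext v
      unfold g_STAR3 seg
      rw [← hA, ← hB, ← hD, e1, e2, e3]
      field_simp
      ring
    · rw [n1]
      have e1 : crs (B - ((1 - τ : ℝ) * B + (τ : ℝ) * D)) (D - ((1 - τ : ℝ) * B + (τ : ℝ) * D)) =
          0 := by
        simp only [crs, Complex.sub_re, Complex.sub_im, Complex.add_re, Complex.add_im,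
          Complex.mul_re, Complex.mul_im, Complex.ofReal_re, Complex.ofReal_im]
        ring
      have e2 : crs (D - ((1 - τ : ℝ) * B + (τ : ℝ) * D)) (A - ((1 - τ : ℝ) * B + (τ : ℝ) * D)) =
          (1 - τ) * crs (B - A) (D - A) := by
        simp only [crs, Complex.sub_re, Complex.sub_im, Complex.add_re, Complex.add_im,
          Complex.mul_re, Complex.mul_im, Complex.ofReal_re, Complex.ofReal_im]
        ring
      have e3 : crs (A - ((1 - τ : ℝ) * B + (τ : ℝ) * D)) (B - ((1 - τ : ℝ) * B + (τ : ℝ) * D)) =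
          τ * crs (B - A) (D - A) := by
        simp only [crs, Complex.sub_re, Complex.sub_im, Complex.add_re, Complex.add_im,
          Complex.mul_re, Complex.mul_im, Complex.ofReal_re, Complex.ofReal_im]
        ring
      funext v
      unfold g_STAR3 seg
      rw [← hA, ← hB, ← hD, e1, e2, e3]
      field_simp
      ring
    · rw [n2]
      have e1 : crs (B - ((1 - τ : ℝ) * D + (τ : ℝ) * A)) (D - ((1 - τ : ℝ) * D + (τ : ℝ) * A)) =
          τ * crs (B - A) (D - A) := by
        simp only [crs, Complex.sub_re, Complex.sub_im, Complex.add_re, Complex.add_im,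
          Complex.mul_re, Complex.mul_im, Complex.ofReal_re, Complex.ofReal_im]
        ring
      have e2 : crs (D - ((1 - τ : ℝ) * D + (τ : ℝ) * A)) (A - ((1 - τ : ℝ) * D + (τ : ℝ) * A)) =
          0 := by
        simp only [crs, Complex.sub_re, Complex.sub_im, Complex.add_re, Complex.add_im,
          Complex.mul_re, Complex.mul_im, Complex.ofReal_re, Complex.ofReal_im]
        ring
      have e3 : crs (A - ((1 - τ : ℝ) * D + (τ : ℝ) * A)) (B - ((1 - τ : ℝ) * D + (τ : ℝ) * A)) =
          (1 - τ) * crs (B - A) (D - A) := by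
        simp only [crs, Complex.sub_re, Complex.sub_im, Complex.add_re, Complex.add_im,
          Complex.mul_re, Complex.mul_im, Complex.ofReal_re, Complex.ofReal_im]
        ring
      funext v
      unfold g_STAR3 seg
      rw [← hA, ← hB, ← hD, e1, e2, e3]
      field_simp
      ring

end Pool.Agent.Helper62.GP
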