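import Pool.Agent.Helper62.GP.Z_STEP2

/-!
# Gilbert-Pollak, COR-Z: induction step of the star lemma
-/

set_option autoImplicit false

namespace Pool.Agent.Helper62.GP

open Pool.Agent.Helper18.GP Pool.Agent.Helper13.GP Relation Classical Finset

variable {N : ℕ}

/-- the smaller star -/
theorem star_STEP (h0 : stAnAdd) {P : Fin N → ℂ} {z : ℂ} {m : ℕ} {c : ℕ → Fin N} (h3 : 3 ≤ m)
    (hS : Star P z (m + 1) c)
    (hor : an z (P (c (m - 1))) (P (c m)) + an z (P (c m)) (P (c 0)) < Real.pi ∨
    (m = 3 ∧ an z (P (c (m - 1))) (P (c m)) + an z (P (c m)) (P (c 0)) ≤ Real.pi)) :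
    an z (P (c (m - 1))) (P (c 0)) =
      an z (P (c (m - 1))) (P (c m)) + an z (P (c m)) (P (c 0)) ∧ Star P z m c := by
  have hle : an z (P (c (m - 1))) (P (c m)) + an z (P (c m)) (P (c 0)) ≤ Real.pi := by
    rcases hor with h | h
    · exact h.le
    · exact h.2
  have n1 : nx (m + 1) (m - 1) = m := by unfold nx; split_ifs <;> omega
  have n2 : nx (m + 1) m = 0 := by unfold nx; split_ifs <;> omega
  have n3 : nx m (m - 1) = 0 := by unfold nx; split_ifs <;> omega
  have n4 : ∀ i, i < m - 1 → nx m i = nx (m + 1) i := by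
    intro i hi; unfold nx; split_ifs <;> omega
  have p1 := hS.pos (m - 1) (by omega)
  rw [n1] at p1
  have p2 := hS.pos m (by omega)
  rw [n2] at p2
  have hA := h0 z (P (c (m - 1))) (P (c m)) (P (c 0)) (hS.ne _ (by omega)) (hS.ne _ (by omega))
    (hS.ne _ (by omega)) p1.le p2.le hle
  refine ⟨hA, ⟨h3, fun i j k h1 h2 h3 => hS.ord i j k h1 h2 (by omega),
    fun i hi => hS.ne i (by omega), ?_, ?_, ?_, ?_⟩⟩
  · intro i hi
    rcases Nat.lt_or_ge i (m - 1) with h | h
    · rw [n4 i h]; exact hS.pos i (by omega)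
    · have : i = m - 1 := by omega
      subst this
      rw [n3, hA]; linarith
  · intro i hi
    rcases Nat.lt_or_ge i (m - 1) with h | h
    · rw [n4 i h]; exact hS.le i (by omega)
    · have : i = m - 1 := by omega
      subst this
      rw [n3, hA]; exact hle
  · intro h4 i hi
    rcases Nat.lt_or_ge i (m - 1) with h | h
    · rw [n4 i h]; exact hS.lt (by omega) i (by omega)
    · have : i = m - 1 := by omega
      subst this
      rw [n3, hA]
      rcases hor with h | h
      · exact h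
      · omega
  · have hs := hS.sum
    have hm : m = m - 1 + 1 := by omega
    rw [Finset.sum_range_succ, n2] at hs
    have e1 : ∑ i ∈ range m, an z (P (c i)) (P (c (nx (m + 1) i))) =
        ∑ i ∈ range (m - 1), an z (P (c i)) (P (c (nx (m + 1) i))) +
          an z (P (c (m - 1))) (P (c m)) := by
      conv_lhs => rw [hm]
      rw [Finset.sum_range_succ]
      have : m - 1 + 1 + 1 = m + 1 := by omega
      rw [this, n1]
    have e2 : ∑ i ∈ range m, an z (P (c i)) (P (c (nx m i))) =
        ∑ i ∈ range (m - 1), an z (P (c i)) (P (c (nx (m + 1) i))) +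
          an z (P (c (m - 1))) (P (c 0)) := by
      conv_lhs => rw [hm]
      rw [Finset.sum_range_succ]
      have h' : m - 1 + 1 = m := by omega
      rw [h', n3]
      congr 1
      apply Finset.sum_congr rfl
      intro i hi
      rw [Finset.mem_range] at hi
      rw [n4 i hi]
    rw [e2, hA]
    rw [e1] at hs
    linarith

/-- the quadrilateral -/
theorem quad_STEP (h2 : stAnSign) {P : Fin N → ℂ} {z : ℂ} {m : ℕ} {c : ℕ → Fin N} (h3 : 3 ≤ m)
    (hS : Star P z (m + 1) c)
    (hturn : 0 < crs (P (c m) - P (c (m - 1))) (P (c 0) - P (c m)))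
    (hSm : Star P z m c) :
    Quad_STEP z (P (c (m - 1))) (P (c m)) (P (c 0)) := by
  have n1 : nx (m + 1) (m - 1) = m := by unfold nx; split_ifs <;> omega
  have n2 : nx (m + 1) m = 0 := by unfold nx; split_ifs <;> omega
  have n3 : nx m (m - 1) = 0 := by unfold nx; split_ifs <;> omega
  refine ⟨?_, ?_, ?_, ?_⟩
  · rw [← (h2 z _ _ (hS.ne _ (by omega)) (hS.ne _ (by omega))).2]
    have p1 := hS.pos (m - 1) (by omega)
    have p2 := hS.lt (by omega) (m - 1) (by omega)
    rw [n1] at p1 p2
    exact ⟨p1, p2⟩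
  · rw [← (h2 z _ _ (hS.ne _ (by omega)) (hS.ne _ (by omega))).2]
    have p1 := hS.pos m (by omega)
    have p2 := hS.lt (by omega) m (by omega)
    rw [n2] at p1 p2
    exact ⟨p1, p2⟩
  · rw [← (h2 z _ _ (hS.ne _ (by omega)) (hS.ne _ (by omega))).1]
    have p1 := hSm.pos (m - 1) (by omega)
    rw [n3] at p1
    exact p1.le
  · have : crs (P (c m) - P (c (m - 1))) (P (c 0) - P (c (m - 1))) =
        crs (P (c m) - P (c (m - 1))) (P (c 0) - P (c m)) := by
      unfold crs; simp only [Complex.sub_re, Complex.sub_im]; ring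
    rw [this]; exact hturn

/-- barycentric point on the new triangle -/
noncomputable def bar_STEP (P : Fin N → ℂ) (p q r : Fin N) (w : ℂ) : Fin N → ℝ :=
  bp_STEP p q r (crs (P q - w) (P r - w) / crs (P q - P p) (P r - P p))
    (crs (P r - w) (P p - w) / crs (P q - P p) (P r - P p))
    (crs (P p - w) (P q - w) / crs (P q - P p) (P r - P p))

theorem bar_Pts_STEP {V : Finset (Fin N)} {G : SimpleGraph (Fin N)} {P : Fin N → ℂ}
    {p q r : Fin N} (hp : p ∈ V) (hq : q ∈ V) (hr : r ∈ V) (hpq : G.Adj p q) (hqr : G.Adj q r)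
    (hpr : G.Adj p r) (hD : 0 < crs (P q - P p) (P r - P p)) {w : ℂ}
    (hw : w ∈ convexHull ℝ ({P p, P q, P r} : Set ℂ)) :
    bar_STEP P p q r w ∈ Pts V G ∧ dev P (bar_STEP P p q r w) = w := by
  obtain ⟨a1, a2, a3⟩ := new_STEP hD hw
  refine ⟨bp_Pts_STEP hp hq hr hpq hqr hpr (by positivity) (by positivity) (by positivity) ?_, ?_⟩
  · rw [← add_div, ← add_div, bsum_STEP, div_self hD.ne']
  · unfold bar_STEP
    rw [bp_dev_STEP]
    have hc : (crs (P q - P p) (P r - P p) : ℂ) ≠ 0 := by exact_mod_cast hD.ne'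
    have := bpt_STEP (P p) (P q) (P r) w
    push_cast
    field_simp
    linear_combination this

theorem bar1_STEP {P : Fin N → ℂ} {p q r : Fin N} (hD : 0 < crs (P q - P p) (P r - P p)) (τ : ℝ) :
    bar_STEP P p q r ((1 - τ : ℝ) * P p + (τ : ℝ) * P q) = seg p q τ := by
  unfold bar_STEP
  have hD' := hD.ne'
  have e1 : crs (P q - ((1 - τ : ℝ) * P p + (τ : ℝ) * P q))
      (P r - ((1 - τ : ℝ) * P p + (τ : ℝ) * P q)) = (1 - τ) * crs (P q - P p) (P r - P p) := by
    rw [aff2_STEP, crs_ab_STEP (P q) (P r)]; ring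
  have e2 : crs (P r - ((1 - τ : ℝ) * P p + (τ : ℝ) * P q))
      (P p - ((1 - τ : ℝ) * P p + (τ : ℝ) * P q)) = τ * crs (P q - P p) (P r - P p) := by
    rw [aff2_STEP, crs_ba_STEP, cby_STEP]; ring
  have e3 : crs (P p - ((1 - τ : ℝ) * P p + (τ : ℝ) * P q))
      (P q - ((1 - τ : ℝ) * P p + (τ : ℝ) * P q)) = 0 := by
    rw [aff2_STEP, crs_ba_STEP, crs_ab_STEP]; ring
  rw [seg_bp1_STEP p q r, e1, e2, e3, mul_div_assoc, mul_div_assoc, div_self hD', mul_one, mul_one,
    zero_div]

theorem bar2_STEP {P : Fin N → ℂ} {p q r : Fin N} (hD : 0 < crs (P q - P p) (P r - P p)) (τ : ℝ) :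
    bar_STEP P p q r ((1 - τ : ℝ) * P q + (τ : ℝ) * P r) = seg q r τ := by
  unfold bar_STEP
  have hD' := hD.ne'
  have e1 : crs (P q - ((1 - τ : ℝ) * P q + (τ : ℝ) * P r))
      (P r - ((1 - τ : ℝ) * P q + (τ : ℝ) * P r)) = 0 := by
    rw [aff2_STEP, crs_ba_STEP, crs_ab_STEP]; ring
  have e2 : crs (P r - ((1 - τ : ℝ) * P q + (τ : ℝ) * P r))
      (P p - ((1 - τ : ℝ) * P q + (τ : ℝ) * P r)) = (1 - τ) * crs (P q - P p) (P r - P p) := by
    rw [aff2_STEP, crs_ab_STEP (P r) (P p), cby_STEP]; ring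
  have e3 : crs (P p - ((1 - τ : ℝ) * P q + (τ : ℝ) * P r))
      (P q - ((1 - τ : ℝ) * P q + (τ : ℝ) * P r)) = τ * crs (P q - P p) (P r - P p) := by
    rw [aff2_STEP, crs_ba_STEP, cba_STEP]; ring
  rw [seg_bp2_STEP p q r, e1, e2, e3, mul_div_assoc, mul_div_assoc, div_self hD', mul_one, mul_one,
    zero_div]

/-- points of a closed triangle of the new star -/
theorem comb1_STEP {z b y a w : ℂ} (hQ : Quad_STEP z b y a)
    (hw : w ∈ convexHull ℝ ({z, b, y} : Set ℂ)) :
    w ∈ convexHull ℝ ({z, b, a} : Set ℂ) ∨ w ∈ convexHull ℝ ({b, y, a} : Set ℂ) := by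
  rw [hull3_STEP] at hw
  obtain ⟨x, s, t, hx, hs, ht, h1, rfl⟩ := hw
  have := dec_STEP hQ hx hs ht le_rfl (by linarith : x + s + t + 0 = 1)
  have e : (x * z + s * b + t * y + (0 : ℝ) * a : ℂ) = x * z + s * b + t * y := by
    push_cast; ring
  rw [e] at this
  exact this

theorem comb2_STEP {z b y a w : ℂ} (hQ : Quad_STEP z b y a)
    (hw : w ∈ convexHull ℝ ({z, y, a} : Set ℂ)) :
    w ∈ convexHull ℝ ({z, b, a} : Set ℂ) ∨ w ∈ convexHull ℝ ({b, y, a} : Set ℂ) := by
  rw [hull3_STEP] at hw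
  obtain ⟨x, t, u, hx, ht, hu, h1, rfl⟩ := hw
  have := dec_STEP hQ hx le_rfl ht hu (by linarith : x + 0 + t + u = 1)
  have e : (x * z + (0 : ℝ) * b + t * y + u * a : ℂ) = x * z + t * y + u * a := by
    push_cast; ring
  rw [e] at this
  exact this

/-- closed triangles at `z` which are not the two last ones: old triangles -/
theorem T3_eq_STEP (P : Fin N → ℂ) (z : ℂ) {m : ℕ} (c : ℕ → Fin N) {i : ℕ} (hi : i + 1 < m) :
    T3 P z (m + 1) c i = T3 P z m c i := by
  unfold T3
  have : nx (m + 1) i = nx m i := by unfold nx; split_ifs <;> omega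
  rw [this]

/-- the two new star triangles meet the old ones only in the last one -/
theorem sep_STEP (h1 : stAnAdd2) (h2 : stAnSign) {P : Fin N → ℂ} {z : ℂ} {m : ℕ}
    {c : ℕ → Fin N} (h3 : 3 ≤ m) (hS : Star P z (m + 1) c)
    {w : ℂ} {i j : ℕ} (hi : m - 1 ≤ i) (hi' : i < m + 1) (hj : j < m)
    (hwi : w ∈ T3 P z (m + 1) c i) (hwj : w ∈ T3 P z m c j) : w ∈ T3 P z m c (m - 1) := by
  have n1 : nx (m + 1) (m - 1) = m := by unfold nx; split_ifs <;> omega
  have n2 : nx (m + 1) m = 0 := by unfold nx; split_ifs <;> omega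
  have n3 : nx m (m - 1) = 0 := by unfold nx; split_ifs <;> omega
  rcases Nat.lt_or_ge j (m - 1) with hj1 | hj1
  swap
  · have : j = m - 1 := by omega
    rw [← this]; exact hwj
  have nj : nx m j = j + 1 := by unfold nx; split_ifs <;> omega
  have nl : ∀ l < m, nx (m + 1) l = l + 1 := by
    intro l hl; unfold nx; split_ifs <;> omega
  unfold T3 at hwj
  rw [nj] at hwj
  by_cases hwz : w = z
  · unfold T3
    apply subset_convexHull
    rw [hwz]
    exact Set.mem_insert _ _
  have hne : ∀ l ≤ m, P (c l) ≠ z := fun l hl => hS.ne l (by omega)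
  have hpos : ∀ l < m, 0 < crs (P (c l) - z) (P (c (l + 1)) - z) := by
    intro l hl
    rw [← (h2 z _ _ (hS.ne _ (by omega)) (hS.ne _ (by omega))).2]
    have p1 := hS.pos l (by omega)
    have p2 := hS.lt (by omega) l (by omega)
    rw [nl l hl] at p1 p2
    exact ⟨p1, p2⟩
  have hposm : 0 < crs (P (c m) - z) (P (c 0) - z) := by
    rw [← (h2 z _ _ (hS.ne _ (by omega)) (hS.ne _ (by omega))).2]
    have p1 := hS.pos m (by omega)
    have p2 := hS.lt (by omega) m (by omega)
    rw [n2] at p1 p2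
    exact ⟨p1, p2⟩
  have hsum := hS.sum
  rw [Finset.sum_range_succ, n2] at hsum
  have hsum' : ∑ l ∈ range m, an z (P (c l)) (P (c (nx (m + 1) l))) =
      ∑ l ∈ range m, an z (P (c l)) (P (c (l + 1))) := by
    apply Finset.sum_congr rfl
    intro l hl
    rw [nl l (Finset.mem_range.1 hl)]
  rw [hsum'] at hsum
  have pm := hS.pos m (by omega)
  rw [n2] at pm
  have pm1 := hS.pos (m - 1) (by omega)
  rw [n1] at pm1
  rcases Nat.lt_or_ge i m with him | him
  · have : i = m - 1 := by omega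
    subst this
    unfold T3 at hwi
    rw [n1] at hwi
    have hk := key1_STEP h1 h2 (q := fun l => P (c l)) hne hpos (by linarith)
      (by omega : j + 1 < m) hwz hwj hwi
    unfold T3
    rw [n3]
    have hpm := hpos (m - 1) (by omega)
    rw [show m - 1 + 1 = m by omega] at hpm
    exact onb_STEP (hne (m - 1) (by omega)) hpm hwi hk _
  · have hieq : i = m := by omega
    rw [hieq] at hwi
    unfold T3 at hwi
    rw [n2] at hwi
    have hs2 : ∑ l ∈ range m, an z (P (c l)) (P (c (l + 1))) =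
        ∑ l ∈ range (m - 1), an z (P (c l)) (P (c (l + 1))) + an z (P (c (m - 1))) (P (c m)) := by
      conv_lhs => rw [show m = m - 1 + 1 by omega]
      rw [Finset.sum_range_succ, show m - 1 + 1 = m by omega]
    have hk := key2_STEP h1 h2 (q := fun l => P (c l)) hne hpos hposm (by linarith)
      (by omega : j + 1 < m) hwz hwj hwi
    unfold T3
    rw [n3]
    exact ona_STEP (hne 0 (by omega)) hposm hwz hwi hk _

theorem t_StarStep (hMet : stMet) (h0 : stAnAdd) (h1 : stAnAdd2) (h2 : stAnSign) (h3 : stAdd) :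
    stStarStep := by
  intro N P z m c hm3 hS hturn hor
  obtain ⟨hA, hSm⟩ := star_STEP h0 hm3 hS hor
  refine ⟨hSm, ?_⟩
  rintro ⟨H', g', hT', hSt', F3', F4', F5', F6'⟩
  have hQ := quad_STEP h2 hm3 hS hturn hSm
  have n1 : nx (m + 1) (m - 1) = m := by unfold nx; split_ifs <;> omega
  have n2 : nx (m + 1) m = 0 := by unfold nx; split_ifs <;> omega
  have n3 : nx m (m - 1) = 0 := by unfold nx; split_ifs <;> omega
  -- labels
  have hca : c 0 ∈ Cs m c := mem_Cs_STEP (by omega)
  have hcb : c (m - 1) ∈ Cs m c := mem_Cs_STEP (by omega)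
  have hcy : c m ∉ Cs m c := by
    intro h
    unfold Cs at h
    rw [Finset.mem_image] at h
    obtain ⟨i, hi, he⟩ := h
    exact cinj_STEP (by omega) hS.ord (Finset.mem_range.1 hi) (by omega : m < m + 1) he
  have hab : c (m - 1) ≠ c 0 := (cinj_STEP (by omega) hS.ord (by omega : 0 < m - 1)
    (by omega : m - 1 < m + 1)).symm
  have hnb := notbtw_STEP hm3 hSm.ord
  obtain ⟨H, hT, hSt, hAd, hAz, hang, hanga, hangq, hangz, -⟩ := h3 N (Cs m c) H' P (c m) (c 0)
    (c (m - 1)) hT' hSt' hcy hca hcb (btw_STEP hm3 hS.ord) hnb hQ.D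
  rw [← Cs_succ_STEP] at hT hSt hang hanga hangq hangz
  have hsub : Cs m c ⊆ Cs (m + 1) c := by
    rw [Cs_succ_STEP]; exact Finset.subset_insert _ _
  have hAd' : ∀ x ∈ Cs m c, ∀ y ∈ Cs m c, H'.Adj x y → H.Adj x y := fun x hx y hy h =>
    (hAd x hx y hy).2 h
  have hM := hMet N (Cs (m + 1) c) H P hT
  have hbd : H'.Adj (c (m - 1)) (c 0) := bdAdj N _ _ hT' _ _ ⟨hcb, hca, hab, Or.inl hnb⟩
  have ja : H.Adj (c (m - 1)) (c 0) := hAd' _ hcb _ hca hbd
  have jy : H.Adj (c (m - 1)) (c m) := ((hAz _ hcb).2 (Or.inr rfl)).symm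
  have jz : H.Adj (c m) (c 0) := (hAz _ hca).2 (Or.inl rfl)
  have mb : c (m - 1) ∈ Cs (m + 1) c := hsub hcb
  have ma : c 0 ∈ Cs (m + 1) c := hsub hca
  have my : c m ∈ Cs (m + 1) c := mem_Cs_STEP (by omega)
  -- the map
  set g : ℂ → (Fin N → ℝ) := fun w => if ∃ i < m, w ∈ T3 P z m c i then g' w else
    bar_STEP P (c (m - 1)) (c m) (c 0) w with hg
  have gold : ∀ i < m, ∀ w ∈ T3 P z m c i, g w = g' w := by
    intro i hi w hw
    rw [hg]
    exact if_pos ⟨i, hi, hw⟩
  have gnew : ∀ w, ¬ (∃ i < m, w ∈ T3 P z m c i) → g w = bar_STEP P (c (m - 1)) (c m) (c 0) w := by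
    intro w hw
    rw [hg]
    exact if_neg hw
  have glast : ∀ w ∈ convexHull ℝ ({z, P (c (m - 1)), P (c 0)} : Set ℂ), g w = g' w := by
    intro w hw
    apply gold (m - 1) (by omega)
    unfold T3
    rw [n3]; exact hw
  -- old points
  have oldP : ∀ i < m, ∀ w ∈ T3 P z m c i, g w ∈ Pts (Cs (m + 1) c) H ∧ dev P (g w) = w := by
    intro i hi w hw
    rw [gold i hi w hw]
    exact ⟨Pts_mono_STEP hsub hAd' (F4' i hi w hw).1, (F4' i hi w hw).2⟩
  have oldD : ∀ i < m, ∀ w ∈ T3 P z m c i, ∀ w' ∈ T3 P z m c i,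
      dK (Cs (m + 1) c) H P (g w) (g w') ≤ ‖w - w'‖ := by
    intro i hi w hw w' hw'
    rw [gold i hi w hw, gold i hi w' hw']
    exact (dK_mono_STEP hMet hT' hsub hAd' (F4' i hi w hw).1 (F4' i hi w' hw').1).trans
      (F5' i hi w hw w' hw')
  -- decomposition of the points of the two new star triangles
  have dec : ∀ i, m - 1 ≤ i → i < m + 1 → ∀ w ∈ T3 P z (m + 1) c i,
      w ∈ T3 P z m c (m - 1) ∨ ((¬ ∃ j < m, w ∈ T3 P z m c j) ∧
        w ∈ convexHull ℝ ({P (c (m - 1)), P (c m), P (c 0)} : Set ℂ)) := by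
    intro i hi hi' w hw
    by_cases hex : ∃ j < m, w ∈ T3 P z m c j
    · obtain ⟨j, hj, hwj⟩ := hex
      exact Or.inl (sep_STEP h1 h2 hm3 hS hi hi' hj hw hwj)
    · right
      refine ⟨hex, ?_⟩
      have hno : w ∉ convexHull ℝ ({z, P (c (m - 1)), P (c 0)} : Set ℂ) := by
        intro h
        apply hex
        refine ⟨m - 1, by omega, ?_⟩
        unfold T3
        rw [n3]; exact h
      rcases Nat.lt_or_ge i m with him | him
      · have hieq : i = m - 1 := by omega
        rw [hieq] at hw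
        unfold T3 at hw
        rw [n1] at hw
        exact (comb1_STEP hQ hw).resolve_left hno
      · have hieq : i = m := by omega
        rw [hieq] at hw
        unfold T3 at hw
        rw [n2] at hw
        exact (comb2_STEP hQ hw).resolve_left hno
  have newP : ∀ w, (¬ ∃ j < m, w ∈ T3 P z m c j) →
      w ∈ convexHull ℝ ({P (c (m - 1)), P (c m), P (c 0)} : Set ℂ) →
      g w ∈ Pts (Cs (m + 1) c) H ∧ dev P (g w) = w := by
    intro w hw hw'
    rw [gnew w hw]
    exact bar_Pts_STEP mb my ma jy jz ja hQ.D hw'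
  have newD : ∀ w, (¬ ∃ j < m, w ∈ T3 P z m c j) →
      w ∈ convexHull ℝ ({P (c (m - 1)), P (c m), P (c 0)} : Set ℂ) → ∀ w',
      (¬ ∃ j < m, w' ∈ T3 P z m c j) →
      w' ∈ convexHull ℝ ({P (c (m - 1)), P (c m), P (c 0)} : Set ℂ) →
      dK (Cs (m + 1) c) H P (g w) (g w') ≤ ‖w - w'‖ := by
    intro w hw hwm w' hw' hwm'
    have k1 := newP w hw hwm
    have k2 := newP w' hw' hwm'
    rw [hM.sh _ k1.1 _ k2.1, k1.2, k2.2]
    rw [gnew w hw, gnew w' hw']
    exact bp_Sh_STEP jy jz ja
  have mixD : ∀ w ∈ T3 P z m c (m - 1), ∀ w', (¬ ∃ j < m, w' ∈ T3 P z m c j) →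
      w' ∈ convexHull ℝ ({P (c (m - 1)), P (c m), P (c 0)} : Set ℂ) →
      dK (Cs (m + 1) c) H P (g w) (g w') ≤ ‖w - w'‖ := by
    intro w hw w' hw' hwm'
    have hwT : w ∈ convexHull ℝ ({z, P (c (m - 1)), P (c 0)} : Set ℂ) := by
      unfold T3 at hw
      rw [n3] at hw; exact hw
    obtain ⟨τ, hτ, hle⟩ := cross_STEP hQ hwT hwm'
    have hqT : ((1 - τ : ℝ) * P (c (m - 1)) + (τ : ℝ) * P (c 0) : ℂ) ∈ T3 P z m c (m - 1) := by
      unfold T3
      rw [n3, hull3_STEP]
      refine ⟨0, 1 - τ, τ, le_rfl, by linarith [hτ.2], hτ.1, by ring, ?_⟩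
      push_cast; ring
    have hgq : g ((1 - τ : ℝ) * P (c (m - 1)) + (τ : ℝ) * P (c 0) : ℂ) =
        seg (c (m - 1)) (c 0) τ := by
      rw [gold (m - 1) (by omega) _ hqT]
      have := F6' (m - 1) (by omega) τ hτ
      rw [n3] at this
      exact this
    have k1 := oldP (m - 1) (by omega) w hw
    have k2 := oldP (m - 1) (by omega) _ hqT
    have k3 := newP w' hw' hwm'
    have d1 := oldD (m - 1) (by omega) w hw _ hqT
    have d2 : dK (Cs (m + 1) c) H P
        (g ((1 - τ : ℝ) * P (c (m - 1)) + (τ : ℝ) * P (c 0) : ℂ)) (g w') ≤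
        ‖((1 - τ : ℝ) * P (c (m - 1)) + (τ : ℝ) * P (c 0) : ℂ) - w'‖ := by
      rw [hM.sh _ k2.1 _ k3.1, k2.2, k3.2]
      rw [hgq, gnew w' hw', seg_bp3_STEP (c (m - 1)) (c m) (c 0)]
      exact bp_Sh_STEP jy jz ja
    have := hM.tri _ k1.1 _ k2.1 _ k3.1
    linarith
  refine ⟨H, g, hT, hSt, ?_, ?_, ?_, ?_⟩
  · -- angles
    intro i hi
    have hb : P (c (m - 1)) ≠ z := hS.ne _ (by omega)
    have ha : P (c 0) ≠ z := hS.ne _ (by omega)
    have hy : P (c m) ≠ z := hS.ne _ (by omega)
    have hab' : P (c 0) ≠ P (c (m - 1)) := by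
      intro h
      have := hQ.D
      rw [h] at this
      unfold crs at this
      simp at this
    have hyb : P (c m) ≠ P (c (m - 1)) := by
      intro h
      have := hQ.D
      rw [h] at this
      unfold crs at this
      simp at this
    have hya : P (c m) ≠ P (c 0) := by
      intro h
      have := hQ.D
      rw [h] at this
      unfold crs at this
      linarith
    have hzba : 0 < an z (P (c (m - 1))) (P (c 0)) := by
      have := hSm.pos (m - 1) (by omega)
      rw [n3] at this
      exact this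
    obtain ⟨⟨la1, la2⟩, lb1, lb2⟩ := lta_STEP h2 hb ha hab' hzba
    rcases Nat.lt_or_ge i m with him | him
    swap
    · have hieq : i = m := by omega
      have p1 : pv (m + 1) m = m - 1 := by unfold pv; split_ifs <;> omega
      rw [hieq, n2, p1, hangz]
      have c1 : crs (P (c 0) - P (c m)) (z - P (c m)) = crs (P (c m) - z) (P (c 0) - z) := by
        unfold crs; simp only [Complex.sub_re, Complex.sub_im]; ring
      have c2 : crs (z - P (c m)) (P (c (m - 1)) - P (c m)) =
          crs (P (c (m - 1)) - z) (P (c m) - z) := by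
        unfold crs; simp only [Complex.sub_re, Complex.sub_im]; ring
      have k1 := (h2 (P (c m)) (P (c 0)) z hya.symm hy.symm).2.2 (by rw [c1]; exact hQ.ya)
      have k2 := (h2 (P (c m)) z (P (c (m - 1))) hy.symm hyb.symm).2.2 (by rw [c2]; exact hQ.by')
      have k3 := (h2 (P (c m)) (P (c 0)) (P (c (m - 1))) hya.symm hyb.symm).2.2
        (by rw [cby_STEP]; exact hQ.D)
      exact h1 _ _ _ _ hya.symm hy.symm hyb.symm k1.1.le k1.2 k2.1.le k2.2 k3.1.le
    · rcases Nat.eq_zero_or_pos i with h00 | h00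
      · subst h00
        have p1 : pv (m + 1) 0 = m := by unfold pv; split_ifs <;> omega
        have p2 : pv m 0 = m - 1 := by unfold pv; split_ifs <;> omega
        have p3 : nx (m + 1) 0 = 1 := by unfold nx; split_ifs <;> omega
        have p4 : nx m 0 = 1 := by unfold nx; split_ifs <;> omega
        have hf := F3' 0 (by omega)
        rw [p2, p4] at hf
        rw [hanga, hf, p1, p3]
        have c1 : crs (z - P (c 0)) (P (c m) - P (c 0)) = crs (P (c m) - z) (P (c 0) - z) := by
          unfold crs; simp only [Complex.sub_re, Complex.sub_im]; ring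
        have k1 := (h2 (P (c 0)) z (P (c m)) ha.symm hya).2.2 (by rw [c1]; exact hQ.ya)
        have k2 := (h2 (P (c 0)) (P (c (m - 1))) (P (c m)) hab'.symm hya).2.2
          (by rw [cba_STEP]; exact hQ.D)
        have := h1 (P (c 0)) z (P (c (m - 1))) (P (c m)) ha.symm hab'.symm hya la1 la2 k2.1.le k2.2
          k1.1.le
        linarith
      · rcases Nat.lt_or_ge i (m - 1) with h | h
        · have e1 : nx (m + 1) i = nx m i := by unfold nx; split_ifs <;> omega
          have e2 : pv (m + 1) i = pv m i := by unfold pv; split_ifs <;> omega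
          rw [e1, e2, hang (c i) (mem_Cs_STEP (by omega))
            (cinj_STEP (by omega) hS.ord h00 (by omega)).symm
            (cinj_STEP (by omega) hS.ord h (by omega))]
          exact F3' i (by omega)
        · have hieq : i = m - 1 := by omega
          have p1 : pv (m + 1) (m - 1) = m - 1 - 1 := by unfold pv; split_ifs <;> omega
          have p2 : pv m (m - 1) = m - 1 - 1 := by unfold pv; split_ifs <;> omega
          have hf := F3' (m - 1) (by omega)
          rw [p2, n3] at hf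
          rw [hieq, hangq, hf, p1, n1]
          have c1 : crs (P (c m) - P (c (m - 1))) (z - P (c (m - 1))) =
              crs (P (c (m - 1)) - z) (P (c m) - z) := by
            unfold crs; simp only [Complex.sub_re, Complex.sub_im]; ring
          have k1 := (h2 (P (c (m - 1))) (P (c m)) z hyb hb.symm).2.2 (by rw [c1]; exact hQ.by')
          have k2 := (h2 (P (c (m - 1))) (P (c m)) (P (c 0)) hyb hab').2.2 hQ.D
          have := h1 (P (c (m - 1))) (P (c m)) (P (c 0)) z hyb hab' hb.symm k2.1.le k2.2 lb1 lb2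
            k1.1.le
          linarith
  · intro i hi w hw
    rcases Nat.lt_or_ge i (m - 1) with h | h
    · rw [T3_eq_STEP P z c (by omega)] at hw
      exact oldP i (by omega) w hw
    · rcases dec i h hi w hw with h' | h'
      · exact oldP (m - 1) (by omega) w h'
      · exact newP w h'.1 h'.2
  · intro i hi w hw w' hw'
    rcases Nat.lt_or_ge i (m - 1) with h | h
    · rw [T3_eq_STEP P z c (by omega)] at hw hw'
      exact oldD i (by omega) w hw w' hw'
    · rcases dec i h hi w hw with k | k <;> rcases dec i h hi w' hw' with k' | k'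
      · exact oldD (m - 1) (by omega) w k w' k'
      · exact mixD w k w' k'.1 k'.2
      · rw [hM.symm _ (newP w k.1 k.2).1 _ (oldP (m - 1) (by omega) w' k').1, norm_sub_rev]
        exact mixD w' k' w k.1 k.2
      · exact newD w k.1 k.2 w' k'.1 k'.2
  · intro i hi τ hτ
    rcases Nat.lt_or_ge i (m - 1) with h | h
    · have e : nx (m + 1) i = nx m i := by unfold nx; split_ifs <;> omega
      rw [e]
      have hmem : ((1 - τ : ℝ) * P (c i) + (τ : ℝ) * P (c (nx m i)) : ℂ) ∈ T3 P z m c i := by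
        unfold T3
        rw [hull3_STEP]
        refine ⟨0, 1 - τ, τ, le_rfl, by linarith [hτ.2], hτ.1, by ring, ?_⟩
        push_cast; ring
      rw [gold i (by omega) _ hmem]
      exact F6' i (by omega) τ hτ
    · rcases Nat.lt_or_ge i m with him | him
      · have hieq : i = m - 1 := by omega
        rw [hieq, n1]
        have hmem : ((1 - τ : ℝ) * P (c (m - 1)) + (τ : ℝ) * P (c m) : ℂ) ∈
            T3 P z (m + 1) c (m - 1) := by
          unfold T3
          rw [hull3_STEP, n1]
          refine ⟨0, 1 - τ, τ, le_rfl, by linarith [hτ.2], hτ.1, by ring, ?_⟩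
          push_cast; ring
        rcases dec (m - 1) le_rfl (by omega) _ hmem with k | k
        · have k' := k
          unfold T3 at k'
          rw [n3] at k'
          have hτ0 := edge1_STEP hQ hτ.1 k'
          rw [gold (m - 1) (by omega) _ k, hτ0]
          have := F6' (m - 1) (by omega) 0 ⟨le_rfl, zero_le_one⟩
          rw [n3] at this
          have e1 : ((1 - 0 : ℝ) * P (c (m - 1)) + (0 : ℝ) * P (c m) : ℂ) =
              ((1 - 0 : ℝ) * P (c (m - 1)) + (0 : ℝ) * P (c 0) : ℂ) := by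
            push_cast; ring
          rw [e1, this]
          funext v
          unfold seg
          ring
        · rw [gnew _ k.1]
          exact bar1_STEP hQ.D τ
      · have hieq : i = m := by omega
        rw [hieq, n2]
        have hmem : ((1 - τ : ℝ) * P (c m) + (τ : ℝ) * P (c 0) : ℂ) ∈
            T3 P z (m + 1) c m := by
          unfold T3
          rw [hull3_STEP, n2]
          refine ⟨0, 1 - τ, τ, le_rfl, by linarith [hτ.2], hτ.1, by ring, ?_⟩
          push_cast; ring
        rcases dec m (by omega) (by omega) _ hmem with k | k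
        · have k' := k
          unfold T3 at k'
          rw [n3] at k'
          have hτ1 := edge2_STEP hQ hτ.2 k'
          rw [gold (m - 1) (by omega) _ k, hτ1]
          have := F6' (m - 1) (by omega) 1 ⟨zero_le_one, le_rfl⟩
          rw [n3] at this
          have e1 : ((1 - 1 : ℝ) * P (c m) + (1 : ℝ) * P (c 0) : ℂ) =
              ((1 - 1 : ℝ) * P (c (m - 1)) + (1 : ℝ) * P (c 0) : ℂ) := by
            push_cast; ring
          rw [e1, this]
          funext v
          unfold seg
          ring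
        · rw [gnew _ k.1]
          exact bar2_STEP hQ.D τ

end Pool.Agent.Helper62.GP
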