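import Pool.Agent.Helper62.GP.Z_ZTRI

/-!
# Gilbert-Pollak, chapter COR, part ZIP: angles after the zip
-/

set_option autoImplicit false

namespace Pool.Agent.Helper62.GP

open Pool.Agent.Helper18.GP Pool.Agent.Helper13.GP Relation Classical Finset

variable {N : ℕ} {V : Finset (Fin N)} {G H : SimpleGraph (Fin N)} {s : Fin N} {M : ℕ}
  {c : ℕ → Fin N} {P : Fin N → ℂ}

/-- the renaming -/
noncomputable def rn_ZANG (c : ℕ → Fin N) (M : ℕ) (x : Fin N) : Fin N :=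
  if x = c 0 then c M else x

theorem rnP_ZANG (hP : P (c 0) = P (c M)) (x : Fin N) : P (rn_ZANG c M x) = P x := by
  unfold rn_ZANG
  split_ifs with h
  · rw [h, hP]
  · rfl

theorem rn_zero_ZANG : rn_ZANG c M (c 0) = c M := if_pos rfl

theorem rn_ne_ZANG {x : Fin N} (h : x ≠ c 0) : rn_ZANG c M x = x := if_neg h

theorem cMne_ZANG (Z : Zip V G H s M c) : c M ≠ c 0 := by
  intro h
  have := Z.fan.mono 0 M (by have := Z.three; omega) le_rfl
  rw [h] at this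
  omega

theorem rn_mem_ZANG (Z : Zip V G H s M c) {x : Fin N} (hx : x ∈ V) (hs : x ≠ s) :
    rn_ZANG c M x ∈ zV V s (c 0) := by
  by_cases h : x = c 0
  · rw [h, rn_zero_ZANG]
    exact cmem_ZTRI Z.fan (by have := Z.three; omega) le_rfl
  · rw [rn_ne_ZANG h]
    exact memV_ZTRI.2 ⟨hx, hs, h⟩

theorem posn_ZANG (Z : Zip V G H s M c) {x : Fin N} (hx : x ∈ V) (hs : x ≠ s)
    (h0 : x ≠ c 0) : x ∈ zV V s (c 0) := memV_ZTRI.2 ⟨hx, hs, h0⟩

/-- old triangles survive -/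
theorem up_ZANG (Z : Zip V G H s M c) {a b d : Fin N} (ha : a ∈ V) (hb : b ∈ V) (hd : d ∈ V)
    (has : a ≠ s) (hbs : b ≠ s) (hds : d ≠ s) (hc : Ccw a b d) (hab : G.Adj a b)
    (hbd : G.Adj b d) (had : G.Adj a d) :
    Ccw (rn_ZANG c M a) (rn_ZANG c M b) (rn_ZANG c M d) ∧
      (zG G H s M c).Adj (rn_ZANG c M a) (rn_ZANG c M b) ∧
      (zG G H s M c).Adj (rn_ZANG c M b) (rn_ZANG c M d) ∧
      (zG G H s M c).Adj (rn_ZANG c M a) (rn_ZANG c M d) := by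
  have hM := Z.three
  have h1M : cyc s (c 1) < cyc s (c M) := Z.fan.mono 1 M (by omega) le_rfl
  have hcM := cmem_ZTRI Z.fan (j := M) (by omega) le_rfl
  have key : ∀ x y, x ∈ V → y ∈ V → x ≠ s → y ≠ s → G.Adj x y →
      (zG G H s M c).Adj (rn_ZANG c M x) (rn_ZANG c M y) := by
    intro x y hx hy hxs hys hxy
    have hx' := rn_mem_ZANG Z hx hxs
    have hy' := rn_mem_ZANG Z hy hys
    by_cases hx0 : x = c 0
    · subst hx0
      have hy0 : y ≠ c 0 := hxy.ne.symm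
      have hyV' := posn_ZANG Z hy hys hy0
      have h1 := first_ZTRI Z.fan (by omega) hyV' hxy
      rw [rn_zero_ZANG, rn_ne_ZANG hy0]
      have hne : c M ≠ y := by rintro rfl; omega
      exact adj_ZTRI hne hcM hyV' (Or.inr (Or.inl ⟨rfl, hxy⟩))
    · have hxV' := posn_ZANG Z hx hxs hx0
      by_cases hy0 : y = c 0
      · subst hy0
        have h1 := first_ZTRI Z.fan (by omega) hxV' hxy.symm
        rw [rn_zero_ZANG, rn_ne_ZANG hx0]
        have hne : x ≠ c M := by rintro rfl; omega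
        exact adj_ZTRI hne hxV' hcM (Or.inr (Or.inr (Or.inl ⟨rfl, hxy.symm⟩)))
      · have hyV' := posn_ZANG Z hy hys hy0
        rw [rn_ne_ZANG hx0, rn_ne_ZANG hy0]
        exact adj_ZTRI hxy.ne hxV' hyV' (Or.inl hxy)
  refine ⟨?_, key a b ha hb has hbs hab, key b d hb hd hbs hds hbd,
    key a d ha hd has hds had⟩
  by_cases ha0 : a = c 0
  · subst ha0
    have hb' := posn_ZANG Z hb hbs hab.ne.symm
    have hd' := posn_ZANG Z hd hds had.ne.symm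
    have h1 := first_ZTRI Z.fan (by omega) hb' hab
    have h2 := first_ZTRI Z.fan (by omega) hd' had
    have h3 := pos_ZTRI Z.fan hb'
    have h4 := pos_ZTRI Z.fan hd'
    rw [rn_zero_ZANG, rn_ne_ZANG hab.ne.symm, rn_ne_ZANG had.ne.symm]
    rw [Ccw_base s] at hc ⊢
    omega
  · have ha' := posn_ZANG Z ha has ha0
    by_cases hb0 : b = c 0
    · subst hb0
      have hd' := posn_ZANG Z hd hds hbd.ne.symm
      have h1 := first_ZTRI Z.fan (by omega) ha' hab.symm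
      have h2 := first_ZTRI Z.fan (by omega) hd' hbd
      have h3 := pos_ZTRI Z.fan ha'
      have h4 := pos_ZTRI Z.fan hd'
      rw [rn_zero_ZANG, rn_ne_ZANG ha0, rn_ne_ZANG hbd.ne.symm]
      rw [Ccw_base s] at hc ⊢
      omega
    · have hb' := posn_ZANG Z hb hbs hb0
      by_cases hd0 : d = c 0
      · subst hd0
        have h1 := first_ZTRI Z.fan (by omega) ha' had.symm
        have h2 := first_ZTRI Z.fan (by omega) hb' hbd.symm
        have h3 := pos_ZTRI Z.fan ha'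
        have h4 := pos_ZTRI Z.fan hb'
        rw [rn_zero_ZANG, rn_ne_ZANG ha0, rn_ne_ZANG hb0]
        rw [Ccw_base s] at hc ⊢
        omega
      · rw [rn_ne_ZANG ha0, rn_ne_ZANG hb0, rn_ne_ZANG hd0]
        exact hc

/-- edges between points of one closed pocket are old -/
theorem pair1_ZANG (Z : Zip V G H s M c) {i : ℕ} (hi : i < M) {x z : Fin N}
    (hx : x ∈ zV V s (c 0)) (hz : z ∈ zV V s (c 0))
    (h1 : cyc s (c i) ≤ cyc s x ∧ cyc s x ≤ cyc s (c (i + 1)))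
    (h2 : cyc s (c i) ≤ cyc s z ∧ cyc s z ≤ cyc s (c (i + 1)))
    (h : (zG G H s M c).Adj x z) : G.Adj x z := by
  have hM := Z.three
  have hlast : cyc s (c M) ≤ cyc s (c (i + 1)) → i + 1 = M := by
    intro h
    by_contra hne
    have := Z.fan.mono (i + 1) M (by omega) le_rfl
    omega
  have h1M : i + 1 = M → cyc s (c 1) < cyc s (c i) := fun hh =>
    Z.fan.mono 1 i (by omega) hi.le
  rcases cls_ZTRI Z hx hz h with ⟨k1, -⟩ | ⟨rfl, k1, k2⟩ | ⟨rfl, k1, k2⟩ | ⟨k1, k2, k3⟩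
  · exact k1
  · have := h1M (hlast h1.2)
    omega
  · have := h1M (hlast h2.2)
    omega
  · have h3 := (posC_ZTRI Z.fan k1).2.2 i hi
    have h4 := (posC_ZTRI Z.fan k2).2.2 i hi
    have hx' : cyc s x = cyc s (c i) ∨ cyc s x = cyc s (c (i + 1)) := by omega
    have hz' : cyc s z = cyc s (c i) ∨ cyc s z = cyc s (c (i + 1)) := by omega
    rcases hx' with hx' | hx' <;> rcases hz' with hz' | hz'
    · exact absurd (cyc_inj (hx'.trans hz'.symm)) h.ne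
    · rw [cyc_inj hx', cyc_inj hz']; exact Z.fan.cons i hi
    · rw [cyc_inj hx', cyc_inj hz']; exact (Z.fan.cons i hi).symm
    · exact absurd (cyc_inj (hx'.trans hz'.symm)) h.ne

/-- edges at `c M` from the first pocket are old edges at `c 0` -/
theorem pair2_ZANG (Z : Zip V G H s M c) {x : Fin N}
    (hx : x ∈ zV V s (c 0)) (h1 : cyc s x ≤ cyc s (c 1))
    (h : (zG G H s M c).Adj x (c M)) : G.Adj x (c 0) := by
  have hM := Z.three
  have hcM := cmem_ZTRI Z.fan (j := M) (by omega) le_rfl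
  have h1M : cyc s (c 1) < cyc s (c M) := Z.fan.mono 1 M (by omega) le_rfl
  rcases cls_ZTRI Z hx hcM h with ⟨k1, j, hj, k2, k3⟩ | ⟨rfl, k1, k2⟩ | ⟨-, k1, k2⟩ |
    ⟨k1, k2, k3⟩
  · exfalso
    have hj1 : j + 1 = M := by
      by_contra hne
      have := Z.fan.mono (j + 1) M (by omega) le_rfl
      omega
    have := Z.fan.mono 1 j (by omega) hj.le
    omega
  · omega
  · exact k1.symm
  · have h3 := (posC_ZTRI Z.fan k1).1
    rw [cyc_inj (le_antisymm h1 h3)]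
    exact (Z.fan.cons 0 (by omega)).symm

/-- new neighbours of a vertex inside a pocket -/
theorem nbr_ZANG (Z : Zip V G H s M c) {i : ℕ} (hi : i < M) {a x : Fin N}
    (ha : a ∈ zV V s (c 0)) (hx : x ∈ zV V s (c 0))
    (h1 : cyc s (c i) < cyc s a ∧ cyc s a < cyc s (c (i + 1)))
    (h : (zG G H s M c).Adj a x) :
    (G.Adj a x ∧ cyc s (c i) ≤ cyc s x ∧ cyc s x ≤ cyc s (c (i + 1))) ∨
      (i = 0 ∧ x = c M ∧ G.Adj (c 0) a) := by
  have hM := Z.three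
  rcases cls_ZTRI Z ha hx h with ⟨k1, j, hj, k2, k3⟩ | ⟨rfl, k1, k2⟩ | ⟨rfl, k1, k2⟩ |
    ⟨k1, k2, k3⟩
  · left
    have hij : j = i := by
      rcases Nat.lt_trichotomy j i with h2 | h2 | h2
      · have := mono_ZTRI Z.fan (i := j + 1) (j := i) (by omega) hi.le
        omega
      · exact h2
      · have := mono_ZTRI Z.fan (i := i + 1) (j := j) (by omega) hj.le
        omega
    subst hij
    exact ⟨k1, k3⟩
  · have := mono_ZTRI Z.fan (i := i + 1) (j := M) (by omega) le_rfl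
    omega
  · right
    refine ⟨?_, rfl, k1⟩
    by_contra hne
    have := mono_ZTRI Z.fan (i := 1) (j := i) (by omega) hi.le
    omega
  · have h3 := (posC_ZTRI Z.fan k1).2.2 i hi
    omega

/-- new triangles with a vertex outside `C` are old -/
theorem downA_ZANG (Z : Zip V G H s M c) {a b d : Fin N} (ha : a ∈ zV V s (c 0))
    (hb : b ∈ zV V s (c 0)) (hd : d ∈ zV V s (c 0)) (hc : Ccw a b d)
    (hab : (zG G H s M c).Adj a b) (hbd : (zG G H s M c).Adj b d)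
    (had : (zG G H s M c).Adj a d) (haC : a ∉ Cs M (fun i => c (i + 1))) :
    ∃ a' b' d', (a' ∈ V ∧ b' ∈ V ∧ d' ∈ V) ∧ (a' ≠ s ∧ b' ≠ s ∧ d' ≠ s) ∧
      (rn_ZANG c M a' = a ∧ rn_ZANG c M b' = b ∧ rn_ZANG c M d' = d) ∧
      Ccw a' b' d' ∧ G.Adj a' b' ∧ G.Adj b' d' ∧ G.Adj a' d' := by
  have hM := Z.three
  have F := Z.fan
  have hpa := pos_ZTRI F ha
  have hpb := pos_ZTRI F hb
  have hpd := pos_ZTRI F hd
  obtain ⟨haV, has, ha0⟩ := memV_ZTRI.1 ha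
  obtain ⟨hbV, hbs, hb0⟩ := memV_ZTRI.1 hb
  obtain ⟨hdV, hds, hd0⟩ := memV_ZTRI.1 hd
  have h0s : c 0 ≠ s := cyc_pos.1 F.pos
  have h0V : c 0 ∈ V := F.mem 0 (by omega)
  have haM : cyc s a < cyc s (c M) := lt_of_le_of_ne hpa.2 fun h =>
    haC (memC_ZTRI.2 ⟨M, by omega, le_rfl, cyc_inj h⟩)
  obtain ⟨i, hi, h1, h2⟩ := pocket_ZTRI (fun i => cyc s (c i)) (cyc s a) M hpa.1.le haM
  have h1' : cyc s (c i) < cyc s a := by
    refine lt_of_le_of_ne h1 fun h => ?_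
    have hxi := (cyc_inj h).symm
    rcases Nat.eq_zero_or_pos i with h0 | h0
    · rw [h0] at hxi; exact ha0 hxi
    · exact haC (memC_ZTRI.2 ⟨i, h0, hi.le, hxi⟩)
  rcases nbr_ZANG Z hi ha hb ⟨h1', h2⟩ hab with ⟨k1, k2⟩ | ⟨hi0, rfl, k1⟩
  · rcases nbr_ZANG Z hi ha hd ⟨h1', h2⟩ had with ⟨l1, l2⟩ | ⟨hi0, rfl, l1⟩
    · exact ⟨a, b, d, ⟨haV, hbV, hdV⟩, ⟨has, hbs, hds⟩, ⟨rn_ne_ZANG ha0, rn_ne_ZANG hb0,
        rn_ne_ZANG hd0⟩, hc, k1, pair1_ZANG Z hi hb hd k2 l2 hbd, l1⟩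
    · subst hi0
      have h3 := pair2_ZANG Z hb k2.2 hbd
      refine ⟨a, b, c 0, ⟨haV, hbV, h0V⟩, ⟨has, hbs, h0s⟩, ⟨rn_ne_ZANG ha0, rn_ne_ZANG hb0,
        rn_zero_ZANG⟩, ?_, k1, h3, l1.symm⟩
      have h4 := hbd.ne
      have h5 : cyc s b ≠ cyc s (c M) := fun h => h4 (cyc_inj h)
      rw [Ccw_base s] at hc ⊢
      omega
  · subst hi0
    rcases nbr_ZANG Z hi ha hd ⟨h1', h2⟩ had with ⟨l1, l2⟩ | ⟨-, rfl, l1⟩
    · have h3 := pair2_ZANG Z hd l2.2 hbd.symm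
      refine ⟨a, c 0, d, ⟨haV, h0V, hdV⟩, ⟨has, h0s, hds⟩, ⟨rn_ne_ZANG ha0, rn_zero_ZANG,
        rn_ne_ZANG hd0⟩, ?_, k1.symm, h3.symm, l1⟩
      have h4 := hbd.ne
      have h5 : cyc s (c M) ≠ cyc s d := fun h => h4 (cyc_inj h)
      rw [Ccw_base s] at hc ⊢
      omega
    · exact absurd rfl hbd.ne

theorem down_ZANG (Z : Zip V G H s M c) {a b d : Fin N} (ha : a ∈ zV V s (c 0))
    (hb : b ∈ zV V s (c 0)) (hd : d ∈ zV V s (c 0)) (hc : Ccw a b d)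
    (hab : (zG G H s M c).Adj a b) (hbd : (zG G H s M c).Adj b d)
    (had : (zG G H s M c).Adj a d)
    (h : ¬ (a ∈ Cs M (fun i => c (i + 1)) ∧ b ∈ Cs M (fun i => c (i + 1)) ∧
      d ∈ Cs M (fun i => c (i + 1)))) :
    ∃ a' b' d', (a' ∈ V ∧ b' ∈ V ∧ d' ∈ V) ∧ (a' ≠ s ∧ b' ≠ s ∧ d' ≠ s) ∧
      (rn_ZANG c M a' = a ∧ rn_ZANG c M b' = b ∧ rn_ZANG c M d' = d) ∧
      Ccw a' b' d' ∧ G.Adj a' b' ∧ G.Adj b' d' ∧ G.Adj a' d' := by
  by_cases haC : a ∈ Cs M (fun i => c (i + 1))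
  · by_cases hbC : b ∈ Cs M (fun i => c (i + 1))
    · have hdC : d ∉ Cs M (fun i => c (i + 1)) := fun hh => h ⟨haC, hbC, hh⟩
      obtain ⟨d', a', b', ⟨h1, h2, h3⟩, ⟨h4, h5, h6⟩, ⟨h7, h8, h9⟩, h10, h11, h12, h13⟩ :=
        downA_ZANG Z hd ha hb (Ccw_rot' hc) had.symm hab hbd.symm hdC
      exact ⟨a', b', d', ⟨h2, h3, h1⟩, ⟨h5, h6, h4⟩, ⟨h8, h9, h7⟩, Ccw_rot h10, h12,
        h13.symm, h11.symm⟩
    · obtain ⟨b', d', a', ⟨h1, h2, h3⟩, ⟨h4, h5, h6⟩, ⟨h7, h8, h9⟩, h10, h11, h12, h13⟩ :=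
        downA_ZANG Z hb hd ha (Ccw_rot hc) hbd had.symm hab.symm hbC
      exact ⟨a', b', d', ⟨h3, h1, h2⟩, ⟨h6, h4, h5⟩, ⟨h9, h7, h8⟩, Ccw_rot' h10, h13.symm,
        h11, h12.symm⟩
  · exact downA_ZANG Z ha hb hd hc hab hbd had haC

/-- new edges inside `C` are edges of `H` -/
theorem adjC_ZANG (Z : Zip V G H s M c) {x y : Fin N} (hx : x ∈ Cs M (fun i => c (i + 1)))
    (hy : y ∈ Cs M (fun i => c (i + 1))) (h : (zG G H s M c).Adj x y) : H.Adj x y := by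
  have hM := Z.three
  have hx' := CsubV_ZTRI Z.fan hx
  have hy' := CsubV_ZTRI Z.fan hy
  have hpx := posC_ZTRI Z.fan hx
  have hpy := posC_ZTRI Z.fan hy
  have hcons : ∀ i, i < M → cyc s x = cyc s (c i) → cyc s y = cyc s (c (i + 1)) →
      Bd (Cs M (fun i => c (i + 1))) x y := by
    intro i hi h1 h2
    refine ⟨hx, hy, h.ne, Or.inl fun v hv hcv => ?_⟩
    have h3 := (posC_ZTRI Z.fan hv).2.2 i hi
    have h4 := Z.fan.mono i (i + 1) (by omega) (by omega)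
    rw [Ccw_base s] at hcv
    omega
  have hcons' : ∀ i, i < M → cyc s y = cyc s (c i) → cyc s x = cyc s (c (i + 1)) →
      Bd (Cs M (fun i => c (i + 1))) x y := by
    intro i hi h1 h2
    refine ⟨hx, hy, h.ne, Or.inr fun v hv hcv => ?_⟩
    have h3 := (posC_ZTRI Z.fan hv).2.2 i hi
    have h4 := Z.fan.mono i (i + 1) (by omega) (by omega)
    rw [Ccw_base s] at hcv
    omega
  rcases cls_ZTRI Z hx' hy' h with ⟨k1, j, hj, k2, k3⟩ | ⟨rfl, k1, k2⟩ | ⟨rfl, k1, k2⟩ |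
    ⟨k1, k2, k3⟩
  · have h3 := hpx.2.2 j hj
    have h4 := hpy.2.2 j hj
    have hne : cyc s x ≠ cyc s y := fun hh => h.ne (cyc_inj hh)
    have h5 : (cyc s x = cyc s (c j) ∧ cyc s y = cyc s (c (j + 1))) ∨
        (cyc s y = cyc s (c j) ∧ cyc s x = cyc s (c (j + 1))) := by omega
    rcases h5 with h5 | h5
    · exact bdAdj N _ H Z.triH x y (hcons j hj h5.1 h5.2)
    · exact bdAdj N _ H Z.triH x y (hcons' j hj h5.1 h5.2)
  · refine bdAdj N _ H Z.triH _ y ⟨hx, hy, h.ne, Or.inl fun v hv hcv => ?_⟩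
    have h3 := (posC_ZTRI Z.fan hv)
    have h4 := h3.1; have h5 := h3.2.1; have h6 := hpy.1
    clear h3 hpx hpy
    rw [Ccw_base s] at hcv
    omega
  · refine bdAdj N _ H Z.triH x _ ⟨hx, hy, h.ne, Or.inr fun v hv hcv => ?_⟩
    have h3 := (posC_ZTRI Z.fan hv)
    have h4 := h3.1; have h5 := h3.2.1; have h6 := hpx.1
    clear h3 hpx hpy
    rw [Ccw_base s] at hcv
    omega
  · exact k3

theorem mem_tris_ZANG {V : Finset (Fin N)} {G : SimpleGraph (Fin N)} {v : Fin N}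
    {e : Fin N × Fin N} : e ∈ tris V G v ↔ (e.1 ∈ V ∧ e.2 ∈ V) ∧ Ccw v e.1 e.2 ∧
      G.Adj v e.1 ∧ G.Adj v e.2 ∧ G.Adj e.1 e.2 := by
  unfold tris
  rw [Finset.mem_filter, Finset.mem_product]

/-- the new graph is positive -/
theorem St_ZANG (Z : Zip V G H s M c) (hP : P (c 0) = P (c M)) (h1 : St V G P)
    (h2 : St (Cs M fun i => c (i + 1)) H P) : St (zV V s (c 0)) (zG G H s M c) P := by
  intro a ha b hb d hd hc hab hbd had
  by_cases hC : a ∈ Cs M (fun i => c (i + 1)) ∧ b ∈ Cs M (fun i => c (i + 1)) ∧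
      d ∈ Cs M (fun i => c (i + 1))
  · exact h2 a hC.1 b hC.2.1 d hC.2.2 hc (adjC_ZANG Z hC.1 hC.2.1 hab)
      (adjC_ZANG Z hC.2.1 hC.2.2 hbd) (adjC_ZANG Z hC.1 hC.2.2 had)
  · obtain ⟨a', b', d', ⟨k1, k2, k3⟩, -, ⟨k7, k8, k9⟩, k10, k11, k12, k13⟩ :=
      down_ZANG Z ha hb hd hc hab hbd had hC
    rw [← k7, ← k8, ← k9, rnP_ZANG hP, rnP_ZANG hP, rnP_ZANG hP]
    exact h1 a' k1 b' k2 d' k3 k10 k11 k12 k13

/-- old triangles without `s` -/
noncomputable def T0_ZANG (V : Finset (Fin N)) (G : SimpleGraph (Fin N)) (s v : Fin N) :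
    Finset (Fin N × Fin N) := (tris V G v).filter fun e => e.1 ≠ s ∧ e.2 ≠ s

/-- their angle sum -/
noncomputable def S0_ZANG (V : Finset (Fin N)) (G : SimpleGraph (Fin N)) (P : Fin N → ℂ)
    (s v : Fin N) : ℝ := ∑ e ∈ T0_ZANG V G s v, an (P v) (P e.1) (P e.2)

theorem mem_T0_ZANG {v : Fin N} {e : Fin N × Fin N} : e ∈ T0_ZANG V G s v ↔
    ((e.1 ∈ V ∧ e.2 ∈ V) ∧ Ccw v e.1 e.2 ∧ G.Adj v e.1 ∧ G.Adj v e.2 ∧ G.Adj e.1 e.2) ∧
      e.1 ≠ s ∧ e.2 ≠ s := by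
  unfold T0_ZANG
  rw [Finset.mem_filter, mem_tris_ZANG]

/-- vertices adjacent to both `c 0` and `c M` -/
theorem both_ZANG (Z : Zip V G H s M c) {v : Fin N} (hv : v ∈ V) (hs : v ≠ s)
    (h1 : G.Adj v (c 0)) (h2 : G.Adj v (c M)) : False := by
  have hM := Z.three
  have hv' := posn_ZANG Z hv hs h1.ne
  have h3 := first_ZTRI Z.fan (by omega) hv' h1.symm
  have hcM := cmem_ZTRI Z.fan (j := M) (by omega) le_rfl
  obtain ⟨j, hj, k1, k2⟩ := Z.fan.pocket v hv (c M) (memV_ZTRI.1 hcM).1 hs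
    (memV_ZTRI.1 hcM).2.1 h2
  have hj1 : j + 1 = M := by
    by_contra hne
    have := Z.fan.mono (j + 1) M (by omega) le_rfl
    omega
  have := Z.fan.mono 1 j (by omega) hj.le
  omega

theorem nadj_ZANG (Z : Zip V G H s M c) : ¬ G.Adj (c 0) (c M) := by
  intro h
  have hM := Z.three
  have hcM := cmem_ZTRI Z.fan (j := M) (by omega) le_rfl
  have h1 := first_ZTRI Z.fan (by omega) hcM h
  have := Z.fan.mono 1 M (by omega) le_rfl
  omega

/-- adjacent members of the fan are consecutive -/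
theorem consec_ZANG (Z : Zip V G H s M c) {i j : ℕ} (hi : i ≤ M) (hj : j ≤ M)
    (h : G.Adj (c i) (c j)) : i = j + 1 ∨ j = i + 1 := by
  have F := Z.fan
  have hns : ∀ i ≤ M, c i ≠ s := by
    intro i hi hh
    have h1 := mono_ZTRI F (i := 0) (j := i) (by omega) hi
    have h2 := F.pos
    rw [hh, cyc_self] at h1
    omega
  obtain ⟨k, hk, h1, h2⟩ := F.pocket (c i) (F.mem i hi) (c j) (F.mem j hj) (hns i hi)
    (hns j hj) h
  have hloc : ∀ i ≤ M, cyc s (c k) ≤ cyc s (c i) → cyc s (c i) ≤ cyc s (c (k + 1)) →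
      i = k ∨ i = k + 1 := by
    intro i hi h1 h2
    by_contra hcon
    push Not at hcon
    rcases Nat.lt_or_ge i k with h | h
    · have := F.mono i k h hk.le
      omega
    · have := F.mono (k + 1) i (by omega) hi
      omega
  have hne : i ≠ j := by rintro rfl; exact h.ne rfl
  have h3 := hloc i hi h1.1 h1.2
  have h4 := hloc j hj h2.1 h2.2
  omega

/-- a renamed vertex in `C` comes from the fan -/
theorem rnC_ZANG (Z : Zip V G H s M c) {x : Fin N}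
    (h : rn_ZANG c M x ∈ Cs M (fun i => c (i + 1))) : ∃ j ≤ M, x = c j := by
  by_cases h0 : x = c 0
  · exact ⟨0, by omega, h0⟩
  · rw [rn_ne_ZANG h0] at h
    obtain ⟨j, -, h2, h3⟩ := memC_ZTRI.1 h
    exact ⟨j, h2, h3⟩

/-- an old triangle is not inside `C` -/
theorem notC_ZANG (Z : Zip V G H s M c) {a b d : Fin N} (hab : G.Adj a b) (hbd : G.Adj b d)
    (had : G.Adj a d) : ¬ (rn_ZANG c M a ∈ Cs M (fun i => c (i + 1)) ∧
      rn_ZANG c M b ∈ Cs M (fun i => c (i + 1)) ∧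
      rn_ZANG c M d ∈ Cs M (fun i => c (i + 1))) := by
  rintro ⟨h1, h2, h3⟩
  obtain ⟨i, hi, rfl⟩ := rnC_ZANG Z h1
  obtain ⟨j, hj, rfl⟩ := rnC_ZANG Z h2
  obtain ⟨k, hk, rfl⟩ := rnC_ZANG Z h3
  have := consec_ZANG Z hi hj hab
  have := consec_ZANG Z hj hk hbd
  have := consec_ZANG Z hi hk had
  omega

/-- the renaming of pairs -/
noncomputable def R_ZANG (c : ℕ → Fin N) (M : ℕ) (e : Fin N × Fin N) : Fin N × Fin N :=
  (rn_ZANG c M e.1, rn_ZANG c M e.2)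

theorem R_inj_ZANG (Z : Zip V G H s M c) {v : Fin N} (hv : v ∈ V) (hs : v ≠ s) :
    Set.InjOn (R_ZANG c M) (T0_ZANG V G s v : Set (Fin N × Fin N)) := by
  have key : ∀ x y, G.Adj v x → G.Adj v y → rn_ZANG c M x = rn_ZANG c M y → x = y := by
    intro x y hx hy h
    by_cases hx0 : x = c 0
    · by_cases hy0 : y = c 0
      · rw [hx0, hy0]
      · rw [hx0, rn_zero_ZANG, rn_ne_ZANG hy0] at h
        rw [hx0] at hx
        rw [← h] at hy
        exact (both_ZANG Z hv hs hx hy).elim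
    · by_cases hy0 : y = c 0
      · rw [hy0, rn_zero_ZANG, rn_ne_ZANG hx0] at h
        rw [hy0] at hy
        rw [h] at hx
        exact (both_ZANG Z hv hs hy hx).elim
      · rwa [rn_ne_ZANG hx0, rn_ne_ZANG hy0] at h
  rintro ⟨x1, y1⟩ h1 ⟨x2, y2⟩ h2 heq
  rw [Finset.mem_coe, mem_T0_ZANG] at h1 h2
  unfold R_ZANG at heq
  rw [Prod.mk.injEq] at heq
  rw [Prod.mk.injEq]
  exact ⟨key _ _ h1.1.2.2.1 h2.1.2.2.1 heq.1, key _ _ h1.1.2.2.2.1 h2.1.2.2.2.1 heq.2⟩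

theorem up_mem_ZANG (Z : Zip V G H s M c) {v : Fin N} (hv : v ∈ V) (hs : v ≠ s)
    {e : Fin N × Fin N} (he : e ∈ T0_ZANG V G s v) :
    R_ZANG c M e ∈ tris (zV V s (c 0)) (zG G H s M c) (rn_ZANG c M v) ∧
      ¬ (rn_ZANG c M v ∈ Cs M (fun i => c (i + 1)) ∧
        R_ZANG c M e ∈ tris (Cs M fun i => c (i + 1)) H (rn_ZANG c M v)) := by
  rw [mem_T0_ZANG] at he
  obtain ⟨⟨⟨h1, h2⟩, h3, h4, h5, h6⟩, h7, h8⟩ := he
  obtain ⟨k1, k2, k3, k4⟩ := up_ZANG Z hv h1 h2 hs h7 h8 h3 h4 h6 h5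
  refine ⟨mem_tris_ZANG.2 ⟨⟨rn_mem_ZANG Z h1 h7, rn_mem_ZANG Z h2 h8⟩, k1, k2, k4, k3⟩, ?_⟩
  rintro ⟨k5, k6⟩
  rw [mem_tris_ZANG] at k6
  exact notC_ZANG Z h4 h6 h5 ⟨k5, k6.1.1, k6.1.2⟩

/-- the new triangles at `v ≠ c M` -/
theorem tris_ZANG (Z : Zip V G H s M c) {v : Fin N} (hv : v ∈ zV V s (c 0)) (hvM : v ≠ c M) :
    tris (zV V s (c 0)) (zG G H s M c) v = (T0_ZANG V G s v).image (R_ZANG c M) ∪
      (if v ∈ Cs M (fun i => c (i + 1)) then tris (Cs M fun i => c (i + 1)) H v else ∅) := by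
  obtain ⟨hvV, hvs, hv0⟩ := memV_ZTRI.1 hv
  have hM := Z.three
  ext e
  rw [Finset.mem_union, Finset.mem_image]
  constructor
  · intro he
    have he' := mem_tris_ZANG.1 he
    obtain ⟨⟨h1, h2⟩, h3, h4, h5, h6⟩ := he'
    by_cases hC : v ∈ Cs M (fun i => c (i + 1)) ∧ e.1 ∈ Cs M (fun i => c (i + 1)) ∧
        e.2 ∈ Cs M (fun i => c (i + 1))
    · right
      rw [if_pos hC.1]
      exact mem_tris_ZANG.2 ⟨hC.2, h3, adjC_ZANG Z hC.1 hC.2.1 h4, adjC_ZANG Z hC.1 hC.2.2 h5,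
        adjC_ZANG Z hC.2.1 hC.2.2 h6⟩
    · left
      obtain ⟨a', b', d', ⟨k1, k2, k3⟩, ⟨k4, k5, k6⟩, ⟨k7, k8, k9⟩, k10, k11, k12, k13⟩ :=
        down_ZANG Z hv h1 h2 h3 h4 h6 h5 hC
      have ha' : a' = v := by
        by_cases h0 : a' = c 0
        · rw [h0, rn_zero_ZANG] at k7
          exact absurd k7.symm hvM
        · rwa [rn_ne_ZANG h0] at k7
      subst ha'
      exact ⟨(b', d'), mem_T0_ZANG.2 ⟨⟨⟨k2, k3⟩, k10, k11, k13, k12⟩, k5, k6⟩,
        Prod.ext k8 k9⟩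
  · rintro (⟨e', he', rfl⟩ | he)
    · have := (up_mem_ZANG Z hvV hvs he').1
      rwa [rn_ne_ZANG hv0] at this
    · split_ifs at he with hvC
      · obtain ⟨⟨h1, h2⟩, h3, h4, h5, h6⟩ := mem_tris_ZANG.1 he
        have g1 := CsubV_ZTRI Z.fan h1
        have g2 := CsubV_ZTRI Z.fan h2
        exact mem_tris_ZANG.2 ⟨⟨g1, g2⟩, h3,
          adj_ZTRI h4.ne hv g1 (Or.inr (Or.inr (Or.inr ⟨hvC, h1, h4⟩))),
          adj_ZTRI h5.ne hv g2 (Or.inr (Or.inr (Or.inr ⟨hvC, h2, h5⟩))),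
          adj_ZTRI h6.ne g1 g2 (Or.inr (Or.inr (Or.inr ⟨h1, h2, h6⟩)))⟩
      · simp at he

theorem ang_ZANG (Z : Zip V G H s M c) (hP : P (c 0) = P (c M)) {v : Fin N}
    (hv : v ∈ zV V s (c 0)) (hvM : v ≠ c M) :
    ang (zV V s (c 0)) (zG G H s M c) P v = S0_ZANG V G P s v +
      (if v ∈ Cs M (fun i => c (i + 1)) then ang (Cs M fun i => c (i + 1)) H P v else 0) := by
  obtain ⟨hvV, hvs, hv0⟩ := memV_ZTRI.1 hv
  unfold ang
  rw [tris_ZANG Z hv hvM, Finset.sum_union, Finset.sum_image (R_inj_ZANG Z hvV hvs)]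
  · congr 1
    · unfold S0_ZANG
      refine Finset.sum_congr rfl fun e _ => ?_
      simp only [R_ZANG, rnP_ZANG hP]
    · split_ifs <;> simp
  · rw [Finset.disjoint_left]
    intro e he hh
    rw [Finset.mem_image] at he
    obtain ⟨e', he', rfl⟩ := he
    split_ifs at hh with hvC
    · have h1 := (up_mem_ZANG Z hvV hvs he').2
      rw [rn_ne_ZANG hv0] at h1
      exact h1 ⟨hvC, hh⟩
    · simp at hh

theorem angM_ZANG (Z : Zip V G H s M c) (hP : P (c 0) = P (c M)) :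
    ang (zV V s (c 0)) (zG G H s M c) P (c M) = S0_ZANG V G P s (c M) +
      S0_ZANG V G P s (c 0) + ang (Cs M fun i => c (i + 1)) H P (c M) := by
  have hM := Z.three
  have hv := cmem_ZTRI Z.fan (j := M) (by omega) le_rfl
  have hMC : c M ∈ Cs M (fun i => c (i + 1)) := memC_ZTRI.2 ⟨M, by omega, le_rfl, rfl⟩
  obtain ⟨hvV, hvs, hv0⟩ := memV_ZTRI.1 hv
  have h0s : c 0 ≠ s := cyc_pos.1 Z.fan.pos
  have h0V : c 0 ∈ V := Z.fan.mem 0 (by omega)
  have hR : ∀ e ∈ T0_ZANG V G s (c M), R_ZANG c M e = e := by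
    intro e he
    rw [mem_T0_ZANG] at he
    have h1 : e.1 ≠ c 0 := fun h => nadj_ZANG Z (h ▸ he.1.2.2.1.symm)
    have h2 : e.2 ≠ c 0 := fun h => nadj_ZANG Z (h ▸ he.1.2.2.2.1.symm)
    unfold R_ZANG
    rw [rn_ne_ZANG h1, rn_ne_ZANG h2]
  have hR0 : ∀ e ∈ T0_ZANG V G s (c 0), R_ZANG c M e = e := by
    intro e he
    rw [mem_T0_ZANG] at he
    unfold R_ZANG
    rw [rn_ne_ZANG he.1.2.2.1.ne.symm, rn_ne_ZANG he.1.2.2.2.1.ne.symm]
  have hset : tris (zV V s (c 0)) (zG G H s M c) (c M) = (T0_ZANG V G s (c M) ∪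
      T0_ZANG V G s (c 0)) ∪ tris (Cs M fun i => c (i + 1)) H (c M) := by
    ext e
    rw [Finset.mem_union, Finset.mem_union]
    constructor
    · intro he
      obtain ⟨⟨h1, h2⟩, h3, h4, h5, h6⟩ := mem_tris_ZANG.1 he
      by_cases hC : c M ∈ Cs M (fun i => c (i + 1)) ∧ e.1 ∈ Cs M (fun i => c (i + 1)) ∧
          e.2 ∈ Cs M (fun i => c (i + 1))
      · right
        exact mem_tris_ZANG.2 ⟨hC.2, h3, adjC_ZANG Z hC.1 hC.2.1 h4, adjC_ZANG Z hC.1 hC.2.2 h5,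
          adjC_ZANG Z hC.2.1 hC.2.2 h6⟩
      · left
        obtain ⟨a', b', d', ⟨k1, k2, k3⟩, ⟨k4, k5, k6⟩, ⟨k7, k8, k9⟩, k10, k11, k12, k13⟩ :=
          down_ZANG Z hv h1 h2 h3 h4 h6 h5 hC
        by_cases h0 : a' = c 0
        · right
          subst h0
          have hm : (b', d') ∈ T0_ZANG V G s (c 0) :=
            mem_T0_ZANG.2 ⟨⟨⟨k2, k3⟩, k10, k11, k13, k12⟩, k5, k6⟩
          have h7 : R_ZANG c M (b', d') = e := Prod.ext k8 k9
          rw [← h7, hR0 _ hm]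
          exact hm
        · left
          rw [rn_ne_ZANG h0] at k7
          subst k7
          have hm : (b', d') ∈ T0_ZANG V G s (c M) :=
            mem_T0_ZANG.2 ⟨⟨⟨k2, k3⟩, k10, k11, k13, k12⟩, k5, k6⟩
          have h7 : R_ZANG c M (b', d') = e := Prod.ext k8 k9
          rw [← h7, hR _ hm]
          exact hm
    · rintro ((he | he) | he)
      · have := (up_mem_ZANG Z hvV hvs he).1
        rwa [rn_ne_ZANG hv0, hR e he] at this
      · have := (up_mem_ZANG Z h0V h0s he).1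
        rwa [rn_zero_ZANG, hR0 e he] at this
      · obtain ⟨⟨h1, h2⟩, h3, h4, h5, h6⟩ := mem_tris_ZANG.1 he
        have g1 := CsubV_ZTRI Z.fan h1
        have g2 := CsubV_ZTRI Z.fan h2
        exact mem_tris_ZANG.2 ⟨⟨g1, g2⟩, h3,
          adj_ZTRI h4.ne hv g1 (Or.inr (Or.inr (Or.inr ⟨hMC, h1, h4⟩))),
          adj_ZTRI h5.ne hv g2 (Or.inr (Or.inr (Or.inr ⟨hMC, h2, h5⟩))),
          adj_ZTRI h6.ne g1 g2 (Or.inr (Or.inr (Or.inr ⟨h1, h2, h6⟩)))⟩
  unfold ang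
  rw [hset, Finset.sum_union, Finset.sum_union]
  · congr 1
    congr 1
    unfold S0_ZANG
    rw [hP]
  · rw [Finset.disjoint_left]
    intro e he hh
    rw [mem_T0_ZANG] at he hh
    exact both_ZANG Z he.1.1.1 he.2.1 hh.1.2.2.1.symm he.1.2.2.1.symm
  · rw [Finset.disjoint_left]
    intro e he hh
    rw [Finset.mem_union] at he
    rcases he with he | he
    · have h1 := (up_mem_ZANG Z hvV hvs he).2
      rw [rn_ne_ZANG hv0, hR e he] at h1
      exact h1 ⟨hMC, hh⟩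
    · have h1 := (up_mem_ZANG Z h0V h0s he).2
      rw [rn_zero_ZANG, hR0 e he] at h1
      exact h1 ⟨hMC, hh⟩

/-- the triangles at a vertex of the fan that contain `s` -/
theorem withs_ZANG (Z : Zip V G H s M c) {v : Fin N} (hv : v ∈ V) :
    (∀ x, (x, s) ∈ tris V G v ↔ ∃ i < M, v = c i ∧ x = c (i + 1)) ∧
    (∀ x, (s, x) ∈ tris V G v ↔ ∃ i < M, x = c i ∧ v = c (i + 1)) := by
  have hs := Z.mem
  have htri := Z.fan.tri
  constructor
  · intro x
    have h1 : (x, s) ∈ tris V G v ↔ (v, x) ∈ tris V G s := by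
      rw [mem_tris_ZANG, mem_tris_ZANG]
      constructor
      · rintro ⟨⟨h1, h2⟩, h3, h4, h5, h6⟩
        exact ⟨⟨hv, h1⟩, Ccw_rot' h3, h5.symm, h6.symm, h4⟩
      · rintro ⟨⟨h1, h2⟩, h3, h4, h5, h6⟩
        exact ⟨⟨h2, hs⟩, Ccw_rot h3, h6, h4.symm, h5.symm⟩
    rw [h1, htri, Finset.mem_image]
    constructor
    · rintro ⟨i, hi, h⟩
      rw [Prod.mk.injEq] at h
      exact ⟨i, Finset.mem_range.1 hi, h.1.symm, h.2.symm⟩
    · rintro ⟨i, hi, h2, h3⟩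
      exact ⟨i, Finset.mem_range.2 hi, by rw [h2, h3]⟩
  · intro x
    have h1 : (s, x) ∈ tris V G v ↔ (x, v) ∈ tris V G s := by
      rw [mem_tris_ZANG, mem_tris_ZANG]
      constructor
      · rintro ⟨⟨h1, h2⟩, h3, h4, h5, h6⟩
        exact ⟨⟨h2, hv⟩, Ccw_rot h3, h6, h4.symm, h5.symm⟩
      · rintro ⟨⟨h1, h2⟩, h3, h4, h5, h6⟩
        exact ⟨⟨hs, h1⟩, Ccw_rot' h3, h5.symm, h6.symm, h4⟩
    rw [h1, htri, Finset.mem_image]
    constructor
    · rintro ⟨i, hi, h⟩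
      rw [Prod.mk.injEq] at h
      exact ⟨i, Finset.mem_range.1 hi, h.1.symm, h.2.symm⟩
    · rintro ⟨i, hi, h2, h3⟩
      exact ⟨i, Finset.mem_range.2 hi, by rw [h2, h3]⟩

theorem c_inj_ZANG (Z : Zip V G H s M c) {i j : ℕ} (hi : i ≤ M) (hj : j ≤ M)
    (h : c i = c j) : i = j := by
  rcases Nat.lt_trichotomy i j with h1 | h1 | h1
  · have := Z.fan.mono i j h1 hj
    rw [h] at this
    omega
  · exact h1
  · have := Z.fan.mono j i h1 hi
    rw [h] at this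
    omega

theorem split_ZANG {v : Fin N} : ang V G P v = S0_ZANG V G P s v +
    ∑ e ∈ (tris V G v).filter (fun e => ¬ (e.1 ≠ s ∧ e.2 ≠ s)), an (P v) (P e.1) (P e.2) := by
  unfold ang S0_ZANG T0_ZANG
  rw [Finset.sum_filter_add_sum_filter_not]

theorem cases_ZANG (Z : Zip V G H s M c) {v : Fin N} (hv : v ∈ V) (e : Fin N × Fin N) :
    e ∈ (tris V G v).filter (fun e => ¬ (e.1 ≠ s ∧ e.2 ≠ s)) ↔
      (∃ i < M, v = c i ∧ e = (c (i + 1), s)) ∨ ∃ i < M, v = c (i + 1) ∧ e = (s, c i) := by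
  obtain ⟨h1, h2⟩ := withs_ZANG Z hv
  obtain ⟨x, y⟩ := e
  rw [Finset.mem_filter]
  constructor
  · rintro ⟨h3, h4⟩
    by_cases hx : x = s
    · subst hx
      obtain ⟨i, hi, h5, h6⟩ := (h2 y).1 h3
      exact Or.inr ⟨i, hi, h6, by rw [h5]⟩
    · have hy : y = s := by
        by_contra hy
        exact h4 ⟨hx, hy⟩
      subst hy
      obtain ⟨i, hi, h5, h6⟩ := (h1 x).1 h3
      exact Or.inl ⟨i, hi, h5, by rw [h6]⟩
  · rintro (⟨i, hi, h3, h4⟩ | ⟨i, hi, h3, h4⟩)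
    · rw [Prod.mk.injEq] at h4
      obtain ⟨rfl, rfl⟩ := h4
      exact ⟨(h1 _).2 ⟨i, hi, h3, rfl⟩, fun h => h.2 rfl⟩
    · rw [Prod.mk.injEq] at h4
      obtain ⟨rfl, rfl⟩ := h4
      exact ⟨(h2 _).2 ⟨i, hi, rfl, h3⟩, fun h => h.1 rfl⟩

theorem t_ZipAng (h : stZipTri) : stZipAng := by
  intro N V G H P s M c Z hP hSt hStH
  have hM := Z.three
  have hs0 : ∀ i ≤ M, c i ≠ s := by
    intro i hi hh
    have h1 := mono_ZTRI Z.fan (i := 0) (j := i) (by omega) hi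
    have h2 := Z.fan.pos
    rw [hh, cyc_self] at h1
    omega
  refine ⟨St_ZANG Z hP hSt hStH, ?_, ?_, ?_⟩
  · intro v hv hvC
    have hvM : v ≠ c M := by
      rintro rfl
      exact hvC (memC_ZTRI.2 ⟨M, by omega, le_rfl, rfl⟩)
    obtain ⟨hvV, hvs, hv0⟩ := memV_ZTRI.1 hv
    rw [ang_ZANG Z hP hv hvM, if_neg hvC, add_zero, split_ZANG (s := s) (v := v)]
    have hemp : (tris V G v).filter (fun e => ¬ (e.1 ≠ s ∧ e.2 ≠ s)) = ∅ := by
      rw [Finset.eq_empty_iff_forall_notMem]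
      intro e he
      rw [cases_ZANG Z hvV] at he
      rcases he with ⟨i, hi, h1, -⟩ | ⟨i, hi, h1, -⟩
      · rcases Nat.eq_zero_or_pos i with h0 | h0
        · rw [h0] at h1; exact hv0 h1
        · exact hvC (memC_ZTRI.2 ⟨i, h0, hi.le, h1⟩)
      · exact hvC (memC_ZTRI.2 ⟨i + 1, by omega, by omega, h1⟩)
    rw [hemp, Finset.sum_empty, add_zero]
  · intro i h1 h2
    have hv := cmem_ZTRI Z.fan h1 h2.le
    have hvC : c i ∈ Cs M (fun i => c (i + 1)) := memC_ZTRI.2 ⟨i, h1, h2.le, rfl⟩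
    have hvM : c i ≠ c M := fun hh => by
      have := c_inj_ZANG Z h2.le le_rfl hh
      omega
    have hvV := Z.fan.mem i h2.le
    rw [ang_ZANG Z hP hv hvM, if_pos hvC, split_ZANG (V := V) (G := G) (s := s) (v := c i)]
    have hset : (tris V G (c i)).filter (fun e => ¬ (e.1 ≠ s ∧ e.2 ≠ s)) =
        {(c (i + 1), s), (s, c (i - 1))} := by
      ext e
      rw [cases_ZANG Z hvV, Finset.mem_insert, Finset.mem_singleton]
      constructor
      · rintro (⟨j, hj, h3, h4⟩ | ⟨j, hj, h3, h4⟩)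
        · left
          have := c_inj_ZANG Z h2.le hj.le h3
          rw [h4, this]
        · right
          have := c_inj_ZANG Z h2.le (by omega) h3
          have hj' : j = i - 1 := by omega
          rw [h4, hj']
      · rintro (h3 | h3)
        · exact Or.inl ⟨i, h2, rfl, h3⟩
        · refine Or.inr ⟨i - 1, by omega, ?_, h3⟩
          congr 1
          omega
    rw [hset, Finset.sum_pair]
    · ring
    · intro hh
      rw [Prod.mk.injEq] at hh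
      exact hs0 (i + 1) (by omega) hh.1
  · rw [angM_ZANG Z hP, split_ZANG (V := V) (G := G) (s := s) (v := c M),
      split_ZANG (V := V) (G := G) (s := s) (v := c 0)]
    have hset : (tris V G (c M)).filter (fun e => ¬ (e.1 ≠ s ∧ e.2 ≠ s)) =
        {(s, c (M - 1))} := by
      ext e
      rw [cases_ZANG Z (Z.fan.mem M le_rfl), Finset.mem_singleton]
      constructor
      · rintro (⟨j, hj, h3, h4⟩ | ⟨j, hj, h3, h4⟩)
        · have := c_inj_ZANG Z le_rfl hj.le h3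
          omega
        · have := c_inj_ZANG Z le_rfl (by omega) h3
          have hj' : j = M - 1 := by omega
          rw [h4, hj']
      · intro h3
        refine Or.inr ⟨M - 1, by omega, ?_, h3⟩
        congr 1
        omega
    have hset0 : (tris V G (c 0)).filter (fun e => ¬ (e.1 ≠ s ∧ e.2 ≠ s)) =
        {(c 1, s)} := by
      ext e
      rw [cases_ZANG Z (Z.fan.mem 0 (by omega)), Finset.mem_singleton]
      constructor
      · rintro (⟨j, hj, h3, h4⟩ | ⟨j, hj, h3, h4⟩)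
        · have := c_inj_ZANG Z (by omega) hj.le h3
          rw [h4, ← this]
        · have := c_inj_ZANG Z (by omega) (by omega) h3
          omega
      · intro h3
        exact Or.inl ⟨0, by omega, rfl, h3⟩
    rw [hset, hset0, Finset.sum_singleton, Finset.sum_singleton]
    ring

end Pool.Agent.Helper62.GP
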