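import Pool.Agent.Helper62.GP.StZ

/-!
# Gilbert-Pollak, chapter COR, part ZIP: the Steiner length does not increase
-/

set_option autoImplicit false

namespace Pool.Agent.Helper62.GP

open Pool.Agent.Helper18.GP Pool.Agent.Helper13.GP Relation Classical Finset

variable {N : ℕ}

theorem Ch_nonneg_ZLN {V : Finset (Fin N)} {G : SimpleGraph (Fin N)} {P : Fin N → ℂ}
    {x y : Fin N → ℝ} {r : ℝ} (h : Ch V G P x y r) : 0 ≤ r := by
  induction h with
  | nil _ _ => exact le_rfl
  | cons x y z c _ _ _ ih => exact add_nonneg (norm_nonneg _) ih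

theorem dK_le_ZLN {V : Finset (Fin N)} {G : SimpleGraph (Fin N)} {P : Fin N → ℂ}
    {x y : Fin N → ℝ} {r : ℝ} (h : Ch V G P x y r) : dK V G P x y ≤ r :=
  csInf_le ⟨0, fun _ h => Ch_nonneg_ZLN h⟩ h

theorem Ch_left_ZLN {V : Finset (Fin N)} {G : SimpleGraph (Fin N)} {P : Fin N → ℂ}
    {x y : Fin N → ℝ} {r : ℝ} (h : Ch V G P x y r) : x ∈ Pts V G := by
  cases h with
  | nil _ hx => exact hx
  | cons _ _ _ _ hx _ _ => exact hx

theorem Pts_lift_ZLN {V V' : Finset (Fin N)} {G G' : SimpleGraph (Fin N)}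
    (hV : ∀ v ∈ V, v ∈ V') (hG : ∀ a ∈ V, ∀ b ∈ V, G.Adj a b → G'.Adj a b) {x : Fin N → ℝ}
    (h : x ∈ Pts V G) : x ∈ Pts V' G' := by
  obtain ⟨h1, h2, h3, h4⟩ := h
  exact ⟨h1, h2, fun v hv => hV v (h3 v hv), fun a b ha hb hab =>
    hG a (h3 a ha) b (h3 b hb) (h4 a b ha hb hab)⟩

theorem Ch_lift_ZLN {V V' : Finset (Fin N)} {G G' : SimpleGraph (Fin N)} {P : Fin N → ℂ}
    (hV : ∀ v ∈ V, v ∈ V') (hG : ∀ a ∈ V, ∀ b ∈ V, G.Adj a b → G'.Adj a b)
    {x y : Fin N → ℝ} {r : ℝ} (h : Ch V G P x y r) : Ch V' G' P x y r := by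
  induction h with
  | nil x hx => exact Ch.nil x (Pts_lift_ZLN hV hG hx)
  | cons x y z c hx hs h ih =>
    refine Ch.cons x y z c (Pts_lift_ZLN hV hG hx) ?_ ih
    have hy := Ch_left_ZLN h
    intro a b ha hb hab
    have ha' : a ∈ V := ha.elim (hx.2.2.1 a) (hy.2.2.1 a)
    have hb' : b ∈ V := hb.elim (hx.2.2.1 b) (hy.2.2.1 b)
    exact hG a ha' b hb' (hs a b ha hb hab)

theorem inj_ZLN {V : Finset (Fin N)} {G : SimpleGraph (Fin N)} {s : Fin N} {M : ℕ}
    {c : ℕ → Fin N} (hF : Fan V G s M c) : ∀ i j, i ≤ M → j ≤ M → c i = c j → i = j := by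
  intro i j hi hj h
  rcases lt_trichotomy i j with hij | hij | hij
  · have := hF.mono i j hij hj
    rw [h] at this
    exact absurd this (lt_irrefl _)
  · exact hij
  · have := hF.mono j i hij hi
    rw [h] at this
    exact absurd this (lt_irrefl _)

theorem pocket_ZLN {V : Finset (Fin N)} {G : SimpleGraph (Fin N)} {s : Fin N} {M : ℕ}
    {c : ℕ → Fin N} (hF : Fan V G s M c) (hM : 3 ≤ M) (T : Set (Fin N)) (hs : s ∈ T)
    (hTV : ∀ a ∈ T, a ∈ V) (hT : ∀ a ∈ T, ∀ b ∈ T, a ≠ b → G.Adj a b) :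
    ∃ i < M, ∀ a ∈ T, a = s ∨ a = c i ∨ a = c (i + 1) := by
  have hinj := inj_ZLN hF
  have hcons : ∀ i j, i < j → j ≤ M → c i ∈ T → c j ∈ T → j = i + 1 := by
    intro i j hij hj hi' hj'
    have hne : c i ≠ c j := fun h => absurd (hinj i j (by omega) hj h) (by omega)
    have hadj := hT (c i) hi' (c j) hj' hne
    have hpos : 0 < cyc s (c i) := by
      rcases Nat.eq_zero_or_pos i with h0 | h0
      · rw [h0]; exact hF.pos
      · exact hF.pos.trans (hF.mono 0 i h0 (by omega))
    have hmem : (c i, c j) ∈ tris V G s := by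
      unfold tris
      rw [mem_filter]
      exact ⟨mem_product.2 ⟨hF.mem i (by omega), hF.mem j hj⟩, ⟨hpos, hF.mono i j hij hj⟩,
        hF.adj i (by omega), hF.adj j hj, hadj⟩
    rw [hF.tri, mem_image] at hmem
    obtain ⟨k, hk, he⟩ := hmem
    rw [mem_range] at hk
    have e1 := hinj k i (by omega) (by omega) (Prod.mk.inj he).1
    have e2 := hinj (k + 1) j (by omega) hj (Prod.mk.inj he).2
    omega
  have hcl : ∀ a ∈ T, a ≠ s → ∃ j ≤ M, a = c j := fun a ha has =>
    hF.all a (hTV a ha) (hT s hs a ha has.symm)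
  by_cases h1 : ∃ i, i < M ∧ c i ∈ T ∧ c (i + 1) ∈ T
  · obtain ⟨i, hi, hi1, hi2⟩ := h1
    refine ⟨i, hi, fun a ha => ?_⟩
    by_cases has : a = s
    · exact Or.inl has
    · right
      obtain ⟨j, hj, rfl⟩ := hcl a ha has
      by_cases hji : j = i
      · left; rw [hji]
      · right
        by_cases hji' : j = i + 1
        · rw [hji']
        · exfalso
          rcases lt_trichotomy j i with h | h | h
          · have := hcons j i h (by omega) ha hi1
            have := hcons j (i + 1) (by omega) (by omega) ha hi2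
            omega
          · exact hji h
          · have h2 := hcons i j h hj hi1 ha
            omega
  · by_cases h2 : ∃ k, k ≤ M ∧ c k ∈ T
    · obtain ⟨k, hk, hkT⟩ := h2
      have hall : ∀ a ∈ T, a = s ∨ a = c k := by
        intro a ha
        by_cases has : a = s
        · exact Or.inl has
        · right
          obtain ⟨j, hj, rfl⟩ := hcl a ha has
          rcases lt_trichotomy j k with h | h | h
          · have e := hcons j k h hk ha hkT
            exact absurd ⟨j, by omega, ha, by rw [← e]; exact hkT⟩ h1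
          · rw [h]
          · have e := hcons k j h hj hkT ha
            exact absurd ⟨k, by omega, hkT, by rw [← e]; exact ha⟩ h1
      by_cases hkM : k < M
      · exact ⟨k, hkM, fun a ha => (hall a ha).imp id Or.inl⟩
      · refine ⟨M - 1, by omega, fun a ha => (hall a ha).imp id fun h => Or.inr ?_⟩
        rw [h]
        congr 1
        omega
    · refine ⟨0, by omega, fun a ha => ?_⟩
      by_cases has : a = s
      · exact Or.inl has
      · obtain ⟨j, hj, rfl⟩ := hcl a ha has
        exact absurd ⟨j, hj, ha⟩ h2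

/-- move the mass from `a` to `b` -/
noncomputable def mvZ (a b : Fin N) (w : Fin N → ℝ) : Fin N → ℝ :=
  fun v => w v + w a * (dl b v - dl a v)

theorem dl_ZLN (a b : Fin N) : dl a b = if b = a then (1 : ℝ) else 0 := by
  unfold dl
  rw [Pi.single_apply]

theorem sum_dl_ZLN (a : Fin N) : ∑ v, dl a v = 1 := by
  simp [dl_ZLN]

theorem dev_dl_ZLN (P : Fin N → ℂ) (a : Fin N) : ∑ v, (dl a v : ℂ) * P v = P a := by
  rw [Finset.sum_eq_single a]
  · rw [dl_ZLN, if_pos rfl]
    simp
  · intro b _ hb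
    rw [dl_ZLN, if_neg hb]
    simp
  · intro h
    exact absurd (Finset.mem_univ a) h

theorem mv_sum_ZLN (a b : Fin N) (w : Fin N → ℝ) : ∑ v, mvZ a b w v = ∑ v, w v := by
  unfold mvZ
  rw [Finset.sum_add_distrib, ← Finset.mul_sum, Finset.sum_sub_distrib, sum_dl_ZLN, sum_dl_ZLN]
  ring

theorem mv_dev_ZLN (P : Fin N → ℂ) {a b : Fin N} (hab : P a = P b) (w : Fin N → ℝ) :
    dev P (mvZ a b w) = dev P w := by
  unfold dev mvZ
  have h : ∀ v, (((w v + w a * (dl b v - dl a v) : ℝ)) : ℂ) * P v =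
      (w v : ℂ) * P v + (w a : ℂ) * ((dl b v : ℂ) * P v - (dl a v : ℂ) * P v) := by
    intro v
    push_cast
    ring
  rw [Finset.sum_congr rfl fun v _ => h v, Finset.sum_add_distrib, ← Finset.mul_sum,
    Finset.sum_sub_distrib, dev_dl_ZLN, dev_dl_ZLN, hab]
  ring

theorem mv_dl_ZLN {a b : Fin N} (v : Fin N) :
    mvZ a b (dl v) = dl (if v = a then b else v) := by
  funext y
  unfold mvZ
  by_cases h : v = a
  · rw [if_pos h, h]
    have : (dl a a : ℝ) = 1 := by simp [dl_ZLN]
    rw [this]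
    ring
  · rw [if_neg h]
    have : (dl v a : ℝ) = 0 := by
      rw [dl_ZLN, if_neg (fun e => h e.symm)]
    rw [this]
    ring

theorem mv_val_ZLN {a b : Fin N} (hab : a ≠ b) (w : Fin N → ℝ) (v : Fin N) :
    mvZ a b w v = if v = a then 0 else if v = b then w v + w a else w v := by
  unfold mvZ
  rw [dl_ZLN, dl_ZLN]
  by_cases h1 : v = a
  · have h2 : v ≠ b := fun h => hab (h1.symm.trans h)
    rw [if_pos h1, if_neg h2, if_pos h1, h1]
    ring
  · rw [if_neg h1, if_neg h1]
    by_cases h2 : v = b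
    · rw [if_pos h2, if_pos h2]
      ring
    · rw [if_neg h2, if_neg h2]
      ring

/-- star index of a pocket -/
def kZ (M i : ℕ) : ℕ := if i = 0 then M - 1 else i - 1

theorem t_ZipLn (hMet : stMet) (hLn : stLnP) (h : stZipTri) : stZipLn := by
  intro N V G H P s M c g hZ hP hFill B hB
  have hF := hZ.fan
  have hM := hZ.three
  have hinj := inj_ZLN hF
  obtain ⟨hHt, hHs, -, hg1, hg2, hg3⟩ := hFill
  set C := Cs M (fun i => c (i + 1)) with hC
  set V' := zV V s (c 0) with hV'
  set G' := zG G H s M c with hG'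
  have hT' : IsTri V' G' := h N V G H s M c hZ
  have hm' := hMet N V' G' P hT'
  have hmC := hMet N C H P hHt
  have hm := hMet N V G P hZ.tri
  have hcs : ∀ i ≤ M, c i ≠ s := fun i hi => (hF.adj i hi).ne'
  have h0M : c 0 ≠ c M := fun e => absurd (hinj 0 M (by omega) le_rfl e) (by omega)
  have hCmem : ∀ v ∈ C, v ∈ V' := by
    intro v hv
    rw [hC, Cs, mem_image] at hv
    obtain ⟨i, hi, rfl⟩ := hv
    rw [mem_range] at hi
    rw [hV', zV, mem_erase, mem_erase]
    exact ⟨fun e => absurd (hinj (i + 1) 0 (by omega) (by omega) e) (by omega),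
      hcs (i + 1) (by omega), hF.mem (i + 1) (by omega)⟩
  have hV'mem : ∀ v, v ∈ V' ↔ v ≠ c 0 ∧ v ≠ s ∧ v ∈ V := by
    intro v
    rw [hV', zV, mem_erase, mem_erase]
  have hCadj : ∀ a ∈ C, ∀ b ∈ C, H.Adj a b → G'.Adj a b := by
    intro a ha b hb hab
    have h1 := (hV'mem a).1 (hCmem a ha)
    have h2 := (hV'mem b).1 (hCmem b hb)
    exact ⟨hab.ne, ⟨h1.2.1, h2.2.1, h1.1, h2.1⟩, Or.inr (Or.inr (Or.inr ⟨ha, hb, hab⟩))⟩
  -- the map
  set f : (Fin N → ℝ) → (Fin N → ℝ) := fun x =>
    if x s ≠ 0 then g (dev P x) else mvZ (c 0) (c M) x with hf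
  have eval : ∀ i < M, ∀ w ∈ Pts V G, (∀ a, w a ≠ 0 → a = s ∨ a = c i ∨ a = c (i + 1)) →
      dev P w ∈ T3 P (P s) M (fun i => c (i + 1)) (kZ M i) ∧ f w = g (dev P w) := by
    intro i hi w hw hsup
    have hk1 : kZ M i < M := by unfold kZ; split_ifs <;> omega
    have hsi : s ≠ c i := (hcs i hi.le).symm
    have hsi1 : s ≠ c (i + 1) := (hcs (i + 1) hi).symm
    have hii1 : c i ≠ c (i + 1) := fun e => absurd (hinj i (i + 1) hi.le hi e) (by omega)
    have hPk : P (c (kZ M i + 1)) = P (c i) := by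
      unfold kZ
      split_ifs with h0
      · rw [h0, hP]
        congr 2
        omega
      · congr 2
        omega
    have hnx : nx M (kZ M i) = i := by
      unfold nx kZ
      split_ifs <;> omega
    have hzero : ∀ a, a ∉ ({s, c i, c (i + 1)} : Finset (Fin N)) → w a = 0 := by
      intro a ha
      by_contra hne
      apply ha
      simp only [mem_insert, mem_singleton]
      exact hsup a hne
    have hsum : ∑ v ∈ ({s, c i, c (i + 1)} : Finset (Fin N)), w v = 1 := by
      rw [← hw.2.1]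
      exact Finset.sum_subset (Finset.subset_univ _) fun v _ hv => hzero v hv
    have hdev : dev P w = ∑ v ∈ ({s, c i, c (i + 1)} : Finset (Fin N)), w v • P v := by
      unfold dev
      symm
      rw [Finset.sum_congr rfl fun v _ => Complex.real_smul]
      exact Finset.sum_subset (Finset.subset_univ _) fun v _ hv => by
        rw [hzero v hv]
        simp
    constructor
    · rw [hdev]
      unfold T3
      refine (convex_convexHull ℝ _).sum_mem (fun v _ => hw.1 v) hsum fun v hv => ?_
      refine subset_convexHull ℝ _ ?_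
      simp only [mem_insert, mem_singleton] at hv
      rcases hv with rfl | rfl | rfl
      · simp
      · right; left
        exact hPk.symm
      · right; right
        simp only [hnx, Set.mem_singleton_iff]
    · by_cases hws : w s ≠ 0
      · simp only [hf, if_pos hws]
      · have hws0 : w s = 0 := by simpa using hws
        have hs2 : w (c i) + w (c (i + 1)) = 1 := by
          rw [Finset.sum_insert (by simp [hsi, hsi1]), Finset.sum_insert (by simp [hii1]),
            Finset.sum_singleton, hws0, zero_add] at hsum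
          exact hsum
        have hd2 : dev P w = ((1 - w (c (i + 1)) : ℝ) : ℂ) * P (c i) +
            (w (c (i + 1)) : ℂ) * P (c (i + 1)) := by
          rw [hdev, Finset.sum_insert (by simp [hsi, hsi1]), Finset.sum_insert (by simp [hii1]),
            Finset.sum_singleton, hws0, zero_smul, zero_add, Complex.real_smul,
            Complex.real_smul, ← hs2]
          congr 2
          rw [add_sub_cancel_right]
        have hτ : w (c (i + 1)) ∈ Set.Icc (0 : ℝ) 1 :=
          ⟨hw.1 _, by linarith [hw.1 (c i)]⟩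
        have hg := hg3 (kZ M i) hk1 (w (c (i + 1))) hτ
        simp only [hnx] at hg
        rw [hPk, ← hd2] at hg
        rw [hg]
        simp only [hf, if_neg hws]
        funext v
        have hrep : w v = (1 - w (c (i + 1))) * dl (c i) v + w (c (i + 1)) * dl (c (i + 1)) v := by
          rw [dl_ZLN, dl_ZLN]
          by_cases e1 : v = c i
          · rw [if_pos e1, if_neg (fun e => hii1 (e1.symm.trans e)), e1]
            linarith
          · by_cases e2 : v = c (i + 1)
            · rw [if_neg e1, if_pos e2, e2]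
              ring
            · rw [if_neg e1, if_neg e2]
              by_cases e3 : v = s
              · rw [e3, hws0]; ring
              · rw [hzero v (by simp [e1, e2, e3])]; ring
        unfold mvZ seg
        by_cases h0 : i = 0
        · subst h0
          have hk : c (kZ M 0 + 1) = c M := by
            unfold kZ
            rw [if_pos rfl]
            congr 1
            omega
          rw [hk, hrep]
          have : w (c 0) = 1 - w (c (0 + 1)) := by linarith
          rw [this]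
          ring
        · have hk : c (kZ M i + 1) = c i := by
            unfold kZ
            rw [if_neg h0]
            congr 1
            omega
          have hw0 : w (c 0) = 0 := by
            refine hzero (c 0) ?_
            simp only [mem_insert, mem_singleton, not_or]
            exact ⟨hcs 0 (by omega), fun e => h0 (hinj 0 i (by omega) hi.le e).symm,
              fun e => absurd (hinj 0 (i + 1) (by omega) hi e) (by omega)⟩
          rw [hk, hw0, zero_mul, add_zero]
          exact hrep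
  have hfPts : ∀ x ∈ Pts V G, f x ∈ Pts V' G' := by
    intro x hx
    by_cases hxs : x s ≠ 0
    · obtain ⟨i, hi, hsup⟩ := pocket_ZLN hF hM {a | x a ≠ 0} hxs (fun a ha => hx.2.2.1 a ha)
        (fun a ha b hb hab => hx.2.2.2 a b ha hb hab)
      obtain ⟨e1, e2⟩ := eval i hi x hx hsup
      rw [e2]
      have hk1 : kZ M i < M := by unfold kZ; split_ifs <;> omega
      exact Pts_lift_ZLN hCmem hCadj (hg1 (kZ M i) hk1 _ e1).1
    · have hxs0 : x s = 0 := by simpa using hxs
      have hfx : f x = mvZ (c 0) (c M) x := by simp only [hf, if_neg hxs]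
      rw [hfx]
      have hnz : ∀ v, mvZ (c 0) (c M) x v ≠ 0 → v ≠ c 0 ∧ v ≠ s ∧
          (x v ≠ 0 ∨ (v = c M ∧ x (c 0) ≠ 0)) := by
        intro v hv
        rw [mv_val_ZLN h0M] at hv
        by_cases e1 : v = c 0
        · rw [if_pos e1] at hv
          exact absurd rfl hv
        · rw [if_neg e1] at hv
          by_cases e2 : v = c M
          · rw [if_pos e2] at hv
            refine ⟨e1, e2 ▸ hcs M le_rfl, ?_⟩
            by_cases e3 : x v = 0
            · right
              refine ⟨e2, fun e4 => hv ?_⟩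
              rw [e3, e4, add_zero]
            · exact Or.inl e3
          · rw [if_neg e2] at hv
            exact ⟨e1, fun e => hv (e ▸ hxs0), Or.inl hv⟩
      refine ⟨fun v => ?_, ?_, fun v hv => ?_, fun a b ha hb hab => ?_⟩
      · rw [mv_val_ZLN h0M]
        split_ifs
        · exact le_rfl
        · exact add_nonneg (hx.1 _) (hx.1 _)
        · exact hx.1 _
      · rw [mv_sum_ZLN]
        exact hx.2.1
      · obtain ⟨e1, e2, e3⟩ := hnz v hv
        refine (hV'mem v).2 ⟨e1, e2, ?_⟩
        rcases e3 with e3 | ⟨e3, -⟩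
        · exact hx.2.2.1 v e3
        · rw [e3]; exact hF.mem M le_rfl
      · obtain ⟨a1, a2, a3⟩ := hnz a ha
        obtain ⟨b1, b2, b3⟩ := hnz b hb
        refine ⟨hab, ⟨a2, b2, a1, b1⟩, ?_⟩
        rcases a3 with a3 | ⟨a3, a4⟩
        · rcases b3 with b3 | ⟨b3, b4⟩
          · exact Or.inl (hx.2.2.2 a b a3 b3 hab)
          · exact Or.inr (Or.inr (Or.inl ⟨b3, hx.2.2.2 (c 0) a b4 a3 a1.symm⟩))
        · rcases b3 with b3 | ⟨b3, b4⟩
          · exact Or.inr (Or.inl ⟨a3, hx.2.2.2 (c 0) b a4 b3 b1.symm⟩)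
          · exact absurd (a3.trans b3.symm) hab
  have hSh : ∀ x ∈ Pts V G, ∀ y ∈ Pts V G, Sh G x y →
      dK V' G' P (f x) (f y) ≤ ‖dev P x - dev P y‖ := by
    intro x hx y hy hxy
    by_cases hs : x s ≠ 0 ∨ y s ≠ 0
    · obtain ⟨i, hi, hsup⟩ := pocket_ZLN hF hM {a | x a ≠ 0 ∨ y a ≠ 0} hs
        (fun a ha => ha.elim (hx.2.2.1 a) (hy.2.2.1 a))
        (fun a ha b hb hab => hxy a b ha hb hab)
      obtain ⟨e1, e2⟩ := eval i hi x hx (fun a ha => hsup a (Or.inl ha))
      obtain ⟨e3, e4⟩ := eval i hi y hy (fun a ha => hsup a (Or.inr ha))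
      have hk1 : kZ M i < M := by unfold kZ; split_ifs <;> omega
      have hgx := (hg1 (kZ M i) hk1 _ e1).1
      have hgy := (hg1 (kZ M i) hk1 _ e3).1
      rw [e2, e4]
      have hch := hmC.att _ hgx _ hgy
      exact (dK_le_ZLN (Ch_lift_ZLN hCmem hCadj hch)).trans (hg2 (kZ M i) hk1 _ e1 _ e3)
    · push Not at hs
      obtain ⟨hxs, hys⟩ := hs
      have hfx : f x = mvZ (c 0) (c M) x := by
        simp only [hf]
        rw [if_neg (by simp [hxs])]
      have hfy : f y = mvZ (c 0) (c M) y := by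
        simp only [hf]
        rw [if_neg (by simp [hys])]
      have hpx := hfPts x hx
      have hpy := hfPts y hy
      have hnz : ∀ u : Fin N → ℝ, u s = 0 → ∀ v, mvZ (c 0) (c M) u v ≠ 0 → v ≠ c 0 ∧ v ≠ s ∧
          (u v ≠ 0 ∨ (v = c M ∧ u (c 0) ≠ 0)) := by
        intro u hus v hv
        rw [mv_val_ZLN h0M] at hv
        by_cases e1 : v = c 0
        · rw [if_pos e1] at hv
          exact absurd rfl hv
        · rw [if_neg e1] at hv
          by_cases e2 : v = c M
          · rw [if_pos e2] at hv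
            refine ⟨e1, e2 ▸ hcs M le_rfl, ?_⟩
            by_cases e3 : u v = 0
            · right
              refine ⟨e2, fun e4 => hv ?_⟩
              rw [e3, e4, add_zero]
            · exact Or.inl e3
          · rw [if_neg e2] at hv
            exact ⟨e1, fun e => hv (e ▸ hus), Or.inl hv⟩
      have hnz2 : ∀ v, (mvZ (c 0) (c M) x v ≠ 0 ∨ mvZ (c 0) (c M) y v ≠ 0) → v ≠ c 0 ∧ v ≠ s ∧
          ((x v ≠ 0 ∨ y v ≠ 0) ∨ (v = c M ∧ (x (c 0) ≠ 0 ∨ y (c 0) ≠ 0))) := by
        intro v hv
        rcases hv with hv | hv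
        · obtain ⟨e1, e2, e3⟩ := hnz x hxs v hv
          refine ⟨e1, e2, ?_⟩
          rcases e3 with e3 | ⟨e3, e4⟩
          · exact Or.inl (Or.inl e3)
          · exact Or.inr ⟨e3, Or.inl e4⟩
        · obtain ⟨e1, e2, e3⟩ := hnz y hys v hv
          refine ⟨e1, e2, ?_⟩
          rcases e3 with e3 | ⟨e3, e4⟩
          · exact Or.inl (Or.inr e3)
          · exact Or.inr ⟨e3, Or.inr e4⟩
      have hsh' : Sh G' (f x) (f y) := by
        rw [hfx, hfy]
        intro a b ha hb hab
        obtain ⟨a1, a2, a3⟩ := hnz2 a ha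
        obtain ⟨b1, b2, b3⟩ := hnz2 b hb
        refine ⟨hab, ⟨a2, b2, a1, b1⟩, ?_⟩
        rcases a3 with a3 | ⟨a3, a4⟩
        · rcases b3 with b3 | ⟨b3, b4⟩
          · exact Or.inl (hxy a b a3 b3 hab)
          · exact Or.inr (Or.inr (Or.inl ⟨b3, hxy (c 0) a b4 a3 a1.symm⟩))
        · rcases b3 with b3 | ⟨b3, b4⟩
          · exact Or.inr (Or.inl ⟨a3, hxy (c 0) b a4 b3 b1.symm⟩)
          · exact absurd (a3.trans b3.symm) hab
      rw [hm'.sh _ hpx _ hpy hsh', hfx, hfy, mv_dev_ZLN P hP, mv_dev_ZLN P hP]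
  have hChf : ∀ x y : Fin N → ℝ, ∀ r : ℝ, Ch V G P x y r → dK V' G' P (f x) (f y) ≤ r := by
    intro x y r hr
    induction hr with
    | nil x hx => exact (hm'.self _ (hfPts x hx)).le
    | cons x y z r hx hs hch ih =>
      have hy := Ch_left_ZLN hch
      have hz : ∀ (y z : Fin N → ℝ) (r : ℝ), Ch V G P y z r → z ∈ Pts V G := by
        intro y z r hh
        induction hh with
        | nil _ hx => exact hx
        | cons _ _ _ _ _ _ _ ih => exact ih
      refine (hm'.tri _ (hfPts x hx) _ (hfPts y hy) _ (hfPts z (hz y z r hch))).trans ?_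
      exact add_le_add (hSh x hx y hy hs) ih
  have hdK : ∀ x ∈ Pts V G, ∀ y ∈ Pts V G, dK V' G' P (f x) (f y) ≤ dK V G P x y :=
    fun x hx y hy => hChf x y _ (hm.att x hx y hy)
  obtain ⟨E, hE1, hE2, hE3⟩ := (hLn N V G P hZ.tri).att B hB
  rw [hE3]
  have hbd : BddBelow {r : ℝ | ∃ E : List ((Fin N → ℝ) × (Fin N → ℝ)),
      (∀ e ∈ E, e.1 ∈ Pts V' G' ∧ e.2 ∈ Pts V' G') ∧
      NConn E (dl '' (((B.erase s).image fun v => if v = c 0 then c M else v :
        Finset (Fin N)) : Set (Fin N))) ∧ r = nlen (dK V' G' P) E} := by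
    refine ⟨0, ?_⟩
    rintro r ⟨E, h1, -, rfl⟩
    unfold nlen
    refine List.sum_nonneg ?_
    intro t ht
    rw [List.mem_map] at ht
    obtain ⟨e, he, rfl⟩ := ht
    exact hm'.nonneg _ (h1 e he).1 _ (h1 e he).2
  have hle : nlen (dK V' G' P) (E.map fun e => (f e.1, f e.2)) ≤ nlen (dK V G P) E := by
    unfold nlen
    rw [List.map_map]
    refine List.sum_le_sum ?_
    intro e he
    exact hdK _ (hE1 e he).1 _ (hE1 e he).2
  refine le_trans (csInf_le hbd ⟨E.map fun e => (f e.1, f e.2), ?_, ?_, rfl⟩) hle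
  · intro e he
    rw [List.mem_map] at he
    obtain ⟨e', he', rfl⟩ := he
    exact ⟨hfPts _ (hE1 e' he').1, hfPts _ (hE1 e' he').2⟩
  · have hgen : ∀ u v : Fin N → ℝ, EqvGen (fun x y => (x, y) ∈ E) u v →
        EqvGen (fun x y => (x, y) ∈ E.map fun e => (f e.1, f e.2)) (f u) (f v) := by
      intro u v huv
      induction huv with
      | rel x y hxy => exact EqvGen.rel _ _ (List.mem_map.2 ⟨(x, y), hxy, rfl⟩)
      | refl x => exact EqvGen.refl _
      | symm _ _ _ ih => exact EqvGen.symm _ _ ih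
      | trans _ _ _ _ _ ih1 ih2 => exact EqvGen.trans _ _ _ ih1 ih2
    have hfdl : ∀ a' ∈ dl '' (((B.erase s).image fun v => if v = c 0 then c M else v :
        Finset (Fin N)) : Set (Fin N)), ∃ b ∈ B, a' = f (dl b) := by
      rintro _ ⟨b', hb', rfl⟩
      rw [mem_coe, mem_image] at hb'
      obtain ⟨b, hb, rfl⟩ := hb'
      rw [mem_erase] at hb
      refine ⟨b, hb.2, ?_⟩
      have : dl b s = (0 : ℝ) := by
        rw [dl_ZLN, if_neg (fun e => hb.1 e.symm)]
      have hfb : f (dl b) = mvZ (c 0) (c M) (dl b) := by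
        simp only [hf]
        rw [if_neg (by simp [this])]
      rw [hfb, mv_dl_ZLN]
    intro a' ha' b' hb'
    obtain ⟨a, ha, rfl⟩ := hfdl a' ha'
    obtain ⟨b, hb, rfl⟩ := hfdl b' hb'
    exact hgen _ _ (hE2 _ ⟨a, ha, rfl⟩ _ ⟨b, hb, rfl⟩)

end Pool.Agent.Helper62.GP
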