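import Pool.Agent.Helper62.GP.StZ
import Pool.Agent.Helper13.GP.Comb

/-!
# Gilbert-Pollak, chapter COR, part ZIP: the graph after the zip is a triangulation
-/

set_option autoImplicit false

namespace Pool.Agent.Helper62.GP

open Pool.Agent.Helper18.GP Pool.Agent.Helper13.GP Relation Classical Finset

variable {N : ℕ} {V : Finset (Fin N)} {G H : SimpleGraph (Fin N)} {s : Fin N} {M : ℕ}
  {c : ℕ → Fin N}

theorem memC_ZTRI {M : ℕ} {c : ℕ → Fin N} {p : Fin N} :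
    p ∈ Cs M (fun i => c (i + 1)) ↔ ∃ j, 1 ≤ j ∧ j ≤ M ∧ p = c j := by
  unfold Cs
  rw [Finset.mem_image]
  constructor
  · rintro ⟨i, hi, rfl⟩
    rw [Finset.mem_range] at hi
    exact ⟨i + 1, by omega, by omega, rfl⟩
  · rintro ⟨j, h1, h2, rfl⟩
    refine ⟨j - 1, Finset.mem_range.2 (by omega), ?_⟩
    congr 1
    omega

theorem memV_ZTRI {s u' v : Fin N} : v ∈ zV V s u' ↔ v ∈ V ∧ v ≠ s ∧ v ≠ u' := by
  unfold zV
  rw [Finset.mem_erase, Finset.mem_erase]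
  tauto

theorem mono_ZTRI (F : Fan V G s M c) {i j : ℕ} (h : i ≤ j) (hj : j ≤ M) :
    cyc s (c i) ≤ cyc s (c j) := by
  rcases Nat.lt_or_eq_of_le h with h1 | h1
  · exact (F.mono i j h1 hj).le
  · rw [h1]

/-- positions of the vertices after the zip -/
theorem pos_ZTRI (F : Fan V G s M c) {v : Fin N} (hv : v ∈ zV V s (c 0)) :
    cyc s (c 0) < cyc s v ∧ cyc s v ≤ cyc s (c M) := by
  obtain ⟨h1, h2, h3⟩ := memV_ZTRI.1 hv
  refine ⟨lt_of_le_of_ne (F.first v h1 h2) fun h => h3 (cyc_inj h).symm, F.last v h1 h2⟩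

theorem cmem_ZTRI (F : Fan V G s M c) {j : ℕ} (h1 : 1 ≤ j) (h2 : j ≤ M) :
    c j ∈ zV V s (c 0) := by
  rw [memV_ZTRI]
  have h3 := F.mono 0 j h1 h2
  have h4 := F.pos
  refine ⟨F.mem j h2, ?_, ?_⟩
  · intro h
    rw [h, cyc_self] at h3
    omega
  · intro h
    rw [h] at h3
    omega

theorem CsubV_ZTRI (F : Fan V G s M c) {p : Fin N} (hp : p ∈ Cs M (fun i => c (i + 1))) :
    p ∈ zV V s (c 0) := by
  obtain ⟨j, h1, h2, rfl⟩ := memC_ZTRI.1 hp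
  exact cmem_ZTRI F h1 h2

/-- positions of the members of `C` -/
theorem posC_ZTRI (F : Fan V G s M c) {p : Fin N} (hp : p ∈ Cs M (fun i => c (i + 1))) :
    cyc s (c 1) ≤ cyc s p ∧ cyc s p ≤ cyc s (c M) ∧
      ∀ i < M, cyc s p ≤ cyc s (c i) ∨ cyc s (c (i + 1)) ≤ cyc s p := by
  obtain ⟨j, h1, h2, rfl⟩ := memC_ZTRI.1 hp
  refine ⟨mono_ZTRI F h1 h2, mono_ZTRI F h2 le_rfl, fun i hi => ?_⟩
  rcases Nat.lt_or_ge i j with h | h
  · exact Or.inr (mono_ZTRI F h h2)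
  · exact Or.inl (mono_ZTRI F h hi.le)

theorem mem_Arc_base_ZTRI (o : Fin N) {a b v : Fin N} (h : cyc o a ≤ cyc o b) :
    v ∈ Arc V a b ↔ v ∈ V ∧ cyc o a ≤ cyc o v ∧ cyc o v ≤ cyc o b := by
  rw [mem_Arc]
  apply and_congr_right
  intro _
  have hb := cyc_lt o b
  rw [cyc_change o a v, cyc_change_le h]
  split_ifs <;> omega

/-- the pocket of a position -/
theorem pocket_ZTRI (f : ℕ → ℕ) (t : ℕ) : ∀ M : ℕ, f 0 ≤ t → t < f M →
    ∃ i < M, f i ≤ t ∧ t < f (i + 1) := by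
  intro M
  induction M with
  | zero => intro h1 h2; omega
  | succ M ih =>
    intro h1 h2
    rcases Nat.lt_or_ge t (f M) with h | h
    · obtain ⟨i, hi, h3⟩ := ih h1 h
      exact ⟨i, by omega, h3⟩
    · exact ⟨M, by omega, h, h2⟩

/-- an old edge at `c 0` lies in the first pocket -/
theorem first_ZTRI (F : Fan V G s M c) (hM : 1 ≤ M) {b : Fin N} (hb : b ∈ zV V s (c 0))
    (hadj : G.Adj (c 0) b) : cyc s b ≤ cyc s (c 1) := by
  obtain ⟨h1, h2, h3⟩ := memV_ZTRI.1 hb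
  have h0 : c 0 ≠ s := cyc_pos.1 F.pos
  obtain ⟨i, hi, h4, h5⟩ := F.pocket (c 0) (F.mem 0 (by omega)) b h1 h0 h2 hadj
  have hi0 : i = 0 := by
    by_contra hne
    have := F.mono 0 i (by omega) hi.le
    omega
  subst hi0
  exact h5.2

/-- classification of the edges after the zip -/
theorem cls_ZTRI (Z : Zip V G H s M c) {x y : Fin N} (hx : x ∈ zV V s (c 0))
    (hy : y ∈ zV V s (c 0)) (h : (zG G H s M c).Adj x y) :
    (G.Adj x y ∧ ∃ i < M, (cyc s (c i) ≤ cyc s x ∧ cyc s x ≤ cyc s (c (i + 1))) ∧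
      (cyc s (c i) ≤ cyc s y ∧ cyc s y ≤ cyc s (c (i + 1)))) ∨
    (x = c M ∧ G.Adj (c 0) y ∧ cyc s y ≤ cyc s (c 1)) ∨
    (y = c M ∧ G.Adj (c 0) x ∧ cyc s x ≤ cyc s (c 1)) ∨
    (x ∈ Cs M (fun i => c (i + 1)) ∧ y ∈ Cs M (fun i => c (i + 1)) ∧ H.Adj x y) := by
  have hM := Z.three
  obtain ⟨h1, h2, h3 | h3 | h3 | h3⟩ := h
  · left
    exact ⟨h3, Z.fan.pocket x (memV_ZTRI.1 hx).1 y (memV_ZTRI.1 hy).1 h2.1 h2.2.1 h3⟩
  · right; left
    exact ⟨h3.1, h3.2, first_ZTRI Z.fan (by omega) hy h3.2⟩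
  · right; right; left
    exact ⟨h3.1, h3.2, first_ZTRI Z.fan (by omega) hx h3.2⟩
  · right; right; right
    exact h3

theorem adj_ZTRI {x y : Fin N} (hxy : x ≠ y) (hx : x ∈ zV V s (c 0))
    (hy : y ∈ zV V s (c 0)) (h : G.Adj x y ∨ (x = c M ∧ G.Adj (c 0) y) ∨
      (y = c M ∧ G.Adj (c 0) x) ∨
      (x ∈ Cs M (fun i => c (i + 1)) ∧ y ∈ Cs M (fun i => c (i + 1)) ∧ H.Adj x y)) :
    (zG G H s M c).Adj x y := by
  obtain ⟨-, h2, h3⟩ := memV_ZTRI.1 hx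
  obtain ⟨-, h5, h6⟩ := memV_ZTRI.1 hy
  exact ⟨hxy, ⟨h2, h5, h3, h6⟩, h⟩

theorem L12_ZTRI (Z : Zip V G H s M c) {x y b : Fin N} (hx : x ∈ zV V s (c 0))
    (hy : y ∈ zV V s (c 0)) (hb : b ∈ zV V s (c 0)) (hxy : G.Adj x y) (h : G.Adj (c 0) b) :
    ¬ Crs x y (c M) b := by
  intro hc
  have hM := Z.three
  have h0 := Z.tri.nc x (memV_ZTRI.1 hx).1 y (memV_ZTRI.1 hy).1 (c 0) (Z.fan.mem 0 (by omega)) b
    (memV_ZTRI.1 hb).1 hxy h
  have h1 := pos_ZTRI Z.fan hx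
  have h2 := pos_ZTRI Z.fan hy
  have h3 := pos_ZTRI Z.fan hb
  rw [Crs_base s] at hc h0
  omega

theorem L14_ZTRI (Z : Zip V G H s M c) {x y p q : Fin N} {i : ℕ} (hi : i < M)
    (h1 : cyc s (c i) ≤ cyc s x ∧ cyc s x ≤ cyc s (c (i + 1)))
    (h2 : cyc s (c i) ≤ cyc s y ∧ cyc s y ≤ cyc s (c (i + 1)))
    (hp : p ∈ Cs M (fun i => c (i + 1))) (hq : q ∈ Cs M (fun i => c (i + 1))) :
    ¬ Crs x y p q := by
  intro hc
  have h3 := (posC_ZTRI Z.fan hp).2.2 i hi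
  have h4 := (posC_ZTRI Z.fan hq).2.2 i hi
  rw [Crs_base s] at hc
  omega

theorem L24_ZTRI (Z : Zip V G H s M c) {b p q : Fin N} (h : cyc s b ≤ cyc s (c 1))
    (hp : p ∈ Cs M (fun i => c (i + 1))) (hq : q ∈ Cs M (fun i => c (i + 1))) :
    ¬ Crs (c M) b p q := by
  intro hc
  have h3 := posC_ZTRI Z.fan hp
  have h4 := posC_ZTRI Z.fan hq
  have h5 := h3.1; have h6 := h3.2.1; have h7 := h4.1; have h8 := h4.2.1
  clear h3 h4
  rw [Crs_base s] at hc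
  omega

theorem L22_ZTRI {a b d : Fin N} : ¬ Crs a b a d := by
  intro hc
  rw [Crs_iff] at hc
  omega

theorem nc_ZTRI (Z : Zip V G H s M c) : ∀ a ∈ zV V s (c 0), ∀ b ∈ zV V s (c 0),
    ∀ p ∈ zV V s (c 0), ∀ q ∈ zV V s (c 0), (zG G H s M c).Adj a b → (zG G H s M c).Adj p q →
      ¬ Crs a b p q := by
  intro a ha b hb p hp q hq hab hpq
  rcases cls_ZTRI Z ha hb hab with ⟨h1, i, hi, h2, h3⟩ | ⟨rfl, h1, h2⟩ | ⟨rfl, h1, h2⟩ |
    ⟨h1, h2, h3⟩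
  · rcases cls_ZTRI Z hp hq hpq with ⟨k1, j, hj, k2, k3⟩ | ⟨rfl, k1, k2⟩ | ⟨rfl, k1, k2⟩ |
      ⟨k1, k2, k3⟩
    · exact Z.tri.nc a (memV_ZTRI.1 ha).1 b (memV_ZTRI.1 hb).1 p (memV_ZTRI.1 hp).1 q
        (memV_ZTRI.1 hq).1 h1 k1
    · exact L12_ZTRI Z ha hb hq h1 k1
    · rw [Crs_swap34_iff]; exact L12_ZTRI Z ha hb hp h1 k1
    · exact L14_ZTRI Z hi h2 h3 k1 k2
  · rcases cls_ZTRI Z hp hq hpq with ⟨k1, j, hj, k2, k3⟩ | ⟨rfl, k1, k2⟩ | ⟨rfl, k1, k2⟩ |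
      ⟨k1, k2, k3⟩
    · intro hc; exact L12_ZTRI Z hp hq hb k1 h1 (Crs_symm hc)
    · exact L22_ZTRI
    · rw [Crs_swap34_iff]; exact L22_ZTRI
    · exact L24_ZTRI Z h2 k1 k2
  · rw [Crs_swap12_iff]
    rcases cls_ZTRI Z hp hq hpq with ⟨k1, j, hj, k2, k3⟩ | ⟨rfl, k1, k2⟩ | ⟨rfl, k1, k2⟩ |
      ⟨k1, k2, k3⟩
    · intro hc; exact L12_ZTRI Z hp hq ha k1 h1 (Crs_symm hc)
    · exact L22_ZTRI
    · rw [Crs_swap34_iff]; exact L22_ZTRI
    · exact L24_ZTRI Z h2 k1 k2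
  · rcases cls_ZTRI Z hp hq hpq with ⟨k1, j, hj, k2, k3⟩ | ⟨rfl, k1, k2⟩ | ⟨rfl, k1, k2⟩ |
      ⟨k1, k2, k3⟩
    · intro hc; exact L14_ZTRI Z hj k2 k3 h1 h2 (Crs_symm hc)
    · intro hc; exact L24_ZTRI Z k2 h1 h2 (Crs_symm hc)
    · intro hc; exact L24_ZTRI Z k2 h1 h2 (Crs_swap12 (Crs_symm hc))
    · exact Z.triH.nc a h1 b h2 p k1 q k2 h3 k3

theorem mxB_ZTRI (Z : Zip V G H s M c) {x y : Fin N} (hx : x ∈ zV V s (c 0))
    (hy : y ∈ zV V s (c 0)) (hxy : x ≠ y) (hn : ¬ (zG G H s M c).Adj x y)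
    (hxC : x ∉ Cs M (fun i => c (i + 1))) :
    ∃ p ∈ zV V s (c 0), ∃ q ∈ zV V s (c 0), (zG G H s M c).Adj p q ∧ Crs x y p q := by
  have hM := Z.three
  have F := Z.fan
  have hpx := pos_ZTRI F hx
  have hpy := pos_ZTRI F hy
  obtain ⟨hxV, hxs, hx0⟩ := memV_ZTRI.1 hx
  obtain ⟨hyV, hys, hy0⟩ := memV_ZTRI.1 hy
  have hpos0 := F.pos
  have hxM : cyc s x < cyc s (c M) := lt_of_le_of_ne hpx.2 fun h =>
    hxC (memC_ZTRI.2 ⟨M, by omega, le_rfl, cyc_inj h⟩)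
  obtain ⟨i, hi, h1, h2⟩ := pocket_ZTRI (fun i => cyc s (c i)) (cyc s x) M hpx.1.le hxM
  have h1' : cyc s (c i) < cyc s x := by
    refine lt_of_le_of_ne h1 fun h => ?_
    have hxi := (cyc_inj h).symm
    rcases Nat.eq_zero_or_pos i with h0 | h0
    · rw [h0] at hxi; exact hx0 hxi
    · exact hxC (memC_ZTRI.2 ⟨i, h0, hi.le, hxi⟩)
  have hcc : cyc s (c i) < cyc s (c (i + 1)) := F.mono i (i + 1) (by omega) (by omega)
  have htri : IsTri (Arc V (c i) (c (i + 1))) G :=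
    arcTri N V G Z.tri (c i) (F.mem i hi.le) (c (i + 1)) (F.mem (i + 1) (by omega)) (F.cons i hi)
  have hArc : ∀ v, v ∈ Arc V (c i) (c (i + 1)) ↔ v ∈ V ∧ cyc s (c i) ≤ cyc s v ∧
      cyc s v ≤ cyc s (c (i + 1)) := fun v => mem_Arc_base_ZTRI s hcc.le
  have hxA : x ∈ Arc V (c i) (c (i + 1)) := (hArc x).2 ⟨hxV, h1, h2.le⟩
  rcases Nat.eq_zero_or_pos i with h0 | h0
  · -- the first pocket
    subst h0
    have hc1M : cyc s (c (0 + 1)) < cyc s (c M) := F.mono (0 + 1) M (by omega) le_rfl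
    have hcM := cmem_ZTRI F (j := M) (by omega) le_rfl
    have hMV := F.mem M le_rfl
    by_cases hyM : y = c M
    · subst hyM
      have h0A : c 0 ∈ Arc V (c 0) (c (0 + 1)) := (hArc (c 0)).2 ⟨F.mem 0 (by omega), le_rfl, hcc.le⟩
      have hnn : ¬ G.Adj x (c 0) := fun h => hn (adj_ZTRI hxy hx hy
        (Or.inr (Or.inr (Or.inl ⟨rfl, h.symm⟩))))
      obtain ⟨p, hp, q, hq, hpq, hcr⟩ := htri.mx x hxA (c 0) h0A hx0 hnn
      obtain ⟨hpV, hp1, hp2⟩ := (hArc p).1 hp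
      obtain ⟨hqV, hq1, hq2⟩ := (hArc q).1 hq
      rw [Crs_base s] at hcr
      have hp0 : cyc s (c 0) < cyc s p := by omega
      have hq0 : cyc s (c 0) < cyc s q := by omega
      have hpV' : p ∈ zV V s (c 0) := memV_ZTRI.2 ⟨hpV, cyc_pos.1 (by omega), by
        rintro rfl; omega⟩
      have hqV' : q ∈ zV V s (c 0) := memV_ZTRI.2 ⟨hqV, cyc_pos.1 (by omega), by
        rintro rfl; omega⟩
      refine ⟨p, hpV', q, hqV', adj_ZTRI hpq.ne hpV' hqV' (Or.inl hpq), ?_⟩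
      rw [Crs_base s]
      omega
    · have hyM' : cyc s y < cyc s (c M) := lt_of_le_of_ne hpy.2 fun h => hyM (cyc_inj h)
      by_cases hy1 : cyc s y ≤ cyc s (c (0 + 1))
      · have hyA : y ∈ Arc V (c 0) (c (0 + 1)) := (hArc y).2 ⟨hyV, hpy.1.le, hy1⟩
        have hnn : ¬ G.Adj x y := fun h => hn (adj_ZTRI hxy hx hy (Or.inl h))
        obtain ⟨p, hp, q, hq, hpq, hcr⟩ := htri.mx x hxA y hyA hxy hnn
        obtain ⟨hpV, hp1, hp2⟩ := (hArc p).1 hp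
        obtain ⟨hqV, hq1, hq2⟩ := (hArc q).1 hq
        by_cases hp0 : p = c 0
        · subst hp0
          have hqne : q ≠ c 0 := hpq.ne.symm
          have hqV' : q ∈ zV V s (c 0) := memV_ZTRI.2 ⟨hqV, cyc_pos.1 (by omega), hqne⟩
          have hqM : c M ≠ q := by rintro rfl; omega
          refine ⟨c M, hcM, q, hqV', adj_ZTRI hqM hcM hqV' (Or.inr (Or.inl ⟨rfl, hpq⟩)), ?_⟩
          rw [Crs_base s] at hcr ⊢
          omega
        · have hpV' : p ∈ zV V s (c 0) := memV_ZTRI.2 ⟨hpV, cyc_pos.1 (by omega), hp0⟩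
          by_cases hq0 : q = c 0
          · subst hq0
            have hpM : c M ≠ p := by rintro rfl; omega
            refine ⟨c M, hcM, p, hpV', adj_ZTRI hpM hcM hpV'
              (Or.inr (Or.inl ⟨rfl, hpq.symm⟩)), ?_⟩
            rw [Crs_base s] at hcr ⊢
            omega
          · have hqV' : q ∈ zV V s (c 0) := memV_ZTRI.2 ⟨hqV, cyc_pos.1 (by omega), hq0⟩
            exact ⟨p, hpV', q, hqV', adj_ZTRI hpq.ne hpV' hqV' (Or.inl hpq), hcr⟩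
      · have hc1 := cmem_ZTRI F (j := 0 + 1) (by omega) (by omega)
        have hne : c M ≠ c (0 + 1) := by
          intro h
          rw [h] at hc1M
          omega
        refine ⟨c M, hcM, c (0 + 1), hc1, adj_ZTRI hne hcM hc1
          (Or.inr (Or.inl ⟨rfl, F.cons 0 hi⟩)), ?_⟩
        rw [Crs_base s]
        omega
  · -- the other pockets
    have hci := F.mono 0 i h0 hi.le
    by_cases hyA : y ∈ Arc V (c i) (c (i + 1))
    · have hnn : ¬ G.Adj x y := fun h => hn (adj_ZTRI hxy hx hy (Or.inl h))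
      obtain ⟨p, hp, q, hq, hpq, hcr⟩ := htri.mx x hxA y hyA hxy hnn
      obtain ⟨hpV, hp1, hp2⟩ := (hArc p).1 hp
      obtain ⟨hqV, hq1, hq2⟩ := (hArc q).1 hq
      have hpV' : p ∈ zV V s (c 0) := memV_ZTRI.2 ⟨hpV, cyc_pos.1 (by omega), by
        rintro rfl; omega⟩
      have hqV' : q ∈ zV V s (c 0) := memV_ZTRI.2 ⟨hqV, cyc_pos.1 (by omega), by
        rintro rfl; omega⟩
      exact ⟨p, hpV', q, hqV', adj_ZTRI hpq.ne hpV' hqV' (Or.inl hpq), hcr⟩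
    · rw [hArc] at hyA
      have hy1 : cyc s y < cyc s (c i) ∨ cyc s (c (i + 1)) < cyc s y := by
        by_contra hcon
        push Not at hcon
        exact hyA ⟨hyV, hcon.1, hcon.2⟩
      have hm1 := cmem_ZTRI F (j := i) h0 hi.le
      have hm2 := cmem_ZTRI F (j := i + 1) (by omega) (by omega)
      refine ⟨c i, hm1, c (i + 1), hm2, adj_ZTRI (F.cons i hi).ne hm1 hm2
        (Or.inl (F.cons i hi)), ?_⟩
      rw [Crs_base s]
      omega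

theorem t_ZipTri : stZipTri := by
  intro N V G H s M c Z
  refine ⟨nc_ZTRI Z, ?_⟩
  intro x hx y hy hxy hn
  by_cases hxC : x ∈ Cs M (fun i => c (i + 1))
  · by_cases hyC : y ∈ Cs M (fun i => c (i + 1))
    · have hnn : ¬ H.Adj x y := fun h => hn (adj_ZTRI hxy hx hy
        (Or.inr (Or.inr (Or.inr ⟨hxC, hyC, h⟩))))
      obtain ⟨p, hp, q, hq, hpq, hcr⟩ := Z.triH.mx x hxC y hyC hxy hnn
      have hp' := CsubV_ZTRI Z.fan hp
      have hq' := CsubV_ZTRI Z.fan hq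
      exact ⟨p, hp', q, hq', adj_ZTRI hpq.ne hp' hq' (Or.inr (Or.inr (Or.inr ⟨hp, hq, hpq⟩))),
        hcr⟩
    · obtain ⟨p, hp, q, hq, hpq, hcr⟩ := mxB_ZTRI Z hy hx hxy.symm (fun h => hn h.symm) hyC
      exact ⟨p, hp, q, hq, hpq, Crs_swap12 hcr⟩
  · exact mxB_ZTRI Z hx hy hxy hn hxC

end Pool.Agent.Helper62.GP
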