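import Pool.Agent.Helper62.GP.ZipAsm
import Pool.Agent.Helper62.GP.Z_AN
import Pool.Agent.Helper62.GP.Z_ADD
import Pool.Agent.Helper62.GP.Z_FAN
import Pool.Agent.Helper62.GP.Z_GOOD
import Pool.Agent.Helper62.GP.Z_ROT
import Pool.Agent.Helper62.GP.Z_STAR3
import Pool.Agent.Helper62.GP.Z_STEP
import Pool.Agent.Helper62.GP.Z_ZLN
import Pool.Agent.Helper62.GP.Z_ZTRI
import Pool.Agent.Helper62.GP.Z_ZANG

/-!
# Gilbert-Pollak, chapter COR: the star lemma and the zip, final form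
-/

set_option autoImplicit false

namespace Pool.Agent.Helper62.GP

open Pool.Agent.Helper18.GP Pool.Agent.Helper13.GP Relation Classical Finset

theorem t_Star (hMet : stMet) (hLn : stLnP) : stStar :=
  star_of t_Good t_StarRot (t_Star3 hMet t_AnAdd2 t_AnSign)
    (t_StarStep hMet t_AnAdd t_AnAdd2 t_AnSign (t_Add hLn hMet))

theorem t_Zip0 (hMet : stMet) (hLn : stLnP) (hA : stZipAng) : stZip :=
  zip_of t_Fan (t_Star hMet hLn) t_ZipTri hA (t_ZipLn hMet hLn t_ZipTri) t_AnSign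

theorem t_Zip (hMet : stMet) (hLn : stLnP) : stZip := t_Zip0 hMet hLn (t_ZipAng t_ZipTri)

end Pool.Agent.Helper62.GP
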