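import Pool.Agent.Helper62.GP.StZ
import Pool.Agent.Helper13.GP.Comb

/-!
# Gilbert-Pollak, chapter COR: assembly of the star lemma and of the zip
-/

set_option autoImplicit false

namespace Pool.Agent.Helper62.GP

open Pool.Agent.Helper18.GP Pool.Agent.Helper13.GP Relation Classical Finset

variable {N : ℕ}

lemma nx_lt {m i : ℕ} (hm : 0 < m) : nx m i < m := by
  unfold nx; split_ifs <;> omega

lemma mod_nx {m : ℕ} (hm : 0 < m) (i : ℕ) : (i + 1) % m = nx m (i % m) := by
  unfold nx
  have h1 : i % m < m := Nat.mod_lt _ hm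
  have h2 : (i + 1) % m = (i % m + 1) % m := (Nat.mod_add_mod i m 1).symm
  rw [h2]
  split_ifs with h
  · exact Nat.mod_eq_of_lt h
  · have : i % m + 1 = m := by omega
    rw [this, Nat.mod_self]

theorem star_of (hG : stGood) (hR : stStarRot) (h3 : stStar3) (hS : stStarStep) : stStar := by
  intro N P z m
  induction m with
  | zero => intro c h; exact absurd h.three (by norm_num)
  | succ m ih =>
    intro c h
    rcases Nat.lt_or_ge m 3 with hm | hm
    · have : m = 2 := by have := h.three; omega
      subst this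
      exact h3 N P z c h
    · -- the positions
      set p : ℕ → ℂ := fun i => P (c (i % (m + 1))) - z with hp
      have hmod : ∀ i, i % (m + 1) < m + 1 := fun i => Nat.mod_lt _ (by omega)
      have harg : ∀ i, Complex.arg (p (i + 1) / p i) =
          an z (P (c (i % (m + 1)))) (P (c (nx (m + 1) (i % (m + 1))))) := by
        intro i
        simp only [hp, an, mod_nx (show 0 < m + 1 by omega)]
      obtain ⟨j, hj1, hj2⟩ := hG (m + 1) p (by omega)
        (fun i => by simp only [hp, Nat.add_mod_right])
        (fun i => sub_ne_zero.2 (h.ne _ (hmod i)))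
        (fun i => by rw [harg]; exact h.pos _ (hmod i))
        (fun i => by rw [harg]; exact h.lt (by omega) _ (hmod i))
        (by
          rw [← h.sum]
          refine Finset.sum_congr rfl fun i hi => ?_
          rw [harg, Nat.mod_eq_of_lt (Finset.mem_range.1 hi)])
      obtain ⟨r1, r2⟩ := hR N P z (m + 1) c (j + 2) (by omega)
      set c' : ℕ → Fin N := fun i => c ((i + (j + 2)) % (m + 1)) with hc'
      have hstar := r1 h
      have e0 : c' (m - 1) = c (j % (m + 1)) := by
        simp only [hc']
        congr 1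
        rw [show m - 1 + (j + 2) = j + (m + 1) by omega, Nat.add_mod_right]
      have e1 : c' m = c ((j + 1) % (m + 1)) := by
        simp only [hc']
        congr 1
        rw [show m + (j + 2) = (j + 1) + (m + 1) by omega, Nat.add_mod_right]
      have e2 : c' 0 = c ((j + 2) % (m + 1)) := by
        simp only [hc', zero_add]
      have hP0 : P (c' (m - 1)) - z = p j := by rw [e0]
      have hP1 : P (c' m) - z = p (j + 1) := by rw [e1]
      have hP2 : P (c' 0) - z = p (j + 2) := by rw [e2]
      have hd1 : P (c' m) - P (c' (m - 1)) = p (j + 1) - p j := by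
        rw [← hP0, ← hP1]; ring
      have hd2 : P (c' 0) - P (c' m) = p (j + 2) - p (j + 1) := by
        rw [← hP1, ← hP2]; ring
      have ha1 : an z (P (c' (m - 1))) (P (c' m)) = Complex.arg (p (j + 1) / p j) := by
        rw [an, hP0, hP1]
      have ha2 : an z (P (c' m)) (P (c' 0)) = Complex.arg (p (j + 2) / p (j + 1)) := by
        rw [an, hP1, hP2]
      obtain ⟨s1, s2⟩ := hS N P z m c' hm hstar (by rw [hd1, hd2]; exact hj1) (by
        rw [ha1, ha2]
        rcases hj2 with h | ⟨h, h'⟩
        · exact Or.inl h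
        · exact Or.inr ⟨by omega, h'⟩)
      obtain ⟨H, g, hF⟩ := s2 (ih c' s1)
      exact ⟨H, g, r2 H g hF⟩

lemma Fan.inj {V : Finset (Fin N)} {G : SimpleGraph (Fin N)} {s : Fin N} {M : ℕ}
    {c : ℕ → Fin N} (h : Fan V G s M c) {i j : ℕ} (hi : i ≤ M) (hj : j ≤ M) (hc : c i = c j) :
    i = j := by
  rcases lt_trichotomy i j with h1 | h1 | h1
  · have := h.mono i j h1 hj
    rw [hc] at this
    exact absurd this (lt_irrefl _)
  · exact h1
  · have := h.mono j i h1 hi
    rw [hc] at this
    exact absurd this (lt_irrefl _)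

lemma Fan.cpos {V : Finset (Fin N)} {G : SimpleGraph (Fin N)} {s : Fin N} {M : ℕ}
    {c : ℕ → Fin N} (h : Fan V G s M c) {i : ℕ} (hi : i ≤ M) : 0 < cyc s (c i) := by
  rcases Nat.eq_zero_or_pos i with rfl | h0
  · exact h.pos
  · exact h.pos.trans (h.mono 0 i h0 hi)

lemma Fan.ang_eq {V : Finset (Fin N)} {G : SimpleGraph (Fin N)} {s : Fin N} {M : ℕ}
    {c : ℕ → Fin N} (h : Fan V G s M c) (P : Fin N → ℂ) :
    ang V G P s = ∑ i ∈ range M, an (P s) (P (c i)) (P (c (i + 1))) := by
  rw [ang, h.tri, Finset.sum_image]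
  intro i hi j hj hij
  simp only [coe_range, Set.mem_Iio] at hi hj
  exact h.inj (by omega) (by omega) (Prod.mk.inj hij).1

lemma Fan.crs_pos {V : Finset (Fin N)} {G : SimpleGraph (Fin N)} {s : Fin N} {M : ℕ}
    {c : ℕ → Fin N} (h : Fan V G s M c) {P : Fin N → ℂ} (hS : St V G P) (hs : s ∈ V) {i : ℕ}
    (hi : i < M) : 0 < crs (P (c i) - P s) (P (c (i + 1)) - P s) := by
  refine hS s hs (c i) (h.mem i hi.le) (c (i + 1)) (h.mem _ hi) ?_ (h.adj i hi.le)
    (h.cons i hi) (h.adj _ hi)
  exact ⟨h.cpos hi.le, h.mono i (i + 1) (by omega) hi⟩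

theorem zip_of (hF : stFan) (hSt : stStar) (hT : stZipTri) (hA : stZipAng) (hL : stZipLn)
    (hSg : stAnSign) : stZip := by
  intro N V G P s u u' hV hS hs hu hu' hus hu's huu' hn1 hn2 hP hang
  have h3 : 3 ≤ V.card := by
    have : ({s, u, u'} : Finset (Fin N)) ⊆ V := by
      intro x hx
      simp only [mem_insert, mem_singleton] at hx
      rcases hx with rfl | rfl | rfl <;> assumption
    calc 3 = ({s, u, u'} : Finset (Fin N)).card := by
          rw [card_insert_of_notMem, card_pair huu']
          simp only [mem_insert, mem_singleton, not_or]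
          exact ⟨hus.symm, hu's.symm⟩
      _ ≤ V.card := card_le_card this
  obtain ⟨M, c, hM1, hfan⟩ := hF N V G s hV hs h3
  -- identification of the ends
  have e0 : c 0 = u' := by
    refine cyc_inj (le_antisymm (hfan.first u' hu' hu's) ?_)
    by_contra hlt
    rw [not_le] at hlt
    exact hn2 (c 0) (hfan.mem 0 (by omega)) ⟨hfan.pos, hlt⟩
  have eM : c M = u := by
    refine cyc_inj (le_antisymm ?_ (hfan.last u hu hus))
    by_contra hlt
    rw [not_le] at hlt
    exact hn1 (c M) (hfan.mem M le_rfl) (Ccw_rot ⟨cyc_pos.2 hus, hlt⟩)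
  subst e0 eM
  -- the triangles at s
  have hcrs := fun i (hi : i < M) => hfan.crs_pos hS hs hi
  have hne : ∀ i ≤ M, P (c i) ≠ P s := by
    intro i hi h0
    rcases Nat.lt_or_ge i M with h1 | h1
    · have := hcrs i h1
      rw [h0, sub_self] at this
      simp [crs] at this
    · have hi' : i = M := by omega
      obtain ⟨k, rfl⟩ : ∃ k, M = k + 1 := ⟨M - 1, by omega⟩
      have := hcrs k (by omega)
      rw [← hi', h0, sub_self] at this
      simp [crs] at this
  have hsg : ∀ i < M, 0 < an (P s) (P (c i)) (P (c (i + 1))) ∧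
      an (P s) (P (c i)) (P (c (i + 1))) < Real.pi := fun i hi =>
    ((hSg (P s) (P (c i)) (P (c (i + 1))) (hne i hi.le) (hne _ hi)).2).2 (hcrs i hi)
  have hsum := hfan.ang_eq P
  rw [hang] at hsum
  have hM3 : 3 ≤ M := by
    by_contra hcon
    have : M = 1 ∨ M = 2 := by omega
    rcases this with rfl | rfl
    · rw [sum_range_one] at hsum
      have := (hsg 0 (by omega)).2
      have := Real.pi_pos
      simp only [zero_add] at *
      linarith
    · rw [sum_range_succ, sum_range_one] at hsum
      have h1 := (hsg 0 (by omega)).2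
      have h2 := (hsg 1 (by omega)).2
      simp only [zero_add] at *
      linarith
  -- values at next indices
  have hnx : ∀ i < M, an (P s) (P (c (i + 1))) (P (c (nx M i + 1))) =
      if i + 1 < M then an (P s) (P (c (i + 1))) (P (c (i + 1 + 1)))
      else an (P s) (P (c 0)) (P (c (0 + 1))) := by
    intro i hi
    unfold nx
    split_ifs with h
    · rfl
    · have : i + 1 = M := by omega
      rw [this, hP]
  have hstar : Star P (P s) M (fun i => c (i + 1)) := by
    refine ⟨hM3, ?_, ?_, ?_, ?_, ?_, ?_⟩
    · intro i j k hij hjk hk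
      rw [Ccw_base s]
      left
      exact ⟨hfan.mono _ _ (by omega) (by omega), hfan.mono _ _ (by omega) (by omega)⟩
    · intro i hi
      exact hne _ hi
    · intro i hi
      rw [hnx i hi]
      split_ifs with h
      · exact (hsg _ h).1
      · exact (hsg 0 (by omega)).1
    · intro i hi
      rw [hnx i hi]
      split_ifs with h
      · exact (hsg _ h).2.le
      · exact (hsg 0 (by omega)).2.le
    · intro _ i hi
      rw [hnx i hi]
      split_ifs with h
      · exact (hsg _ h).2
      · exact (hsg 0 (by omega)).2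
    · rw [hsum]
      obtain ⟨k, rfl⟩ : ∃ k, M = k + 1 := ⟨M - 1, by omega⟩
      rw [sum_range_succ, sum_range_succ', hnx k (by omega), if_neg (by omega)]
      congr 1
      refine sum_congr rfl fun i hi => ?_
      have := mem_range.1 hi
      rw [hnx i (by omega), if_pos (by omega)]
  obtain ⟨H, g, hFill⟩ := hSt N P (P s) M _ hstar
  have hZ : Zip V G H s M c := ⟨hV, hs, hM3, hfan, hFill.1⟩
  obtain ⟨hStz, a1, a2, a3⟩ := hA N V G H P s M c hZ hP.symm hS hFill.2.1
  refine ⟨zG G H s M c, hT N V G H s M c hZ, hStz, ?_, ?_, hL N V G H P s M c g hZ hP.symm hFill⟩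
  · intro v hv hvu
    by_cases hvC : v ∈ Cs M fun i => c (i + 1)
    · obtain ⟨i, hi, rfl⟩ := mem_image.1 hvC
      have hi' := mem_range.1 hi
      have hi2 : i + 1 < M := by
        rcases Nat.lt_or_ge (i + 1) M with h | h
        · exact h
        · exfalso; apply hvu
          have : i + 1 = M := by omega
          simp only [this]
      have h1 := a2 (i + 1) (by omega) hi2
      have h2 := hFill.2.2.1 i hi'
      simp only [nx, pv, if_pos hi2] at h2
      rw [h1, h2]
      have h3 : P (c ((if i = 0 then M - 1 else i - 1) + 1)) = P (c (i + 1 - 1)) := by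
        split_ifs with h0
        · subst h0
          rw [show M - 1 + 1 = M by omega, hP]
        · congr 2; omega
      rw [h3]
      ring
    · exact a1 v hv hvC
  · have h2 := hFill.2.2.1 (M - 1) (by omega)
    have e1 : M - 1 + 1 = M := by omega
    simp only [nx, pv, e1, lt_irrefl, if_false, if_neg (show ¬ M - 1 = 0 by omega)] at h2
    rw [a3, h2, show M - 1 - 1 + 1 = M - 1 by omega]
    simp only [zero_add]
    rw [hP]
    ring

end Pool.Agent.Helper62.GP
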