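import Pool.Agent.Helper18.GP.Defs

/-!
# Lemma J for hex chains

A hex chain turns by exactly 60 degrees at each node. If non-adjacent edges are disjoint, the fan
at the first end, one middle triangle and the fan at the last end are positively oriented.
-/

set_option autoImplicit false

namespace Pool.Agent.Helper62.GP

open Pool.Agent.Helper18.GP

/-! ## arithmetic of the lengths -/

/-- offsets of the first point from the lines of the edges -/
def HH (l : ℕ → ℝ) : ℕ → ℝ
  | 0 => 0
  | 1 => l 0
  | 2 => l 0 + l 1
  | (s + 3) => l (s + 1) + l (s + 2) - HH l s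

/-- distance of parallel edges -/
def DD (l : ℕ → ℝ) (i : ℕ) : ℝ := l (i + 4) + l (i + 5) - l (i + 1) - l (i + 2)

lemma HH_step (l : ℕ → ℝ) (s : ℕ) : HH l (s + 6) = HH l s + DD l s := by
  have h1 : HH l (s + 6) = l (s + 4) + l (s + 5) - HH l (s + 3) := by
    rw [show s + 6 = (s + 3) + 3 from rfl, HH]
  have h2 : HH l (s + 3) = l (s + 1) + l (s + 2) - HH l s := by rw [HH]
  rw [h1, h2, DD]; ring

/-- the inequalities which follow from the disjointness of the edges -/
structure HC (l : ℕ → ℝ) (k : ℕ) : Prop where
  pos : ∀ i ≤ k, 0 < l i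
  nc4 : ∀ i, i + 4 ≤ k → l i < l (i + 2) + l (i + 3) ∨ l (i + 4) < l (i + 1) + l (i + 2)
  nc5 : ∀ i, i + 5 ≤ k → ¬ (l (i + 4) ≤ l (i + 1) + l (i + 2) ∧
    l (i + 1) + l (i + 2) ≤ l (i + 4) + l (i + 5) ∧ l (i + 1) ≤ l (i + 3) + l (i + 4) ∧
    l (i + 3) + l (i + 4) ≤ l i + l (i + 1))

lemma HC.rev {l : ℕ → ℝ} {k : ℕ} (h : HC l k) : HC (fun i => l (k - i)) k := by
  refine ⟨fun i hi => h.pos _ (Nat.sub_le _ _), fun i hi => ?_, fun i hi => ?_⟩
  · obtain ⟨j, rfl⟩ : ∃ j, k = i + 4 + j := ⟨k - (i + 4), by omega⟩
    have := h.nc4 j (by omega)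
    have e0 : i + 4 + j - i = j + 4 := by omega
    have e1 : i + 4 + j - (i + 1) = j + 3 := by omega
    have e2 : i + 4 + j - (i + 2) = j + 2 := by omega
    have e3 : i + 4 + j - (i + 3) = j + 1 := by omega
    have e4 : i + 4 + j - (i + 4) = j := by omega
    simp only [e0, e1, e2, e3, e4]
    rcases this with h1 | h1
    · right; linarith
    · left; linarith
  · obtain ⟨j, rfl⟩ : ∃ j, k = i + 5 + j := ⟨k - (i + 5), by omega⟩
    have := h.nc5 j (by omega)
    have e0 : i + 5 + j - i = j + 5 := by omega
    have e1 : i + 5 + j - (i + 1) = j + 4 := by omega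
    have e2 : i + 5 + j - (i + 2) = j + 3 := by omega
    have e3 : i + 5 + j - (i + 3) = j + 2 := by omega
    have e4 : i + 5 + j - (i + 4) = j + 1 := by omega
    have e5 : i + 5 + j - (i + 5) = j := by omega
    simp only [e0, e1, e2, e3, e4, e5]
    rintro ⟨h1, h2, h3, h4⟩
    exact this ⟨by linarith, by linarith, by linarith, by linarith⟩

lemma DD_rev (l : ℕ → ℝ) (k i : ℕ) (hi : i + 6 ≤ k) :
    DD (fun i => l (k - i)) i = - DD l (k - 6 - i) := by
  obtain ⟨j, rfl⟩ : ∃ j, k = i + 6 + j := ⟨k - (i + 6), by omega⟩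
  have e1 : i + 6 + j - (i + 1) = j + 5 := by omega
  have e2 : i + 6 + j - (i + 2) = j + 4 := by omega
  have e4 : i + 6 + j - (i + 4) = j + 2 := by omega
  have e5 : i + 6 + j - (i + 5) = j + 1 := by omega
  have e6 : i + 6 + j - 6 - i = j := by omega
  simp only [DD, e1, e2, e4, e5, e6]
  ring

/-- six consecutive edges -/
lemma HC.six {l : ℕ → ℝ} {k : ℕ} (h : HC l k) (i : ℕ) (hi : i + 5 ≤ k) :
    (l i < l (i + 2) + l (i + 3) ∧ l i + l (i + 1) < l (i + 3) + l (i + 4)) ∨
      (l (i + 5) < l (i + 2) + l (i + 3) ∧ l (i + 4) + l (i + 5) < l (i + 1) + l (i + 2)) := by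
  have p0 := h.pos i (by omega)
  have p1 := h.pos (i + 1) (by omega)
  have p2 := h.pos (i + 2) (by omega)
  have p3 := h.pos (i + 3) (by omega)
  have p4 := h.pos (i + 4) (by omega)
  have p5 := h.pos (i + 5) (by omega)
  have n0 := h.nc4 i (by omega)
  have n1 := h.nc4 (i + 1) (by omega)
  have n5 := h.nc5 i hi
  have e3 : i + 1 + 2 = i + 3 := by omega
  have e4 : i + 1 + 3 = i + 4 := by omega
  have e5 : i + 1 + 4 = i + 5 := by omega
  have e2 : i + 1 + 1 = i + 2 := by omega
  rw [e3, e4, e5, e2] at n1
  by_contra hcon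
  rw [not_or, not_and_or, not_and_or, not_lt, not_lt, not_lt, not_lt] at hcon
  obtain ⟨c1, c2⟩ := hcon
  by_cases a1 : l (i + 4) ≤ l (i + 1) + l (i + 2)
  · by_cases a2 : l (i + 1) + l (i + 2) ≤ l (i + 4) + l (i + 5)
    · by_cases a3 : l (i + 1) ≤ l (i + 3) + l (i + 4)
      · by_cases a4 : l (i + 3) + l (i + 4) ≤ l i + l (i + 1)
        · exact n5 ⟨a1, a2, a3, a4⟩
        · rcases n0 with n0 | n0 <;> rcases n1 with n1 | n1 <;> rcases c1 with c1 | c1 <;>
            rcases c2 with c2 | c2 <;> linarith
      · rcases n0 with n0 | n0 <;> rcases n1 with n1 | n1 <;> rcases c1 with c1 | c1 <;>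
            rcases c2 with c2 | c2 <;> linarith
    · rcases n0 with n0 | n0 <;> rcases n1 with n1 | n1 <;> rcases c1 with c1 | c1 <;>
            rcases c2 with c2 | c2 <;> linarith
  · rcases n0 with n0 | n0 <;> rcases n1 with n1 | n1 <;> rcases c1 with c1 | c1 <;>
            rcases c2 with c2 | c2 <;> linarith

/-- once inwards, always inwards -/
lemma HC.inw {l : ℕ → ℝ} {k : ℕ} (h : HC l k) (i : ℕ) (hi : i + 7 ≤ k) (hD : DD l i ≤ 0) :
    DD l (i + 1) < 0 := by
  have p1 := h.pos (i + 1) (by omega)
  have p2 := h.pos (i + 2) (by omega)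
  have p3 := h.pos (i + 3) (by omega)
  have p4 := h.pos (i + 4) (by omega)
  have p5 := h.pos (i + 5) (by omega)
  have p6 := h.pos (i + 6) (by omega)
  have n1 := h.nc4 (i + 1) (by omega)
  have n2 := h.nc4 (i + 2) (by omega)
  have n5 := h.nc5 (i + 1) (by omega)
  simp only [add_assoc, Nat.reduceAdd] at n1 n2 n5
  have hD' : l (i + 4) + l (i + 5) - l (i + 1) - l (i + 2) ≤ 0 := hD
  show l (i + 1 + 4) + l (i + 1 + 5) - l (i + 1 + 1) - l (i + 1 + 2) < 0
  simp only [add_assoc, Nat.reduceAdd]
  by_contra hcon
  rw [not_lt] at hcon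
  by_cases a1 : l (i + 5) ≤ l (i + 2) + l (i + 3)
  · by_cases a3 : l (i + 2) ≤ l (i + 4) + l (i + 5)
    · exact n5 ⟨a1, by linarith, a3, by linarith⟩
    · rcases n1 with n1 | n1 <;> rcases n2 with n2 | n2 <;> linarith
  · rcases n1 with n1 | n1 <;> rcases n2 with n2 | n2 <;> linarith

lemma HH_four (l : ℕ → ℝ) : HH l 4 = l 2 + l 3 - l 0 := by
  rw [show (4 : ℕ) = 1 + 3 from rfl, HH, HH]

lemma HH_five (l : ℕ → ℝ) : HH l 5 = l 3 + l 4 - (l 0 + l 1) := by
  rw [show (5 : ℕ) = 2 + 3 from rfl, HH, HH]

lemma HH_three (l : ℕ → ℝ) : HH l 3 = l 1 + l 2 := by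
  rw [show (3 : ℕ) = 0 + 3 from rfl, HH, HH]; simp

lemma HH_small {l : ℕ → ℝ} {k : ℕ} (h : HC l k) (s : ℕ) (h1 : 1 ≤ s) (h3 : s ≤ 3) (hk : s ≤ k) :
    0 < HH l s := by
  have p0 := h.pos 0 (by omega)
  interval_cases s
  · rw [HH]; exact p0
  · rw [HH]; have := h.pos 1 (by omega); linarith
  · rw [HH_three]
    have := h.pos 1 (by omega)
    have := h.pos 2 (by omega)
    linarith

/-- positivity of the offsets -/
lemma HC.Hpos {l : ℕ → ℝ} {k : ℕ} (h : HC l k) (m : ℕ) (hm : m + 5 ≤ k) (h0 : 0 ≤ DD l 0)
    (hD : ∀ i < m, 0 < DD l i) : ∀ s, 1 ≤ s → s ≤ m + 5 → 0 < HH l s := by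
  have h6 := h.six 0 (by omega)
  have h6' : l 0 < l 2 + l 3 ∧ l 0 + l 1 < l 3 + l 4 := by
    rcases h6 with h6 | h6
    · simpa using h6
    · exfalso
      have : DD l 0 = l 4 + l 5 - l 1 - l 2 := by simp [DD]
      rw [this] at h0
      simp only [zero_add] at h6
      linarith [h6.2]
  intro s
  induction s using Nat.strong_induction_on with
  | _ s ih =>
    intro h1 hs
    rcases Nat.lt_or_ge s 6 with h5 | h5
    · rcases Nat.lt_or_ge s 4 with h4 | h4
      · exact HH_small h s h1 (by omega) (by omega)
      · have : s = 4 ∨ s = 5 := by omega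
        rcases this with rfl | rfl
        · rw [HH_four]; linarith [h6'.1]
        · rw [HH_five]; linarith [h6'.2]
    · obtain ⟨j, rfl⟩ : ∃ j, s = j + 6 := ⟨s - 6, by omega⟩
      rw [HH_step]
      have hDj := hD j (by omega)
      rcases Nat.eq_zero_or_pos j with rfl | hj
      · rw [HH]; linarith
      · have := ih j (by omega) hj (by omega)
        linarith

lemma HC.after {l : ℕ → ℝ} {k : ℕ} (h : HC l k) (i : ℕ) (hD : DD l i ≤ 0) :
    ∀ j, i < j → j + 6 ≤ k → DD l j < 0 := by
  intro j hij
  induction j, hij using Nat.le_induction with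
  | base => intro hk; exact h.inw i (by omega) hD
  | succ j hj ih => intro hk; exact h.inw j (by omega) (ih (by omega)).le

/-- the trichotomy -/
lemma HC.main {l : ℕ → ℝ} {k : ℕ} (h : HC l k) :
    (∀ s, 1 ≤ s → s ≤ k → 0 < HH l s) ∨
    (∀ s, 1 ≤ s → s ≤ k → 0 < HH (fun i => l (k - i)) s) ∨
    (∃ i, (1 ≤ i ∨ (k = 6 ∧ HH l 6 = 0)) ∧ i + 6 ≤ k ∧ (∀ s, 1 ≤ s → s ≤ i + 5 → 0 < HH l s) ∧
      (∀ s, 1 ≤ s → s + i + 1 ≤ k → 0 < HH (fun i => l (k - i)) s)) := by
  have hr := h.rev
  rcases Nat.lt_or_ge k 6 with hk | hk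
  · rcases Nat.lt_or_ge k 4 with hk3 | hk3
    · left
      intro s h1 hs
      exact HH_small h s h1 (by omega) hs
    · have hk' : k = 4 ∨ k = 5 := by omega
      rcases hk' with rfl | rfl
      · rcases h.nc4 0 (by omega) with h1 | h1
        · left
          intro s hs1 hs
          rcases Nat.lt_or_ge s 4 with h4 | h4
          · exact HH_small h s hs1 (by omega) (by omega)
          · have : s = 4 := by omega
            subst this
            rw [HH_four]
            simp only [zero_add] at h1
            linarith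
        · right; left
          intro s hs1 hs
          rcases Nat.lt_or_ge s 4 with h4 | h4
          · exact HH_small hr s hs1 (by omega) (by omega)
          · have : s = 4 := by omega
            subst this
            rw [HH_four]
            simp only [zero_add] at h1
            simp
            linarith
      · rcases h.six 0 (by omega) with h1 | h1
        · left
          intro s hs1 hs
          rcases Nat.lt_or_ge s 4 with h4 | h4
          · exact HH_small h s hs1 (by omega) (by omega)
          · have : s = 4 ∨ s = 5 := by omega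
            simp only [zero_add] at h1
            rcases this with rfl | rfl
            · rw [HH_four]; linarith
            · rw [HH_five]; linarith
        · right; left
          intro s hs1 hs
          rcases Nat.lt_or_ge s 4 with h4 | h4
          · exact HH_small hr s hs1 (by omega) (by omega)
          · have : s = 4 ∨ s = 5 := by omega
            simp only [zero_add] at h1
            rcases this with rfl | rfl
            · rw [HH_four]; simp; linarith
            · rw [HH_five]; simp; linarith
  · by_cases hall : ∀ i, i + 6 ≤ k → 0 < DD l i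
    · left
      intro s h1 hs
      exact h.Hpos (k - 5) (by omega) (hall 0 (by omega)).le (fun i hi => hall i (by omega)) s h1
        (by omega)
    · have hex : ∃ i, i + 6 ≤ k ∧ DD l i ≤ 0 := by
        push Not at hall
        exact hall
      classical
      obtain ⟨hi1, hi2⟩ := Nat.find_spec hex
      set i := Nat.find hex with hidef
      have hbef : ∀ j < i, 0 < DD l j := by
        intro j hj
        have := Nat.find_min hex hj
        rw [not_and, not_le] at this
        exact this (by omega)
      have haft := h.after i hi2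
      have hrD : ∀ j, j + i < k - 6 → 0 < DD (fun i => l (k - i)) j := by
        intro j hj
        rw [DD_rev l k j (by omega)]
        have := haft (k - 6 - j) (by omega) (by omega)
        linarith
      have hrD0 : 0 ≤ DD (fun i => l (k - i)) 0 := by
        rw [DD_rev l k 0 (by omega)]
        rcases Nat.lt_or_ge i (k - 6) with h1 | h1
        · have := haft (k - 6 - 0) (by omega) (by omega)
          linarith
        · have : k - 6 - 0 = i := by omega
          rw [this]; linarith
      have hsecond : ∀ s, 1 ≤ s → s + i + 1 ≤ k → 0 < HH (fun i => l (k - i)) s := by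
        intro s h1 hs
        exact hr.Hpos (k - 6 - i) (by omega) hrD0 (fun j hj => hrD j (by omega)) s h1 (by omega)
      rcases Nat.eq_zero_or_pos i with h0 | h0
      · rw [h0] at hi2 hsecond hrD
        rcases Nat.lt_or_ge 6 k with hk6 | hk6
        · right; left
          intro s h1 hs
          rcases Nat.lt_or_ge s k with hsk | hsk
          · exact hsecond s h1 (by omega)
          · have : s = (k - 6) + 6 := by omega
            rw [this, HH_step, DD_rev l k (k - 6) (by omega)]
            have h3 := hsecond (k - 6) (by omega) (by omega)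
            have h4 : k - 6 - (k - 6) = 0 := by omega
            rw [h4]
            linarith
        · have hk66 : k = 6 := by omega
          subst hk66
          rcases hi2.lt_or_eq with hlt | heq
          · right; left
            intro s h1 hs
            rcases Nat.lt_or_ge s 6 with hsk | hsk
            · exact hsecond s h1 (by omega)
            · have : s = 0 + 6 := by omega
              rw [this, HH_step, DD_rev l 6 0 (by omega), HH]
              simp
              exact hlt
          · right; right
            refine ⟨0, Or.inr ⟨rfl, ?_⟩, by omega, ?_, ?_⟩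
            · have := HH_step l 0
              rw [zero_add, HH, zero_add] at this
              rw [this, heq]
            · intro s h1 hs
              exact h.Hpos 0 (by omega) heq.ge (fun i hi => absurd hi (by omega)) s h1 hs
            · intro s h1 hs
              exact hsecond s h1 hs
      · right; right
        refine ⟨i, Or.inl h0, hi1, ?_, hsecond⟩
        intro s h1 hs
        exact h.Hpos i (by omega) (hbef 0 h0).le hbef s h1 hs

end Pool.Agent.Helper62.GP
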