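import Pool.Agent.Helper18.GP.Api
import Pool.Agent.Helper13.GP.Cyc2

/-!
# Gilbert-Pollak, chapter COR, part ZIP: statements

`stAdd`: one more positive triangle on a side. `stZip`: a boundary vertex `s` of total angle
`2 pi` whose two boundary neighbours have the same position is removed and the two neighbours are
identified. All statements at the level of `Api.lean` (labels in `Fin N`).
-/

set_option autoImplicit false

namespace Pool.Agent.Helper62.GP

open Pool.Agent.Helper18.GP Pool.Agent.Helper13.GP Relation Classical Finset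

variable {N : ℕ}

/-- oriented triangles at `v`, as pairs of the other two vertices -/
noncomputable def tris (V : Finset (Fin N)) (G : SimpleGraph (Fin N)) (v : Fin N) :
    Finset (Fin N × Fin N) :=
  (V ×ˢ V).filter fun e => Ccw v e.1 e.2 ∧ G.Adj v e.1 ∧ G.Adj v e.2 ∧ G.Adj e.1 e.2

/-- the angle at `x` from `y` to `z` (counterclockwise, in `(-pi, pi]`) -/
noncomputable def an (x y z : ℂ) : ℝ := Complex.arg ((z - x) / (y - x))

/-- total angle of the polygon at the vertex `v` -/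
noncomputable def ang (V : Finset (Fin N)) (G : SimpleGraph (Fin N)) (P : Fin N → ℂ)
    (v : Fin N) : ℝ := ∑ e ∈ tris V G v, an (P v) (P e.1) (P e.2)

/-! ## angles -/

/-- additivity of angles: `y1, y2, y3` counterclockwise around `x`, total at most `pi` -/
def stAnAdd : Prop := ∀ x y1 y2 y3 : ℂ, y1 ≠ x → y2 ≠ x → y3 ≠ x → 0 ≤ an x y1 y2 →
  0 ≤ an x y2 y3 → an x y1 y2 + an x y2 y3 ≤ Real.pi → an x y1 y3 = an x y1 y2 + an x y2 y3

/-- the same when the total is only known modulo `2 pi` -/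
def stAnAdd2 : Prop := ∀ x y1 y2 y3 : ℂ, y1 ≠ x → y2 ≠ x → y3 ≠ x → 0 ≤ an x y1 y2 →
  an x y1 y2 < Real.pi → 0 ≤ an x y2 y3 → an x y2 y3 < Real.pi → 0 ≤ an x y1 y3 →
  an x y1 y3 = an x y1 y2 + an x y2 y3

/-- sign of the angle. Proof. `Im ((z - x) / (y - x)) = crs (y - x) (z - x) / |y - x|^2`. -/
def stAnSign : Prop := ∀ x y z : ℂ, y ≠ x → z ≠ x →
  (0 ≤ an x y z ↔ 0 ≤ crs (y - x) (z - x)) ∧
  ((0 < an x y z ∧ an x y z < Real.pi) ↔ 0 < crs (y - x) (z - x))

/-- **good vertex** of a closed star polygon (`p` periodic with period `m`, the centre is `0`):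
`p j, p (j+1), p (j+2)` is a strict left turn and the window is small.
Proof. Write `a i = arg (p (i+1) / p i)`, `Bad j` iff `π ≤ a j + a (j+1)` (if `m = 4`: `π < ..`).
(1) two bad windows `j, j'` with `j + 2 ≤ j' ≤ j + m - 2` are impossible: the four angles are
different members of one period, whose sum is `2 π`, and for `m ≥ 5` there is a fifth positive one.
So there is `j0` such that every bad `j` in `[j0, j0 + m)` is `j0` or `j0 + 1` (if some `j1` is bad
take `j0 = j1` if `j1 + 1` is bad and `j0 = j1 - 1 (+ m)` otherwise).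
(2) Suppose there is no good vertex. Then for `j0 + 2 ≤ j ≤ j0 + m - 1` the window `j` is not bad, so
`crs (p (j+1) - p j) (p (j+2) - p (j+1)) ≤ 0`. Put `b i = p (j0 + 2 + i)`, `r = m - 1`, then all
turns at `b 1, .., b (r-1)` are `≤ 0` and the swept angle is `2 π - a (j0+1) > π`.
(3) SWEEP: `0 < arg (b (i+1) / b i) < π` for `i < r`, turns `≤ 0` imply swept angle `< π`:
put `e i = b (i+1) - b i`; by induction `0 < crs (b 0) (e i)` and `0 < crs (b 0) (b (i+1))`, because
`crs (b (i+1)) (e i) * crs (b 0) (e (i+1)) = crs (e (i+1)) (e i) * crs (b 0) (b (i+1)) +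
crs (b (i+1)) (e (i+1)) * crs (b 0) (e i)` and `crs (b (i+1)) (e i) = crs (b i) (b (i+1)) > 0`. With
`A i` the swept angle: `A i < π` and `A (i+1) < A i + π < 2 π`, and `crs (b 0) (b (i+1)) > 0` means
`sin (A (i+1)) > 0`, so `A (i+1) < π`. -/
def stGood : Prop := ∀ (m : ℕ) (p : ℕ → ℂ), 4 ≤ m → (∀ i, p (i + m) = p i) → (∀ i, p i ≠ 0) →
  (∀ i, 0 < Complex.arg (p (i + 1) / p i)) → (∀ i, Complex.arg (p (i + 1) / p i) < Real.pi) →
  ∑ i ∈ range m, Complex.arg (p (i + 1) / p i) = 2 * Real.pi →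
  ∃ j, 0 < crs (p (j + 1) - p j) (p (j + 2) - p (j + 1)) ∧
    (Complex.arg (p (j + 1) / p j) + Complex.arg (p (j + 2) / p (j + 1)) < Real.pi ∨
      (m = 4 ∧ Complex.arg (p (j + 1) / p j) + Complex.arg (p (j + 2) / p (j + 1)) ≤ Real.pi))

/-! ## adding a triangle -/

/-- a new vertex `z` between the consecutive vertices `q`, `a` (in this order `q, z, a` on the
circle), one new triangle `q, z, a`.
Proof. `G' := G restricted to V, plus z a, z q` (`SimpleGraph.fromRel` or an explicit structure).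
`G.Adj q a` by `bdAdj`. `nc`: the two new edges do not interleave with pairs inside `V` because no
vertex of `V` lies strictly between `q` and `a` on the side of `z`. `mx`: for `x, y ∈ V` the old
witness; for `z, x` with `x ≠ a, q` the edge `q a`. Triangles of `G'`: the old ones and `q, z, a`. -/
def stAdd : Prop := ∀ (N : ℕ) (V : Finset (Fin N)) (G : SimpleGraph (Fin N)) (P : Fin N → ℂ)
  (z a q : Fin N), IsTri V G → St V G P → z ∉ V → a ∈ V → q ∈ V → Ccw q z a →
  (∀ v ∈ V, ¬ Ccw q v a) → 0 < crs (P z - P q) (P a - P q) →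
  ∃ G' : SimpleGraph (Fin N), IsTri (insert z V) G' ∧ St (insert z V) G' P ∧
    (∀ x ∈ V, ∀ y ∈ V, (G'.Adj x y ↔ G.Adj x y)) ∧ (∀ x ∈ V, (G'.Adj z x ↔ x = a ∨ x = q)) ∧
    (∀ v ∈ V, v ≠ a → v ≠ q → ang (insert z V) G' P v = ang V G P v) ∧
    ang (insert z V) G' P a = ang V G P a + an (P a) (P q) (P z) ∧
    ang (insert z V) G' P q = ang V G P q + an (P q) (P z) (P a) ∧
    ang (insert z V) G' P z = an (P z) (P a) (P q) ∧
    ∀ B ⊆ V, Ln (insert z V) G' P B ≤ Ln V G P B

/-! ## the star lemma -/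

/-- next index modulo `m` -/
def nx (m i : ℕ) : ℕ := if i + 1 < m then i + 1 else 0

/-- previous index modulo `m` -/
def pv (m i : ℕ) : ℕ := if i = 0 then m - 1 else i - 1

/-- labels `c 0, .., c (m-1)` in cyclic order form a closed star polygon around `z` -/
structure Star (P : Fin N → ℂ) (z : ℂ) (m : ℕ) (c : ℕ → Fin N) : Prop where
  three : 3 ≤ m
  ord : ∀ i j k, i < j → j < k → k < m → Ccw (c i) (c j) (c k)
  ne : ∀ i < m, P (c i) ≠ z
  pos : ∀ i < m, 0 < an z (P (c i)) (P (c (nx m i)))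
  le : ∀ i < m, an z (P (c i)) (P (c (nx m i))) ≤ Real.pi
  lt : 4 ≤ m → ∀ i < m, an z (P (c i)) (P (c (nx m i))) < Real.pi
  sum : ∑ i ∈ range m, an z (P (c i)) (P (c (nx m i))) = 2 * Real.pi

/-- the labels -/
noncomputable def Cs (m : ℕ) (c : ℕ → Fin N) : Finset (Fin N) := (range m).image c

/-- the star triangle -/
def T3 (P : Fin N → ℂ) (z : ℂ) (m : ℕ) (c : ℕ → Fin N) (i : ℕ) : Set ℂ :=
  convexHull ℝ {z, P (c i), P (c (nx m i))}

/-- a positive triangulation `H` of the star polygon without the centre, with a map of the star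
polygon into it which does not increase lengths inside the star triangles -/
def Fill (P : Fin N → ℂ) (z : ℂ) (m : ℕ) (c : ℕ → Fin N) (H : SimpleGraph (Fin N))
    (g : ℂ → (Fin N → ℝ)) : Prop :=
  IsTri (Cs m c) H ∧ St (Cs m c) H P ∧
  (∀ i < m, ang (Cs m c) H P (c i) =
    an (P (c i)) (P (c (nx m i))) z + an (P (c i)) z (P (c (pv m i)))) ∧
  (∀ i < m, ∀ w ∈ T3 P z m c i, g w ∈ Pts (Cs m c) H ∧ dev P (g w) = w) ∧
  (∀ i < m, ∀ w ∈ T3 P z m c i, ∀ w' ∈ T3 P z m c i,
    dK (Cs m c) H P (g w) (g w') ≤ ‖w - w'‖) ∧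
  ∀ i < m, ∀ τ ∈ Set.Icc (0 : ℝ) 1,
    g ((1 - τ : ℝ) * P (c i) + (τ : ℝ) * P (c (nx m i))) = seg (c i) (c (nx m i)) τ

/-- the star lemma -/
def stStar : Prop := ∀ (N : ℕ) (P : Fin N → ℂ) (z : ℂ) (m : ℕ) (c : ℕ → Fin N), Star P z m c →
  ∃ H g, Fill P z m c H g

/-- rotation of the indices.
Proof. With `c' i = c ((i + r) % m)`: all fields are statements about the set of the pairs
`(c i, c (nx m i))`, `i < m`, and `Cs m c' = Cs m c`. -/
def stStarRot : Prop := ∀ (N : ℕ) (P : Fin N → ℂ) (z : ℂ) (m : ℕ) (c : ℕ → Fin N) (r : ℕ),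
  3 ≤ m → (Star P z m c → Star P z m fun i => c ((i + r) % m)) ∧
  ∀ H g, Fill P z m (fun i => c ((i + r) % m)) H g → Fill P z m c H g

/-- base of the star lemma.
Proof. `H` complete graph. `z = α P(c 0) + β P(c 1) + γ P(c 2)` with `α, β, γ ≥ 0`, sum 1 (areas
`crs (P(c 1) - z) (P(c 2) - z)` etc. are `≥ 0` because the angles are in `(0, π]`; at most one of the
angles is `π`, so the area of the triangle is positive). `g w` = barycentric coordinates of `w`.
`dK ≤ dist` because both points lie in the clique. Angles: `an (P c0) (P c1) (P c2) =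
an (P c0) (P c1) z + an (P c0) z (P c2)` (`stAnAdd`). -/
def stStar3 : Prop := ∀ (N : ℕ) (P : Fin N → ℂ) (z : ℂ) (c : ℕ → Fin N), Star P z 3 c →
  ∃ H g, Fill P z 3 c H g

/-- induction step of the star lemma: the last vertex `y = c m` is cut off (`m ≥ 3`, so there are
`m + 1 ≥ 4` vertices), `b = c (m-1)`, `a = c 0`.
Proof. (i) `Star P z m c` (the angles at `z`: `an z b a = an z b y + an z y a`). (ii) `H` from `H'`
by `stAdd` (`q = b`, new vertex `y`, `a`). (iii) `E = convexHull {b, y, a}` (positions), `g w` :=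
barycentric point on `b, y, a` if `w ∈ E`, else `g' w`. Star triangles `i < m - 1`: `T3 ∩ E` is
contained in the chord `[b, a]`, where both definitions agree (`g' = seg` on `[b,a]`). The triangles
`{z, b, y}` and `{z, y, a}`: every point is in `E` or in the old star triangle `{z, b, a}`; two
points of `E`: `dK ≤ dist` (clique); two points of the old triangle: `dK` of the larger complex is
not larger; otherwise the segment meets `[b, a]` in a point `q`, and
`dK (g w) (g q) + dK (g q) (g w') ≤ |w - q| + |q - w'| = |w - w'|`. (iv) Angles: at `a`: `an a z y = an a z b + an a b y`, at `b`: `an b y z = an b y a + an b a z`,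
at `y`: `an y a b = an y a z + an y z b` (`stAnAdd2`, `stAnSign`); the other vertices do not
change. -/
def stStarStep : Prop := ∀ (N : ℕ) (P : Fin N → ℂ) (z : ℂ) (m : ℕ) (c : ℕ → Fin N), 3 ≤ m →
  Star P z (m + 1) c →
  0 < crs (P (c m) - P (c (m - 1))) (P (c 0) - P (c m)) →
  (an z (P (c (m - 1))) (P (c m)) + an z (P (c m)) (P (c 0)) < Real.pi ∨
    (m = 3 ∧ an z (P (c (m - 1))) (P (c m)) + an z (P (c m)) (P (c 0)) ≤ Real.pi)) →
  Star P z m c ∧ ((∃ H' g', Fill P z m c H' g') → ∃ H g, Fill P z (m + 1) c H g)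

/-! ## the fan of a vertex -/

/-- neighbours `c 0, .., c M` of `s` in cyclic order -/
structure Fan (V : Finset (Fin N)) (G : SimpleGraph (Fin N)) (s : Fin N) (M : ℕ)
    (c : ℕ → Fin N) : Prop where
  mem : ∀ i ≤ M, c i ∈ V
  adj : ∀ i ≤ M, G.Adj s (c i)
  mono : ∀ i j, i < j → j ≤ M → cyc s (c i) < cyc s (c j)
  pos : 0 < cyc s (c 0)
  all : ∀ v ∈ V, G.Adj s v → ∃ i ≤ M, v = c i
  cons : ∀ i < M, G.Adj (c i) (c (i + 1))
  tri : tris V G s = (range M).image fun i => (c i, c (i + 1))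
  /-- `c 0` is the next vertex after `s` -/
  first : ∀ v ∈ V, v ≠ s → cyc s (c 0) ≤ cyc s v
  /-- `c M` is the vertex before `s` -/
  last : ∀ v ∈ V, v ≠ s → cyc s v ≤ cyc s (c M)
  /-- an edge avoiding `s` lies in one pocket -/
  pocket : ∀ x ∈ V, ∀ y ∈ V, x ≠ s → y ≠ s → G.Adj x y → ∃ i < M,
    (cyc s (c i) ≤ cyc s x ∧ cyc s x ≤ cyc s (c (i + 1))) ∧
    (cyc s (c i) ≤ cyc s y ∧ cyc s y ≤ cyc s (c (i + 1)))

/-- Proof. Order the neighbours of `s` by `cyc s` (`Finset.orderEmbOfFin` of the image, or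
induction). Consecutive neighbours `c i, c (i+1)` are adjacent: by `apex` (`stApex`) for the edge
`s c(i+1)` in the polygon `Arc V s (c (i+1))`... the apex on the side of `c i` is a neighbour `v` of
`s`, `v = c j` with `j ≤ i`, and `j < i` is impossible since `v c(i+1)` would interleave with
`s c(i)`. First and last: sides are edges (`bdAdj`). Pocket: `x y` does not interleave with
`s (c i)` for all `i`. -/
def stFan : Prop := ∀ (N : ℕ) (V : Finset (Fin N)) (G : SimpleGraph (Fin N)) (s : Fin N),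
  IsTri V G → s ∈ V → 3 ≤ V.card → ∃ M c, 1 ≤ M ∧ Fan V G s M c

/-! ## the zip -/

/-- the graph after the zip: `s` and `u' = c 0` disappear, `u = c M`, `H` fills the star -/
def zipG (G H : SimpleGraph (Fin N)) (s u u' : Fin N) (C : Finset (Fin N)) :
    SimpleGraph (Fin N) where
  Adj x y := x ≠ y ∧ (x ≠ s ∧ y ≠ s ∧ x ≠ u' ∧ y ≠ u') ∧
    (G.Adj x y ∨ (x = u ∧ G.Adj u' y) ∨ (y = u ∧ G.Adj u' x) ∨ (x ∈ C ∧ y ∈ C ∧ H.Adj x y))
  symm := ⟨fun x y h => ⟨h.1.symm, ⟨h.2.1.2.1, h.2.1.1, h.2.1.2.2.2, h.2.1.2.2.1⟩, by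
    rcases h.2.2 with h | h | h | h
    · exact Or.inl h.symm
    · exact Or.inr (Or.inr (Or.inl h))
    · exact Or.inr (Or.inl h)
    · exact Or.inr (Or.inr (Or.inr ⟨h.2.1, h.1, h.2.2.symm⟩))⟩⟩
  loopless := ⟨fun _ h => h.1 rfl⟩

/-- vertices after the zip -/
noncomputable def zV (V : Finset (Fin N)) (s u' : Fin N) : Finset (Fin N) := (V.erase s).erase u'

/-- common hypotheses: fan of `s` with `M ≥ 3`, `H` a triangulation of the labels
`c 1, .., c M` -/
structure Zip (V : Finset (Fin N)) (G H : SimpleGraph (Fin N)) (s : Fin N) (M : ℕ)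
    (c : ℕ → Fin N) : Prop where
  tri : IsTri V G
  mem : s ∈ V
  three : 3 ≤ M
  fan : Fan V G s M c
  triH : IsTri (Cs M fun i => c (i + 1)) H

/-- `G'` of the zip -/
noncomputable def zG (G H : SimpleGraph (Fin N)) (s : Fin N) (M : ℕ) (c : ℕ → Fin N) :
    SimpleGraph (Fin N) := zipG G H s (c M) (c 0) (Cs M fun i => c (i + 1))

/-- adjacency after the zip, sorted: an edge of `zG` inside `V'` is an old edge inside a pocket
`[c i, c (i+1)]`, `1 ≤ i`, or (first pocket) the image of an old edge of `[c 0, c 1]` under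
`c 0 ↦ c M`, or an edge of `H`. -/
def stZipTri : Prop := ∀ (N : ℕ) (V : Finset (Fin N)) (G H : SimpleGraph (Fin N)) (s : Fin N)
  (M : ℕ) (c : ℕ → Fin N), Zip V G H s M c → IsTri (zV V s (c 0)) (zG G H s M c)

/-- Triangles of `zG`: for `v ∈ V'`, `v ≠ c M`: the old triangles at `v` not containing `s`
(with `c 0` replaced by `c M`) and, if `v ∈ C`, the triangles of `H`. So the angle sums: -/
def stZipAng : Prop := ∀ (N : ℕ) (V : Finset (Fin N)) (G H : SimpleGraph (Fin N))
  (P : Fin N → ℂ) (s : Fin N) (M : ℕ) (c : ℕ → Fin N), Zip V G H s M c → P (c 0) = P (c M) →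
  St V G P → St (Cs M fun i => c (i + 1)) H P →
  St (zV V s (c 0)) (zG G H s M c) P ∧
  (∀ v ∈ zV V s (c 0), v ∉ Cs M (fun i => c (i + 1)) →
    ang (zV V s (c 0)) (zG G H s M c) P v = ang V G P v) ∧
  (∀ i, 1 ≤ i → i < M → ang (zV V s (c 0)) (zG G H s M c) P (c i) = ang V G P (c i)
    - an (P (c i)) (P (c (i + 1))) (P s) - an (P (c i)) (P s) (P (c (i - 1))) +
    ang (Cs M fun i => c (i + 1)) H P (c i)) ∧
  ang (zV V s (c 0)) (zG G H s M c) P (c M) = ang V G P (c M) + ang V G P (c 0)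
    - an (P (c M)) (P s) (P (c (M - 1))) - an (P (c 0)) (P (c 1)) (P s) +
    ang (Cs M fun i => c (i + 1)) H P (c M)

/-- the map of the points. Proof. `f x := g (dev P x)` if `x s ≠ 0`, else `x` with the mass at
`c 0` moved to `c M`. Points `x, y` in a common face of `G`: if the face contains `s` it is
contained in `{s, c i, c (i+1)}` for some `i`, `dev x, dev y` lie in the star triangle and `f` is
`g ∘ dev` on it (on the outer edge by the `seg` property); otherwise `f x`, `f y` lie in a common face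
of `zG` and `dK ≤ dist`. Hence `dK' (f x) (f y) ≤ dK x y` (attained chain, triangle inequality), and
a network for `B` is mapped to a network for the renamed set. -/
def stZipLn : Prop := ∀ (N : ℕ) (V : Finset (Fin N)) (G H : SimpleGraph (Fin N))
  (P : Fin N → ℂ) (s : Fin N) (M : ℕ) (c : ℕ → Fin N) (g : ℂ → (Fin N → ℝ)),
  Zip V G H s M c → P (c 0) = P (c M) → Fill P (P s) M (fun i => c (i + 1)) H g →
  ∀ B ⊆ V, Ln (zV V s (c 0)) (zG G H s M c) P
    ((B.erase s).image fun v => if v = c 0 then c M else v) ≤ Ln V G P B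

/-- **the zip** -/
def stZip : Prop := ∀ (N : ℕ) (V : Finset (Fin N)) (G : SimpleGraph (Fin N)) (P : Fin N → ℂ)
  (s u u' : Fin N), IsTri V G → St V G P → s ∈ V → u ∈ V → u' ∈ V → u ≠ s → u' ≠ s → u ≠ u' →
  (∀ v ∈ V, ¬ Ccw u v s) → (∀ v ∈ V, ¬ Ccw s v u') → P u = P u' → ang V G P s = 2 * Real.pi →
  ∃ G' : SimpleGraph (Fin N), IsTri (zV V s u') G' ∧ St (zV V s u') G' P ∧
    (∀ v ∈ zV V s u', v ≠ u → ang (zV V s u') G' P v = ang V G P v) ∧
    ang (zV V s u') G' P u = ang V G P u + ang V G P u' ∧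
    ∀ B ⊆ V, Ln (zV V s u') G' P ((B.erase s).image fun v => if v = u' then u else v) ≤
      Ln V G P B

end Pool.Agent.Helper62.GP
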