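import Pool.Agent.Helper62.GP.StZ
import Pool.Agent.Helper18.GP.Min1

/-!
# Gilbert-Pollak, COR-Z: induction step of the star lemma, plane geometry
-/

set_option autoImplicit false

namespace Pool.Agent.Helper62.GP

open Pool.Agent.Helper18.GP Pool.Agent.Helper13.GP Relation Classical Finset

variable {N : ℕ}

/-! ### cross products, triangles -/

theorem crsval_STEP (z w : ℂ) : crs z w = z.re * w.im - z.im * w.re := rfl

theorem hull3_STEP {p q r w : ℂ} : w ∈ convexHull ℝ ({p, q, r} : Set ℂ) ↔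
    ∃ s t u : ℝ, 0 ≤ s ∧ 0 ≤ t ∧ 0 ≤ u ∧ s + t + u = 1 ∧ w = s * p + t * q + u * r := by
  constructor
  · intro hw
    have hsub : convexHull ℝ ({p, q, r} : Set ℂ) ⊆ {w | ∃ s t u : ℝ, 0 ≤ s ∧ 0 ≤ t ∧ 0 ≤ u ∧
        s + t + u = 1 ∧ w = s * p + t * q + u * r} := by
      apply convexHull_min
      · rintro x (rfl | rfl | rfl)
        · exact ⟨1, 0, 0, by norm_num, le_rfl, le_rfl, by norm_num, by simp⟩
        · exact ⟨0, 1, 0, le_rfl, by norm_num, le_rfl, by norm_num, by simp⟩
        · exact ⟨0, 0, 1, le_rfl, le_rfl, by norm_num, by norm_num, by simp⟩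
      · rintro x ⟨s, t, u, hs, ht, hu, h1, rfl⟩ x' ⟨s', t', u', hs', ht', hu', h1', rfl⟩ α β hα hβ
          hαβ
        refine ⟨α * s + β * s', α * t + β * t', α * u + β * u', by positivity, by positivity,
          by positivity, ?_, ?_⟩
        · have : α * s + β * s' + (α * t + β * t') + (α * u + β * u') =
            α * (s + t + u) + β * (s' + t' + u') := by ring
          rw [this, h1, h1', mul_one, mul_one, hαβ]
        · simp only [Complex.real_smul]
          push_cast
          ring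
    exact hsub hw
  · rintro ⟨s, t, u, hs, ht, hu, h1, rfl⟩
    apply mem_convexHull_of_exists_fintype (ι := Fin 3) (![s, t, u]) (![p, q, r])
    · intro i
      fin_cases i <;> simp [hs, ht, hu]
    · rw [Fin.sum_univ_three]
      simpa using h1
    · intro i
      fin_cases i <;> simp
    · rw [Fin.sum_univ_three]
      simp [Complex.real_smul]

/-- barycentric coordinates: the sum -/
theorem bsum_STEP (b y a w : ℂ) : crs (y - w) (a - w) + crs (a - w) (b - w) + crs (b - w) (y - w) =
    crs (y - b) (a - b) := by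
  unfold crs; simp only [Complex.sub_re, Complex.sub_im]; ring

/-- barycentric coordinates: the point -/
theorem bpt_STEP (b y a w : ℂ) : (crs (y - w) (a - w) : ℂ) * b + (crs (a - w) (b - w) : ℂ) * y +
    (crs (b - w) (y - w) : ℂ) * a = (crs (y - b) (a - b) : ℂ) * w := by
  unfold crs
  apply Complex.ext <;>
    simp only [Complex.sub_re, Complex.sub_im, Complex.add_re, Complex.add_im, Complex.mul_re,
      Complex.mul_im, Complex.ofReal_re, Complex.ofReal_im] <;> ring

/-- `crs (a - w) (b - w)` is affine in `w` -/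
theorem aff_STEP (a b p q r : ℂ) {s t u : ℝ} (h : s + t + u = 1) :
    crs (a - (s * p + t * q + u * r)) (b - (s * p + t * q + u * r)) =
      s * crs (a - p) (b - p) + t * crs (a - q) (b - q) + u * crs (a - r) (b - r) := by
  have hu : u = 1 - s - t := by linarith
  subst hu
  unfold crs
  simp only [Complex.sub_re, Complex.sub_im, Complex.add_re, Complex.add_im, Complex.mul_re,
      Complex.mul_im, Complex.ofReal_re, Complex.ofReal_im]
  ring

theorem aff2_STEP (a b p q : ℂ) (t : ℝ) :
    crs (a - ((1 - t : ℝ) * p + (t : ℝ) * q)) (b - ((1 - t : ℝ) * p + (t : ℝ) * q)) =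
      (1 - t) * crs (a - p) (b - p) + t * crs (a - q) (b - q) := by
  unfold crs
  simp only [Complex.sub_re, Complex.sub_im, Complex.add_re, Complex.add_im, Complex.mul_re,
      Complex.mul_im, Complex.ofReal_re, Complex.ofReal_im]
  ring

/-- the quadrilateral `z b y a` -/
structure Quad_STEP (z b y a : ℂ) : Prop where
  by' : 0 < crs (b - z) (y - z)
  ya : 0 < crs (y - z) (a - z)
  ba : 0 ≤ crs (b - z) (a - z)
  D : 0 < crs (y - b) (a - b)

/-- nonnegative barycentric coordinates -/
theorem inE_STEP {b y a w : ℂ} (hD : 0 < crs (y - b) (a - b)) (h1 : 0 ≤ crs (y - w) (a - w))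
    (h2 : 0 ≤ crs (a - w) (b - w)) (h3 : 0 ≤ crs (b - w) (y - w)) :
    w ∈ convexHull ℝ ({b, y, a} : Set ℂ) := by
  rw [hull3_STEP]
  refine ⟨crs (y - w) (a - w) / crs (y - b) (a - b), crs (a - w) (b - w) / crs (y - b) (a - b),
    crs (b - w) (y - w) / crs (y - b) (a - b), by positivity, by positivity, by positivity, ?_, ?_⟩
  · rw [← add_div, ← add_div, bsum_STEP, div_self hD.ne']
  · have hc : (crs (y - b) (a - b) : ℂ) ≠ 0 := by exact_mod_cast hD.ne'
    have := bpt_STEP b y a w
    push_cast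
    field_simp
    linear_combination -this

theorem crs_ba_STEP (a b : ℂ) : crs (a - b) (b - b) = 0 := by unfold crs; simp
theorem crs_ab_STEP (a b : ℂ) : crs (a - a) (b - a) = 0 := by unfold crs; simp

/-- coordinates of the three vertices and of `z` -/
theorem cz_STEP (z b a : ℂ) : crs (a - z) (b - z) = - crs (b - z) (a - z) := by unfold crs; ring

theorem cby_STEP (b y a : ℂ) : crs (a - y) (b - y) = crs (y - b) (a - b) := by
  unfold crs; simp only [Complex.sub_re, Complex.sub_im]; ring

theorem cba_STEP (b y a : ℂ) : crs (b - a) (y - a) = crs (y - b) (a - b) := by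
  unfold crs; simp only [Complex.sub_re, Complex.sub_im]; ring

/-- on the triangle `z b a` -/
theorem old_STEP {z b y a w : ℂ} (h : Quad_STEP z b y a)
    (hw : w ∈ convexHull ℝ ({z, b, a} : Set ℂ)) :
    0 ≤ crs (y - w) (a - w) ∧ crs (a - w) (b - w) ≤ 0 ∧ 0 ≤ crs (b - w) (y - w) := by
  rw [hull3_STEP] at hw
  obtain ⟨s, t, u, hs, ht, hu, h1, rfl⟩ := hw
  have hD := h.D
  have e1 := h.by'
  have e2 := h.ya
  have e3 := h.ba
  refine ⟨?_, ?_, ?_⟩
  · rw [aff_STEP _ _ _ _ _ h1]
    have k1 : crs (y - a) (a - a) = 0 := crs_ba_STEP y a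
    rw [k1]
    have : 0 ≤ s * crs (y - z) (a - z) := mul_nonneg hs e2.le
    have : 0 ≤ t * crs (y - b) (a - b) := mul_nonneg ht hD.le
    linarith
  · rw [aff_STEP _ _ _ _ _ h1, crs_ba_STEP, crs_ab_STEP, cz_STEP]
    have : 0 ≤ s * crs (b - z) (a - z) := mul_nonneg hs e3
    linarith
  · rw [aff_STEP _ _ _ _ _ h1, crs_ab_STEP, cba_STEP b y a]
    have : 0 ≤ s * crs (b - z) (y - z) := mul_nonneg hs e1.le
    have : 0 ≤ u * crs (y - b) (a - b) := mul_nonneg hu hD.le
    linarith

/-- on the triangle `b y a` -/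
theorem new_STEP {b y a w : ℂ} (hD : 0 < crs (y - b) (a - b))
    (hw : w ∈ convexHull ℝ ({b, y, a} : Set ℂ)) :
    0 ≤ crs (y - w) (a - w) ∧ 0 ≤ crs (a - w) (b - w) ∧ 0 ≤ crs (b - w) (y - w) := by
  rw [hull3_STEP] at hw
  obtain ⟨s, t, u, hs, ht, hu, h1, rfl⟩ := hw
  refine ⟨?_, ?_, ?_⟩
  · rw [aff_STEP _ _ _ _ _ h1, crs_ba_STEP, crs_ab_STEP]
    have : 0 ≤ s * crs (y - b) (a - b) := mul_nonneg hs hD.le
    linarith
  · rw [aff_STEP _ _ _ _ _ h1, crs_ba_STEP, crs_ab_STEP, cby_STEP]
    have : 0 ≤ t * crs (y - b) (a - b) := mul_nonneg ht hD.le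
    linarith
  · rw [aff_STEP _ _ _ _ _ h1, crs_ba_STEP, crs_ab_STEP, cba_STEP]
    have : 0 ≤ u * crs (y - b) (a - b) := mul_nonneg hu hD.le
    linarith

/-- points of the quadrilateral beyond the chord are in the new triangle, the others in the old
one -/
theorem dec_STEP {z b y a : ℂ} (h : Quad_STEP z b y a) {x s t u : ℝ} (hx : 0 ≤ x) (hs : 0 ≤ s)
    (ht : 0 ≤ t) (hu : 0 ≤ u) (h1 : x + s + t + u = 1) :
    (x * z + s * b + t * y + u * a : ℂ) ∈ convexHull ℝ ({z, b, a} : Set ℂ) ∨
      (x * z + s * b + t * y + u * a : ℂ) ∈ convexHull ℝ ({b, y, a} : Set ℂ) := by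
  have hD := h.D
  have e1 := h.by'
  have e2 := h.ya
  have e3 := h.ba
  set w : ℂ := x * z + s * b + t * y + u * a with hw
  have hu' : u = 1 - x - s - t := by linarith
  -- the three coordinates
  have c1 : crs (y - w) (a - w) = x * crs (y - z) (a - z) + s * crs (y - b) (a - b) := by
    rw [hw, hu']; unfold crs
    simp only [Complex.sub_re, Complex.sub_im, Complex.add_re, Complex.add_im, Complex.mul_re,
      Complex.mul_im, Complex.ofReal_re, Complex.ofReal_im]
    ring
  have c2 : crs (a - w) (b - w) = t * crs (y - b) (a - b) - x * crs (b - z) (a - z) := by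
    rw [hw, hu']; unfold crs
    simp only [Complex.sub_re, Complex.sub_im, Complex.add_re, Complex.add_im, Complex.mul_re,
      Complex.mul_im, Complex.ofReal_re, Complex.ofReal_im]
    ring
  have c3 : crs (b - w) (y - w) = x * crs (b - z) (y - z) + u * crs (y - b) (a - b) := by
    rw [hw, hu']; unfold crs
    simp only [Complex.sub_re, Complex.sub_im, Complex.add_re, Complex.add_im, Complex.mul_re,
      Complex.mul_im, Complex.ofReal_re, Complex.ofReal_im]
    ring
  have d1 : 0 ≤ crs (y - w) (a - w) := by rw [c1]; positivity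
  have d3 : 0 ≤ crs (b - w) (y - w) := by rw [c3]; positivity
  by_cases d2 : 0 ≤ crs (a - w) (b - w)
  · exact Or.inr (inE_STEP hD d1 d2 d3)
  · left
    rw [not_le, c2] at d2
    -- now `crs (b - z) (a - z) > 0`
    have hba : 0 < crs (b - z) (a - z) := by
      rcases e3.lt_or_eq with h0 | h0
      · exact h0
      · exfalso
        rw [← h0] at d2
        have : 0 ≤ t * crs (y - b) (a - b) := mul_nonneg ht hD.le
        linarith
    set Q : ℝ := crs (b - z) (a - z) with hQ
    have hsum : crs (y - b) (a - b) = crs (y - z) (a - z) + crs (b - z) (y - z) - Q := by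
      rw [hQ]; unfold crs; simp only [Complex.sub_re, Complex.sub_im]; ring
    have hy : (Q : ℂ) * (y - z) = (crs (y - z) (a - z) : ℂ) * (b - z) +
        (crs (b - z) (y - z) : ℂ) * (a - z) := by
      rw [hQ]; unfold crs
      apply Complex.ext <;>
        simp only [Complex.sub_re, Complex.sub_im, Complex.add_re, Complex.add_im, Complex.mul_re,
          Complex.mul_im, Complex.ofReal_re, Complex.ofReal_im] <;> ring
    rw [hull3_STEP]
    refine ⟨1 - (s + t * crs (y - z) (a - z) / Q) - (u + t * crs (b - z) (y - z) / Q),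
      s + t * crs (y - z) (a - z) / Q, u + t * crs (b - z) (y - z) / Q, ?_, by positivity,
      by positivity, by ring, ?_⟩
    · have : 1 - (s + t * crs (y - z) (a - z) / Q) - (u + t * crs (b - z) (y - z) / Q) =
          (x * Q - t * crs (y - b) (a - b)) / Q := by
        rw [hsum]
        field_simp
        rw [hu']
        ring
      rw [this]
      exact div_nonneg (by linarith) hba.le
    · have hc : (Q : ℂ) ≠ 0 := by exact_mod_cast hba.ne'
      have h1' : (x : ℂ) = 1 - s - t - u := by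
        have : x = 1 - s - t - u := by linarith
        rw [this]; push_cast; ring
      rw [hw, h1']
      push_cast
      field_simp
      linear_combination t * hy

/-- crossing the chord -/
theorem cross_STEP {z b y a w w' : ℂ} (h : Quad_STEP z b y a)
    (hw : w ∈ convexHull ℝ ({z, b, a} : Set ℂ)) (hw' : w' ∈ convexHull ℝ ({b, y, a} : Set ℂ)) :
    ∃ τ ∈ Set.Icc (0 : ℝ) 1, ‖w - ((1 - τ : ℝ) * b + (τ : ℝ) * a)‖ +
      ‖((1 - τ : ℝ) * b + (τ : ℝ) * a) - w'‖ ≤ ‖w - w'‖ := by
  have hD := h.D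
  obtain ⟨a1, a2, a3⟩ := old_STEP h hw
  obtain ⟨b1, b2, b3⟩ := new_STEP hD hw'
  -- the point on the line
  obtain ⟨l, hl0, hl1, hl⟩ : ∃ l : ℝ, 0 ≤ l ∧ l ≤ 1 ∧
      (1 - l) * crs (a - w) (b - w) + l * crs (a - w') (b - w') = 0 := by
    rcases (sub_nonneg.2 (a2.trans b2)).lt_or_eq with h0 | h0
    · refine ⟨-crs (a - w) (b - w) / (crs (a - w') (b - w') - crs (a - w) (b - w)),
        div_nonneg (by linarith) h0.le, ?_, ?_⟩
      · rw [div_le_one h0]; linarith
      · field_simp
        ring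
    · refine ⟨0, le_rfl, zero_le_one, ?_⟩
      linarith
  set q : ℂ := (1 - l : ℝ) * w + (l : ℝ) * w' with hq
  have q1 : crs (y - q) (a - q) = (1 - l) * crs (y - w) (a - w) + l * crs (y - w') (a - w') :=
    aff2_STEP y a w w' l
  have q2 : crs (a - q) (b - q) = 0 := by rw [← hl]; exact aff2_STEP a b w w' l
  have q3 : crs (b - q) (y - q) = (1 - l) * crs (b - w) (y - w) + l * crs (b - w') (y - w') :=
    aff2_STEP b y w w' l
  have r1 : 0 ≤ crs (y - q) (a - q) := by
    rw [q1]; exact add_nonneg (mul_nonneg (by linarith) a1) (mul_nonneg hl0 b1)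
  have r3 : 0 ≤ crs (b - q) (y - q) := by
    rw [q3]; exact add_nonneg (mul_nonneg (by linarith) a3) (mul_nonneg hl0 b3)
  have hs := bsum_STEP b y a q
  rw [q2, add_zero] at hs
  refine ⟨crs (b - q) (y - q) / crs (y - b) (a - b), ⟨by positivity, ?_⟩, ?_⟩
  · rw [div_le_one hD]; linarith
  · have hpt := bpt_STEP b y a q
    have hc : (crs (y - b) (a - b) : ℂ) ≠ 0 := by exact_mod_cast hD.ne'
    have hqe : (((1 - crs (b - q) (y - q) / crs (y - b) (a - b) : ℝ) : ℂ)) * b +
        ((crs (b - q) (y - q) / crs (y - b) (a - b) : ℝ) : ℂ) * a = q := by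
      rw [q2] at hpt
      have hs' : (crs (y - q) (a - q) : ℂ) = crs (y - b) (a - b) - crs (b - q) (y - q) := by
        rw [← hs]; push_cast; ring
      rw [hs'] at hpt
      push_cast
      field_simp
      push_cast at hpt
      linear_combination hpt
    rw [hqe]
    have n1 : w - q = (l : ℂ) * (w - w') := by rw [hq]; push_cast; ring
    have n2 : q - w' = ((1 - l : ℝ) : ℂ) * (w - w') := by rw [hq]; push_cast; ring
    rw [n1, n2, norm_mul, norm_mul, Complex.norm_real, Complex.norm_real, Real.norm_eq_abs,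
      Real.norm_eq_abs, abs_of_nonneg hl0, abs_of_nonneg (by linarith : 0 ≤ 1 - l)]
    linarith

/-- old points on the edge `b y` -/
theorem edge1_STEP {z b y a : ℂ} (h : Quad_STEP z b y a) {τ : ℝ} (h0 : 0 ≤ τ)
    (hw : (((1 - τ : ℝ) : ℂ) * b + (τ : ℝ) * y) ∈ convexHull ℝ ({z, b, a} : Set ℂ)) : τ = 0 := by
  have h2 := (old_STEP h hw).2.1
  rw [aff2_STEP, crs_ba_STEP, cby_STEP] at h2
  have := h.D
  by_contra hne
  have : 0 < τ := lt_of_le_of_ne h0 (Ne.symm hne)
  nlinarith

/-- old points on the edge `y a` -/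
theorem edge2_STEP {z b y a : ℂ} (h : Quad_STEP z b y a) {τ : ℝ} (h0 : τ ≤ 1)
    (hw : (((1 - τ : ℝ) : ℂ) * y + (τ : ℝ) * a) ∈ convexHull ℝ ({z, b, a} : Set ℂ)) : τ = 1 := by
  have h2 := (old_STEP h hw).2.1
  rw [aff2_STEP, crs_ab_STEP, cby_STEP] at h2
  have := h.D
  by_contra hne
  have : 0 < 1 - τ := by
    have := lt_of_le_of_ne h0 hne
    linarith
  nlinarith

end Pool.Agent.Helper62.GP
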