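import Pool.Agent.Helper62.GP.Z_STEP0

/-!
# Gilbert-Pollak, COR-Z: induction step of the star lemma, angles
-/

set_option autoImplicit false

namespace Pool.Agent.Helper62.GP

open Pool.Agent.Helper18.GP Pool.Agent.Helper13.GP Relation Classical Finset

variable {N : ℕ}

theorem anadd_STEP {x p q r : ℂ} (hp : p ≠ x) (hq : q ≠ x) (hr : r ≠ x) :
    ((an x p q : ℝ) : Real.Angle) + (an x q r : ℝ) = (an x p r : ℝ) := by
  have hp' : p - x ≠ 0 := sub_ne_zero.2 hp
  have hq' : q - x ≠ 0 := sub_ne_zero.2 hq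
  have hr' : r - x ≠ 0 := sub_ne_zero.2 hr
  unfold an
  rw [← Complex.arg_mul_coe_angle (div_ne_zero hq' hp') (div_ne_zero hr' hq')]
  congr 2
  field_simp

theorem sumang_STEP (x : ℂ) (p : ℕ → ℂ) (i : ℕ) (j : ℕ) (h : i ≤ j)
    (hp : ∀ l, l ≤ j → p l ≠ x) :
    ((∑ l ∈ Finset.Ico i j, an x (p l) (p (l + 1)) : ℝ) : Real.Angle) = (an x (p i) (p j) : ℝ) := by
  induction j, h using Nat.le_induction with
  | base =>
    have : an x (p i) (p i) = 0 := by
      unfold an
      rw [div_self (sub_ne_zero.2 (hp i le_rfl)), Complex.arg_one]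
    rw [this]; simp
  | succ j hij ih =>
    rw [Finset.sum_Ico_succ_top hij, Real.Angle.coe_add, ih (fun l hl => hp l (by omega)),
      anadd_STEP (hp i (by omega)) (hp j (by omega)) (hp (j + 1) le_rfl)]

theorem zero_STEP {S : ℝ} (h : (S : Real.Angle) = 0) (h0 : 0 ≤ S) (h1 : S < 2 * Real.pi) :
    S = 0 := by
  rw [Real.Angle.coe_eq_zero_iff] at h
  obtain ⟨n, hn⟩ := h
  have hpi := Real.pi_pos
  have hn' : (n : ℝ) * (2 * Real.pi) = S := by rw [← hn]; simp
  have h2 : (n : ℝ) < 1 := by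
    by_contra hc
    rw [not_lt] at hc
    nlinarith
  have h3 : (-1 : ℝ) < n := by
    by_contra hc
    rw [not_lt] at hc
    nlinarith
  have h2' : n < 1 := by exact_mod_cast h2
  have h3' : -1 < n := by exact_mod_cast h3
  have : n = 0 := by omega
  rw [← hn', this]; simp

theorem crs_smul_STEP (z p q : ℂ) (s t : ℝ) :
    crs (p - z) (z + s * (p - z) + t * (q - z) - z) = t * crs (p - z) (q - z) := by
  unfold crs
  simp only [Complex.sub_re, Complex.sub_im, Complex.add_re, Complex.add_im, Complex.mul_re,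
      Complex.mul_im, Complex.ofReal_re, Complex.ofReal_im]
  ring

theorem crs_smul'_STEP (z p q : ℂ) (s t : ℝ) :
    crs (z + s * (p - z) + t * (q - z) - z) (q - z) = s * crs (p - z) (q - z) := by
  unfold crs
  simp only [Complex.sub_re, Complex.sub_im, Complex.add_re, Complex.add_im, Complex.mul_re,
      Complex.mul_im, Complex.ofReal_re, Complex.ofReal_im]
  ring

/-- a point of a sector -/
theorem sec_STEP (h1 : stAnAdd2) (h2 : stAnSign) {z p q w : ℂ} (hp : p ≠ z) (hq : q ≠ z)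
    (hpq : 0 < crs (p - z) (q - z)) (hw : w ≠ z) {s t : ℝ} (hs : 0 ≤ s) (ht : 0 ≤ t)
    (hwe : w = z + s * (p - z) + t * (q - z)) :
    0 ≤ an z p w ∧ 0 ≤ an z w q ∧ an z p w + an z w q = an z p q := by
  have c1 : crs (p - z) (w - z) = t * crs (p - z) (q - z) := by rw [hwe]; exact crs_smul_STEP z p q s t
  have c2 : crs (w - z) (q - z) = s * crs (p - z) (q - z) := by
    rw [hwe]; exact crs_smul'_STEP z p q s t
  have n1 : 0 ≤ an z p w := by
    rw [(h2 z p w hp hw).1, c1]; positivity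
  have n2 : 0 ≤ an z w q := by
    rw [(h2 z w q hw hq).1, c2]; positivity
  have hp' : p - z ≠ 0 := sub_ne_zero.2 hp
  have hq' : q - z ≠ 0 := sub_ne_zero.2 hq
  have l1 : an z p w < Real.pi := by
    rcases ht.lt_or_eq with h | h
    · exact ((h2 z p w hp hw).2.2 (by rw [c1]; positivity)).2
    · subst h
      have hwe' : w - z = s * (p - z) := by rw [hwe]; simp
      have hs' : 0 < s := by
        rcases hs.lt_or_eq with h | h
        · exact h
        · exfalso; apply hw; rw [← sub_eq_zero, hwe', ← h]; simp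
      unfold an
      rw [hwe', mul_div_assoc, div_self hp', mul_one, Complex.arg_ofReal_of_nonneg hs]
      exact Real.pi_pos
  have l2 : an z w q < Real.pi := by
    rcases hs.lt_or_eq with h | h
    · exact ((h2 z w q hw hq).2.2 (by rw [c2]; positivity)).2
    · subst h
      have hwe' : w - z = t * (q - z) := by rw [hwe]; simp
      have ht' : 0 < t := by
        rcases ht.lt_or_eq with h | h
        · exact h
        · exfalso; apply hw; rw [← sub_eq_zero, hwe', ← h]; simp
      unfold an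
      have : (q - z) / (t * (q - z)) = ((t⁻¹ : ℝ) : ℂ) := by
        have : (t : ℂ) ≠ 0 := by exact_mod_cast ht'.ne'
        push_cast
        field_simp
      rw [hwe', this, Complex.arg_ofReal_of_nonneg (by positivity)]
      exact Real.pi_pos
  have n3 : 0 ≤ an z p q := by
    rw [(h2 z p q hp hq).1]; exact hpq.le
  exact ⟨n1, n2, (h1 z p w q hp hw hq n1 l1 n2 l2 n3).symm⟩

/-- a point of a triangle at `z` -/
theorem sec'_STEP (h1 : stAnAdd2) (h2 : stAnSign) {z p q w : ℂ} (hp : p ≠ z) (hq : q ≠ z)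
    (hpq : 0 < crs (p - z) (q - z)) (hw : w ≠ z) (hwm : w ∈ convexHull ℝ ({z, p, q} : Set ℂ)) :
    0 ≤ an z p w ∧ 0 ≤ an z w q ∧ an z p w + an z w q = an z p q := by
  rw [hull3_STEP] at hwm
  obtain ⟨x, s, t, hx, hs, ht, h, he⟩ := hwm
  refine sec_STEP h1 h2 hp hq hpq hw hs ht ?_
  rw [he]
  have : x = 1 - s - t := by linarith
  rw [this]; push_cast; ring

/-- `z` on the segment `[b, a]` -/
theorem deg_STEP {z b a : ℂ} (hb : b ≠ z) (ha : a ≠ z) (h : an z b a = Real.pi) :
    an a z b = 0 ∧ an b a z = 0 := by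
  have hb' : b - z ≠ 0 := sub_ne_zero.2 hb
  have ha' : a - z ≠ 0 := sub_ne_zero.2 ha
  unfold an at h
  rw [Complex.arg_eq_pi_iff] at h
  obtain ⟨hre, him⟩ := h
  obtain ⟨r, hr⟩ : ∃ r : ℝ, r = -((a - z) / (b - z)).re := ⟨_, rfl⟩
  have hr0 : 0 < r := by rw [hr]; linarith
  have he : (a - z) / (b - z) = ((-r : ℝ) : ℂ) := by
    apply Complex.ext
    · rw [Complex.ofReal_re, hr, neg_neg]
    · rw [Complex.ofReal_im, him]
  have he' : a - z = -r * (b - z) := by
    rw [div_eq_iff hb'] at he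
    rw [he]; push_cast; ring
  have hrc : (r : ℂ) ≠ 0 := by exact_mod_cast hr0.ne'
  have hr1 : (1 + r : ℂ) ≠ 0 := by
    have : ((1 + r : ℝ) : ℂ) ≠ 0 := by exact_mod_cast (by linarith : (1 + r : ℝ) ≠ 0)
    push_cast at this; exact this
  constructor
  · unfold an
    have e1 : z - a = r * (b - z) := by linear_combination -he'
    have e2 : b - a = (1 + r) * (b - z) := by linear_combination -he'
    have : (b - a) / (z - a) = (((1 + r) / r : ℝ) : ℂ) := by
      rw [e1, e2]; push_cast; field_simp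
    rw [this, Complex.arg_ofReal_of_nonneg (by positivity)]
  · unfold an
    have e1 : z - b = -(b - z) := by ring
    have e2 : a - b = -((1 + r) * (b - z)) := by linear_combination he'
    have : (z - b) / (a - b) = ((1 / (1 + r) : ℝ) : ℂ) := by
      rw [e1, e2]; push_cast; field_simp
    rw [this, Complex.arg_ofReal_of_nonneg (by positivity)]

/-- at the vertex `a`: `an a z b` is in `[0, π)` -/
theorem lta_STEP (h2 : stAnSign) {z b a : ℂ} (hb : b ≠ z) (ha : a ≠ z) (hab : a ≠ b)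
    (h0 : 0 < an z b a) : (0 ≤ an a z b ∧ an a z b < Real.pi) ∧
      (0 ≤ an b a z ∧ an b a z < Real.pi) := by
  rcases (Complex.arg_le_pi _ : an z b a ≤ Real.pi).lt_or_eq with h | h
  · have hc := (h2 z b a hb ha).2.1 ⟨h0, h⟩
    have c1 : crs (z - a) (b - a) = crs (b - z) (a - z) := by
      unfold crs; simp only [Complex.sub_re, Complex.sub_im]; ring
    have c2 : crs (a - b) (z - b) = crs (b - z) (a - z) := by
      unfold crs; simp only [Complex.sub_re, Complex.sub_im]; ring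
    have k1 := (h2 a z b ha.symm hab.symm).2.2 (by rw [c1]; exact hc)
    have k2 := (h2 b a z hab hb.symm).2.2 (by rw [c2]; exact hc)
    exact ⟨⟨k1.1.le, k1.2⟩, k2.1.le, k2.2⟩
  · obtain ⟨k1, k2⟩ := deg_STEP hb ha h
    rw [k1, k2]
    exact ⟨⟨le_rfl, Real.pi_pos⟩, le_rfl, Real.pi_pos⟩

/-- a point of the triangle `z b y` with `an z b w = 0` is in `[z, b]` -/
theorem onb_STEP {z b y w : ℂ} (hb : b ≠ z) (hby : 0 < crs (b - z) (y - z))
    (hwm : w ∈ convexHull ℝ ({z, b, y} : Set ℂ)) (h : an z b w = 0) (a : ℂ) :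
    w ∈ convexHull ℝ ({z, b, a} : Set ℂ) := by
  rw [hull3_STEP] at hwm
  obtain ⟨x, s, t, hx, hs, ht, h1, he⟩ := hwm
  have hb' : b - z ≠ 0 := sub_ne_zero.2 hb
  unfold an at h
  rw [Complex.arg_eq_zero_iff] at h
  have hc : crs (b - z) (w - z) = 0 := by
    have : w - z = ((w - z) / (b - z)) * (b - z) := by field_simp
    rw [this]
    generalize (w - z) / (b - z) = r at h
    unfold crs
    simp only [Complex.mul_re, Complex.mul_im, h.2]
    ring
  have hw : w = z + s * (b - z) + t * (y - z) := by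
    rw [he]
    have : x = 1 - s - t := by linarith
    rw [this]; push_cast; ring
  rw [hw, crs_smul_STEP] at hc
  have ht0 : t = 0 := by
    rcases mul_eq_zero.1 hc with h | h
    · exact h
    · exact absurd h hby.ne'
  rw [hull3_STEP]
  refine ⟨x, s, 0, hx, hs, le_rfl, by linarith, ?_⟩
  rw [he, ht0]; simp

/-- a point of the triangle `z y a` with `an z w a = 0` is in `[z, a]` -/
theorem ona_STEP {z y a w : ℂ} (ha : a ≠ z) (hya : 0 < crs (y - z) (a - z)) (hw : w ≠ z)
    (hwm : w ∈ convexHull ℝ ({z, y, a} : Set ℂ)) (h : an z w a = 0) (b : ℂ) :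
    w ∈ convexHull ℝ ({z, b, a} : Set ℂ) := by
  rw [hull3_STEP] at hwm
  obtain ⟨x, s, t, hx, hs, ht, h1, he⟩ := hwm
  have hw' : w - z ≠ 0 := sub_ne_zero.2 hw
  unfold an at h
  rw [Complex.arg_eq_zero_iff] at h
  have hc : crs (w - z) (a - z) = 0 := by
    have : a - z = ((a - z) / (w - z)) * (w - z) := by field_simp
    rw [this]
    generalize (a - z) / (w - z) = r at h
    unfold crs
    simp only [Complex.mul_re, Complex.mul_im, h.2]
    ring
  have hwe : w = z + s * (y - z) + t * (a - z) := by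
    rw [he]
    have : x = 1 - s - t := by linarith
    rw [this]; push_cast; ring
  rw [hwe, crs_smul'_STEP] at hc
  have hs0 : s = 0 := by
    rcases mul_eq_zero.1 hc with h | h
    · exact h
    · exact absurd h hya.ne'
  rw [hull3_STEP]
  refine ⟨x, 0, t, hx, le_rfl, ht, by linarith, ?_⟩
  rw [he, hs0]; simp

/-- KEY1 -/
theorem key1_STEP (h1 : stAnAdd2) (h2 : stAnSign) {z : ℂ} {q : ℕ → ℂ} {m j : ℕ}
    (hne : ∀ l ≤ m, q l ≠ z) (hpos : ∀ l < m, 0 < crs (q l - z) (q (l + 1) - z))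
    (hsum : ∑ l ∈ range m, an z (q l) (q (l + 1)) < 2 * Real.pi) (hj : j + 1 < m) {w : ℂ}
    (hw : w ≠ z) (hwj : w ∈ convexHull ℝ ({z, q j, q (j + 1)} : Set ℂ))
    (hwm : w ∈ convexHull ℝ ({z, q (m - 1), q m} : Set ℂ)) : an z (q (m - 1)) w = 0 := by
  have hm1 : m - 1 + 1 = m := by omega
  have hposm := hpos (m - 1) (by omega)
  rw [hm1] at hposm
  obtain ⟨a1, a2, a3⟩ := sec'_STEP h1 h2 (hne j (by omega)) (hne (j + 1) (by omega))
    (hpos j (by omega)) hw hwj
  obtain ⟨b1, b2, b3⟩ := sec'_STEP h1 h2 (hne (m - 1) (by omega)) (hne m le_rfl) hposm hw hwm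
  have hnn : ∀ l < m, 0 ≤ an z (q l) (q (l + 1)) := fun l hl =>
    (h2 z (q l) (q (l + 1)) (hne l hl.le) (hne (l + 1) (by omega))).1.2 (hpos l hl).le
  set S : ℝ := an z w (q (j + 1)) + ∑ l ∈ Ico (j + 1) (m - 1), an z (q l) (q (l + 1)) +
    an z (q (m - 1)) w with hS
  have hmid : 0 ≤ ∑ l ∈ Ico (j + 1) (m - 1), an z (q l) (q (l + 1)) := by
    apply Finset.sum_nonneg
    intro l hl
    rw [Finset.mem_Ico] at hl
    exact hnn l (by omega)
  have hS0 : 0 ≤ S := by rw [hS]; linarith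
  have hSa : (S : Real.Angle) = 0 := by
    rw [hS, Real.Angle.coe_add, Real.Angle.coe_add,
      sumang_STEP z q (j + 1) (m - 1) (by omega) (fun l hl => hne l (by omega)),
      anadd_STEP hw (hne (j + 1) (by omega)) (hne (m - 1) (by omega)),
      anadd_STEP hw (hne (m - 1) (by omega)) hw]
    unfold an
    rw [div_self (sub_ne_zero.2 hw), Complex.arg_one]; simp
  have hle : S ≤ ∑ l ∈ range m, an z (q l) (q (l + 1)) := by
    have e1 : ∑ l ∈ Ico j m, an z (q l) (q (l + 1)) ≤ ∑ l ∈ range m, an z (q l) (q (l + 1)) := by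
      apply Finset.sum_le_sum_of_subset_of_nonneg
      · intro l hl
        rw [Finset.mem_Ico] at hl
        rw [Finset.mem_range]; omega
      · intro l hl _
        exact hnn l (Finset.mem_range.1 hl)
    have e2 : ∑ l ∈ Ico j m, an z (q l) (q (l + 1)) = an z (q j) (q (j + 1)) +
        ∑ l ∈ Ico (j + 1) (m - 1), an z (q l) (q (l + 1)) + an z (q (m - 1)) (q m) := by
      rw [Finset.sum_eq_sum_Ico_succ_bot (by omega : j < m)]
      have : Ico (j + 1) m = Ico (j + 1) (m - 1 + 1) := by rw [hm1]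
      rw [this, Finset.sum_Ico_succ_top (by omega), hm1]
      ring
    rw [e2] at e1
    rw [hS]
    linarith
  have := zero_STEP hSa hS0 (by linarith)
  rw [hS] at this
  linarith

/-- KEY2 -/
theorem key2_STEP (h1 : stAnAdd2) (h2 : stAnSign) {z : ℂ} {q : ℕ → ℂ} {m j : ℕ}
    (hne : ∀ l ≤ m, q l ≠ z) (hpos : ∀ l < m, 0 < crs (q l - z) (q (l + 1) - z))
    (hposm : 0 < crs (q m - z) (q 0 - z))
    (hsum : ∑ l ∈ range (m - 1), an z (q l) (q (l + 1)) + an z (q m) (q 0) < 2 * Real.pi)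
    (hj : j + 1 < m) {w : ℂ}
    (hw : w ≠ z) (hwj : w ∈ convexHull ℝ ({z, q j, q (j + 1)} : Set ℂ))
    (hwm : w ∈ convexHull ℝ ({z, q m, q 0} : Set ℂ)) : an z w (q 0) = 0 := by
  obtain ⟨a1, a2, a3⟩ := sec'_STEP h1 h2 (hne j (by omega)) (hne (j + 1) (by omega))
    (hpos j (by omega)) hw hwj
  obtain ⟨b1, b2, b3⟩ := sec'_STEP h1 h2 (hne m le_rfl) (hne 0 (by omega)) hposm hw hwm
  have hnn : ∀ l < m, 0 ≤ an z (q l) (q (l + 1)) := fun l hl =>
    (h2 z (q l) (q (l + 1)) (hne l hl.le) (hne (l + 1) (by omega))).1.2 (hpos l hl).le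
  set S : ℝ := an z w (q 0) + ∑ l ∈ Ico 0 j, an z (q l) (q (l + 1)) + an z (q j) w with hS
  have hmid : 0 ≤ ∑ l ∈ Ico 0 j, an z (q l) (q (l + 1)) := by
    apply Finset.sum_nonneg
    intro l hl
    rw [Finset.mem_Ico] at hl
    exact hnn l (by omega)
  have hS0 : 0 ≤ S := by rw [hS]; linarith
  have hSa : (S : Real.Angle) = 0 := by
    rw [hS, Real.Angle.coe_add, Real.Angle.coe_add,
      sumang_STEP z q 0 j (by omega) (fun l hl => hne l (by omega)),
      anadd_STEP hw (hne 0 (by omega)) (hne j (by omega)),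
      anadd_STEP hw (hne j (by omega)) hw]
    unfold an
    rw [div_self (sub_ne_zero.2 hw), Complex.arg_one]; simp
  have hle : S ≤ ∑ l ∈ range (m - 1), an z (q l) (q (l + 1)) + an z (q m) (q 0) := by
    have e1 : ∑ l ∈ range (j + 1), an z (q l) (q (l + 1)) ≤
        ∑ l ∈ range (m - 1), an z (q l) (q (l + 1)) := by
      apply Finset.sum_le_sum_of_subset_of_nonneg
      · intro l hl
        rw [Finset.mem_range] at hl ⊢; omega
      · intro l hl _
        rw [Finset.mem_range] at hl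
        exact hnn l (by omega)
    rw [Finset.sum_range_succ] at e1
    rw [hS, ← Finset.range_eq_Ico]
    linarith
  have := zero_STEP hSa hS0 (by linarith)
  rw [hS] at this
  linarith

end Pool.Agent.Helper62.GP
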