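import Pool.Agent.Helper62.GP.Z_STEP1
import Pool.Agent.Helper13.GP.Comb

/-!
# Gilbert-Pollak, COR-Z: induction step of the star lemma, labels and points
-/

set_option autoImplicit false

namespace Pool.Agent.Helper62.GP

open Pool.Agent.Helper18.GP Pool.Agent.Helper13.GP Relation Classical Finset

variable {N : ℕ}

/-- a point with barycentric coordinates on `p, q, r` -/
noncomputable def bp_STEP (p q r : Fin N) (α β γ : ℝ) : Fin N → ℝ :=
  fun v => α * dl p v + β * dl q v + γ * dl r v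

theorem dl_apply_STEP (p v : Fin N) : dl p v = if v = p then (1 : ℝ) else 0 := by
  unfold dl
  rw [Pi.single_apply]

theorem bp_supp_STEP {p q r v : Fin N} {α β γ : ℝ} (h : bp_STEP p q r α β γ v ≠ 0) :
    v = p ∨ v = q ∨ v = r := by
  unfold bp_STEP at h
  simp only [dl_apply_STEP] at h
  by_contra hc
  push Not at hc
  apply h
  simp [hc.1, hc.2.1, hc.2.2]

theorem sum_dl_STEP (p : Fin N) : ∑ v, dl p v = 1 := by
  simp [dl_apply_STEP]

theorem bp_Pts_STEP {V : Finset (Fin N)} {G : SimpleGraph (Fin N)} {p q r : Fin N} {α β γ : ℝ}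
    (hp : p ∈ V) (hq : q ∈ V) (hr : r ∈ V) (hpq : G.Adj p q) (hqr : G.Adj q r) (hpr : G.Adj p r)
    (hα : 0 ≤ α) (hβ : 0 ≤ β) (hγ : 0 ≤ γ) (h1 : α + β + γ = 1) :
    bp_STEP p q r α β γ ∈ Pts V G := by
  refine ⟨?_, ?_, ?_, ?_⟩
  · intro v
    unfold bp_STEP
    simp only [dl_apply_STEP]
    split_ifs <;> positivity
  · unfold bp_STEP
    rw [Finset.sum_add_distrib, Finset.sum_add_distrib, ← Finset.mul_sum, ← Finset.mul_sum,
      ← Finset.mul_sum, sum_dl_STEP, sum_dl_STEP, sum_dl_STEP]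
    linarith
  · intro v hv
    rcases bp_supp_STEP hv with rfl | rfl | rfl <;> assumption
  · intro a b ha hb hab
    rcases bp_supp_STEP ha with rfl | rfl | rfl <;> rcases bp_supp_STEP hb with rfl | rfl | rfl <;>
      first | exact absurd rfl hab | assumption | exact hpq.symm | exact hqr.symm | exact hpr.symm

theorem bp_dev_STEP (P : Fin N → ℂ) (p q r : Fin N) (α β γ : ℝ) :
    dev P (bp_STEP p q r α β γ) = α * P p + β * P q + γ * P r := by
  have key : ∀ (c : ℝ) (p : Fin N), ∑ v, ((c * dl p v : ℝ) : ℂ) * P v = c * P p := by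
    intro c p
    simp only [dl_apply_STEP]
    rw [Finset.sum_eq_single p]
    · simp
    · intro v _ hv
      simp [hv]
    · simp
  unfold dev bp_STEP
  rw [← key α p, ← key β q, ← key γ r, ← Finset.sum_add_distrib, ← Finset.sum_add_distrib]
  apply Finset.sum_congr rfl
  intro v _
  push_cast
  ring

theorem bp_Sh_STEP {G : SimpleGraph (Fin N)} {p q r : Fin N} {α β γ α' β' γ' : ℝ}
    (hpq : G.Adj p q) (hqr : G.Adj q r) (hpr : G.Adj p r) :
    Sh G (bp_STEP p q r α β γ) (bp_STEP p q r α' β' γ') := by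
  intro a b ha hb hab
  have ha' : a = p ∨ a = q ∨ a = r := by
    rcases ha with h | h <;> exact bp_supp_STEP h
  have hb' : b = p ∨ b = q ∨ b = r := by
    rcases hb with h | h <;> exact bp_supp_STEP h
  rcases ha' with rfl | rfl | rfl <;> rcases hb' with rfl | rfl | rfl <;>
      first | exact absurd rfl hab | assumption | exact hpq.symm | exact hqr.symm | exact hpr.symm

theorem seg_bp1_STEP (p q r : Fin N) (τ : ℝ) : seg p q τ = bp_STEP p q r (1 - τ) τ 0 := by
  funext v; unfold seg bp_STEP; ring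

theorem seg_bp2_STEP (p q r : Fin N) (τ : ℝ) : seg q r τ = bp_STEP p q r 0 (1 - τ) τ := by
  funext v; unfold seg bp_STEP; ring

theorem seg_bp3_STEP (p q r : Fin N) (τ : ℝ) : seg p r τ = bp_STEP p q r (1 - τ) 0 τ := by
  funext v; unfold seg bp_STEP; ring

/-! ### monotonicity -/

theorem Pts_mono_STEP {V V' : Finset (Fin N)} {G G' : SimpleGraph (Fin N)} (hV : V ⊆ V')
    (hG : ∀ x ∈ V, ∀ y ∈ V, G.Adj x y → G'.Adj x y) {x : Fin N → ℝ} (hx : x ∈ Pts V G) :
    x ∈ Pts V' G' := by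
  obtain ⟨h1, h2, h3, h4⟩ := hx
  exact ⟨h1, h2, fun v hv => hV (h3 v hv), fun a b ha hb hab =>
    hG a (h3 a ha) b (h3 b hb) (h4 a b ha hb hab)⟩

theorem Ch_mono_STEP {V V' : Finset (Fin N)} {G G' : SimpleGraph (Fin N)} {P : Fin N → ℂ}
    (hV : V ⊆ V') (hG : ∀ x ∈ V, ∀ y ∈ V, G.Adj x y → G'.Adj x y) {x y : Fin N → ℝ} {c : ℝ}
    (hc : Ch V G P x y c) : Ch V' G' P x y c := by
  induction hc with
  | nil x hx => exact Ch.nil x (Pts_mono_STEP hV hG hx)
  | cons x y z c hx hs hch ih =>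
    refine Ch.cons x y z c (Pts_mono_STEP hV hG hx) ?_ ih
    intro a b ha hb hab
    have hy := hch.mem_left
    have ha' : a ∈ V := by
      rcases ha with h | h
      · exact hx.2.2.1 a h
      · exact hy.2.2.1 a h
    have hb' : b ∈ V := by
      rcases hb with h | h
      · exact hx.2.2.1 b h
      · exact hy.2.2.1 b h
    exact hG a ha' b hb' (hs a b ha hb hab)

theorem Ch_nonneg_STEP {V : Finset (Fin N)} {G : SimpleGraph (Fin N)} {P : Fin N → ℂ}
    {x y : Fin N → ℝ} {c : ℝ} (hc : Ch V G P x y c) : 0 ≤ c := by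
  induction hc with
  | nil x hx => exact le_rfl
  | cons x y z c hx hs hch ih => positivity

theorem dK_mono_STEP (hMet : stMet) {V V' : Finset (Fin N)} {G G' : SimpleGraph (Fin N)}
    {P : Fin N → ℂ} (hT : IsTri V G) (hV : V ⊆ V')
    (hG : ∀ x ∈ V, ∀ y ∈ V, G.Adj x y → G'.Adj x y) {x y : Fin N → ℝ} (hx : x ∈ Pts V G)
    (hy : y ∈ Pts V G) : dK V' G' P x y ≤ dK V G P x y := by
  have h := Ch_mono_STEP (P := P) hV hG ((hMet N V G P hT).att x hx y hy)
  exact csInf_le ⟨0, fun c hc => Ch_nonneg_STEP hc⟩ h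

/-! ### labels -/

theorem cinj_STEP {c : ℕ → Fin N} {M : ℕ} (h3 : 3 ≤ M)
    (h : ∀ i j k, i < j → j < k → k < M → Ccw (c i) (c j) (c k)) {i j : ℕ} (hij : i < j)
    (hj : j < M) : c i ≠ c j := by
  by_cases h1 : j + 1 < M
  · exact Ccw_ne12 (h i j (j + 1) hij (by omega) h1)
  · by_cases h2 : i + 1 < j
    · exact Ccw_ne13 (h i (i + 1) j (by omega) h2 hj)
    · exact Ccw_ne23 (h 0 i j (by omega) hij hj)

theorem Cs_succ_STEP (m : ℕ) (c : ℕ → Fin N) : Cs (m + 1) c = insert (c m) (Cs m c) := by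
  unfold Cs
  rw [Finset.range_add_one, Finset.image_insert]

theorem mem_Cs_STEP {m : ℕ} {c : ℕ → Fin N} {i : ℕ} (h : i < m) : c i ∈ Cs m c := by
  unfold Cs
  exact Finset.mem_image_of_mem _ (Finset.mem_range.2 h)

theorem notbtw_STEP {m : ℕ} {c : ℕ → Fin N} (h3 : 3 ≤ m)
    (h : ∀ i j k, i < j → j < k → k < m → Ccw (c i) (c j) (c k)) :
    ∀ v ∈ Cs m c, ¬ Ccw (c (m - 1)) v (c 0) := by
  intro v hv hc
  unfold Cs at hv
  rw [Finset.mem_image] at hv
  obtain ⟨i, hi, rfl⟩ := hv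
  rw [Finset.mem_range] at hi
  rcases Nat.eq_zero_or_pos i with h0 | h0
  · subst h0
    exact Ccw_ne23 hc rfl
  · rcases Nat.lt_or_ge i (m - 1) with h1 | h1
    · exact Ccw_asymm (Ccw_rot (Ccw_rot (h 0 i (m - 1) h0 h1 (by omega)))) hc
    · have : i = m - 1 := by omega
      subst this
      exact Ccw_ne12 hc rfl

theorem btw_STEP {m : ℕ} {c : ℕ → Fin N} (h3 : 3 ≤ m)
    (h : ∀ i j k, i < j → j < k → k < m + 1 → Ccw (c i) (c j) (c k)) :
    Ccw (c (m - 1)) (c m) (c 0) := by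
  exact Ccw_rot (h 0 (m - 1) m (by omega) (by omega) (by omega))

end Pool.Agent.Helper62.GP
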